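import Pool.Agent.Lib.ALLY.H11
import Pool.Agent.Lib.LU1_h15.Base_G0s

/-!
# Block Y any rank, row TR: refinements, monomials, transcendence degrees
-/

set_option autoImplicit false

open Polynomial

namespace Pool.Agent.ALLY

open Pool.Agent.TAO (OVal VPos Ctx0 CtxR)

universe u w

variable {k Ω : Type u} [Field k] [Field Ω] [Algebra k Ω] {𝕂 : Type w} [Field 𝕂] [LinearOrder 𝕂]
  [IsStrictOrderedRing 𝕂] {v : OVal 𝕂 Ω} {n : ℕ}

/-! ## Algebraic elements of intermediate fields, transcendence degrees -/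

namespace Trd

theorem isAlgebraic_of_mem {E : IntermediateField k Ω} {a : Ω} (ha : a ∈ E) : IsAlgebraic E a :=
  isAlgebraic_algebraMap (R := E) (⟨a, ha⟩ : E)

theorem isAlgebraic_mono {E F : IntermediateField k Ω} (h : E ≤ F) {a : Ω}
    (ha : IsAlgebraic E a) : IsAlgebraic F a := by
  let _ : Algebra E F := (IntermediateField.inclusion h).toRingHom.toAlgebra
  have _ : IsScalarTower E F Ω := IsScalarTower.of_algebraMap_eq fun _ => rfl
  exact ha.tower_top F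

/-- the algebraic closure of `E` in `Ω` -/
noncomputable def clo (E : IntermediateField k Ω) : IntermediateField k Ω :=
  (algebraicClosure E Ω).restrictScalars k

theorem mem_clo {E : IntermediateField k Ω} {a : Ω} : a ∈ clo E ↔ IsAlgebraic E a := by
  rw [clo, IntermediateField.mem_restrictScalars, mem_algebraicClosure_iff]

theorem isAlgebraic_trans_le {E F : IntermediateField k Ω} (hEF : E ≤ F)
    (hF : ∀ a ∈ F, IsAlgebraic E a) {g : Ω} (hg : IsAlgebraic F g) : IsAlgebraic E g := by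
  let _ : Algebra E F := (IntermediateField.inclusion hEF).toRingHom.toAlgebra
  have _ : IsScalarTower E F Ω := IsScalarTower.of_algebraMap_eq fun _ => rfl
  have : Algebra.IsAlgebraic E F := ⟨fun e =>
    (isAlgebraic_algebraMap_iff (R := E) (A := Ω) (algebraMap F Ω).injective).1 (hF e e.2)⟩
  exact hg.restrictScalars E

theorem isAlgebraic_trans {E F : IntermediateField k Ω}
    (hF : ∀ a ∈ F, IsAlgebraic E a) {g : Ω} (hg : IsAlgebraic F g) : IsAlgebraic E g := by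
  have h1 : F ≤ clo E := fun a ha => mem_clo.2 (hF a ha)
  have h2 : E ≤ clo E := fun a ha => mem_clo.2 (isAlgebraic_of_mem ha)
  exact isAlgebraic_trans_le h2 (fun a ha => mem_clo.1 ha) (isAlgebraic_mono h1 hg)

theorem isAlgebraic_of_pow {E : IntermediateField k Ω} {a : Ω} {n : ℕ} (hn : 0 < n)
    (ha : IsAlgebraic E (a ^ n)) : IsAlgebraic E a := by
  obtain ⟨P, hP, h1⟩ := ha
  refine ⟨expand E n P, (expand_ne_zero hn).2 hP, ?_⟩
  rw [expand_aeval, h1]

/-- algebraic over a subring of `K` -/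
theorem isAlgebraic_of_sub {A : Subalgebra k Ω} {K : IntermediateField k Ω}
    (hAK : ∀ a ∈ A, a ∈ K) {a : Ω} (ha : IsAlgebraic A a) : IsAlgebraic K a := by
  let φ : A →+* K := (Subalgebra.inclusion (T := K.toSubalgebra) hAK).toRingHom
  have hφ : Function.Injective φ := fun x y hxy =>
    Subtype.ext (congrArg (fun z : K => (z : Ω)) hxy)
  obtain ⟨P, hP, h1⟩ := ha
  refine ⟨P.map φ, (Polynomial.map_ne_zero_iff hφ).2 hP, ?_⟩
  rw [aeval_def, eval₂_map]
  exact h1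

theorem trdeg_le {K : IntermediateField k Ω} {Z : Set Ω} (hZ : ∀ z ∈ Z, z ∈ K)
    (halg : ∀ a ∈ K, IsAlgebraic (IntermediateField.adjoin k Z) a) :
    Algebra.trdeg k K ≤ Cardinal.mk Z := by
  set Z' : Set K := {z | (z : Ω) ∈ Z} with hZ'
  have hle : IntermediateField.adjoin k Z ≤ (IntermediateField.adjoin k Z').map K.val := by
    rw [IntermediateField.adjoin_le_iff]
    intro x hx
    exact ⟨⟨x, hZ x hx⟩, IntermediateField.subset_adjoin _ _ hx, rfl⟩
  have hle' : ∀ x ∈ IntermediateField.adjoin k Z, x ∈ K := by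
    intro x hx
    obtain ⟨s, -, rfl⟩ := hle hx
    exact s.2
  have halg' : ∀ a : K, IsAlgebraic (IntermediateField.adjoin k Z') a := by
    intro a
    let Φ : IntermediateField.adjoin k Z →+* IntermediateField.adjoin k Z' :=
      { toFun := fun e => ⟨⟨e, hle' e e.2⟩, by
          obtain ⟨s, hs, hse⟩ := hle e.2
          have h1 : s = ⟨(e : Ω), hle' e e.2⟩ := Subtype.ext hse
          rw [← h1]
          exact hs⟩
        map_one' := rfl
        map_mul' := fun _ _ => rfl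
        map_zero' := rfl
        map_add' := fun _ _ => rfl }
    obtain ⟨P, hP, h0⟩ := halg a a.2
    refine ⟨P.map Φ, (Polynomial.map_ne_zero_iff Φ.injective).2 hP, ?_⟩
    apply Subtype.ext
    have h2 := Polynomial.hom_eval₂ P ((algebraMap (IntermediateField.adjoin k Z') K).comp Φ)
      (algebraMap K Ω) a
    rw [aeval_def, eval₂_map]
    exact h2.trans h0
  have h1 := LU1.trdeg_le_of_isAlgebraic (k := k) Z' ⟨halg'⟩
  refine h1.trans ?_
  refine Cardinal.mk_le_of_injective (f := fun z : Z' => (⟨(z : K), z.2⟩ : Z)) ?_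
  intro a b hab
  exact Subtype.ext (Subtype.ext (congrArg (fun z : Z => (z : Ω)) hab))

theorem exists_basis (K : IntermediateField k Ω) : ∃ Z : Set Ω, (∀ z ∈ Z, z ∈ K) ∧
    (∀ a ∈ K, IsAlgebraic (IntermediateField.adjoin k Z) a) ∧
    Cardinal.mk Z = Algebra.trdeg k K := by
  obtain ⟨s, hs⟩ := exists_isTranscendenceBasis k K
  refine ⟨(fun z : K => (z : Ω)) '' s, ?_, ?_, ?_⟩
  · rintro _ ⟨z, -, rfl⟩
    exact z.2
  · intro a ha
    have h1 : IsAlgebraic (Algebra.adjoin k s) (⟨a, ha⟩ : K) := by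
      have := hs.isAlgebraic
      have h2 := this.isAlgebraic (⟨a, ha⟩ : K)
      rwa [Subtype.range_coe] at h2
    have hmem : ∀ x ∈ Algebra.adjoin k s, (x : Ω) ∈
        IntermediateField.adjoin k ((fun z : K => (z : Ω)) '' s) := by
      intro x hx
      have h3 : Algebra.adjoin k s ≤ ((IntermediateField.adjoin k
          ((fun z : K => (z : Ω)) '' s)).comap K.val).toSubalgebra := by
        rw [Algebra.adjoin_le_iff]
        intro z hz
        exact IntermediateField.subset_adjoin _ _ ⟨z, hz, rfl⟩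
      exact h3 hx
    let Φ : Algebra.adjoin k s →+* IntermediateField.adjoin k ((fun z : K => (z : Ω)) '' s) :=
      { toFun := fun e => ⟨((e : K) : Ω), hmem e e.2⟩
        map_one' := rfl
        map_mul' := fun _ _ => rfl
        map_zero' := rfl
        map_add' := fun _ _ => rfl }
    have hΦ : Function.Injective Φ := fun x y hxy =>
      Subtype.ext (Subtype.ext (congrArg (fun z : IntermediateField.adjoin k
        ((fun z : K => (z : Ω)) '' s) => (z : Ω)) hxy))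
    obtain ⟨P, hP, h0⟩ := h1
    refine ⟨P.map Φ, (Polynomial.map_ne_zero_iff hΦ).2 hP, ?_⟩
    have h2 := Polynomial.hom_eval₂ P (algebraMap (Algebra.adjoin k s) K) (algebraMap K Ω) ⟨a, ha⟩
    rw [← aeval_def, h0, map_zero] at h2
    rw [aeval_def, eval₂_map]
    exact h2.symm
  · rw [Cardinal.mk_image_eq Subtype.val_injective]
    exact hs.cardinalMk_eq_trdeg

theorem trdeg_eq {K K' : IntermediateField k Ω} (hle : K ≤ K')
    (halg : ∀ a ∈ K', IsAlgebraic K a) : Algebra.trdeg k K' = Algebra.trdeg k K := by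
  apply le_antisymm
  · obtain ⟨Z, hZ, hZK, hZc⟩ := exists_basis K
    rw [← hZc]
    exact trdeg_le (fun z hz => hle (hZ z hz)) fun a ha => isAlgebraic_trans hZK (halg a ha)
  · exact trdeg_le_of_injective (IntermediateField.inclusion hle)
      (IntermediateField.inclusion hle).injective

end Trd

open Trd

/-! ## The monomials -/

section Chi

variable {D : ℕ}

theorem Trd.chi_zero (S : RD k v D) : S.χ 0 = 1 := by
  have h0 := S.χ_add 0 S.Γ.zero_mem 0 S.Γ.zero_mem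
  rw [add_zero] at h0
  exact mul_left_cancel₀ (S.χ_ne 0 S.Γ.zero_mem) (by rw [← h0, mul_one])

theorem Trd.chi_neg (S : RD k v D) {γ : 𝕂} (hγ : γ ∈ S.Γ) : S.χ (-γ) = (S.χ γ)⁻¹ := by
  have h1 := S.χ_add γ hγ (-γ) (S.Γ.neg_mem hγ)
  rw [add_neg_cancel, chi_zero] at h1
  exact eq_inv_of_mul_eq_one_right h1.symm

theorem Trd.chi_nsmul (S : RD k v D) {γ : 𝕂} (hγ : γ ∈ S.Γ) (m : ℕ) :
    S.χ ((m : 𝕂) * γ) = S.χ γ ^ m := by
  induction m with
  | zero => rw [Nat.cast_zero, zero_mul, chi_zero, pow_zero]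
  | succ m ih =>
    have h1 : ((m : 𝕂) * γ) ∈ S.Γ := by
      rw [← nsmul_eq_mul]
      exact S.Γ.nsmul_mem hγ m
    have h2 : (((m + 1 : ℕ) : 𝕂)) * γ = (m : 𝕂) * γ + γ := by push_cast; ring
    rw [h2, S.χ_add _ h1 _ hγ, ih, pow_succ]

theorem Trd.chi_zsmul (S : RD k v D) {γ : 𝕂} (hγ : γ ∈ S.Γ) (m : ℤ) :
    S.χ ((m : 𝕂) * γ) = S.χ γ ^ m := by
  cases m with
  | ofNat m => simpa using chi_nsmul S hγ m
  | negSucc m =>
    have h1 : (((m + 1 : ℕ) : 𝕂) * γ) ∈ S.Γ := by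
      rw [← nsmul_eq_mul]
      exact S.Γ.nsmul_mem hγ (m + 1)
    have h2 : ((Int.negSucc m : ℤ) : 𝕂) * γ = -(((m + 1 : ℕ) : 𝕂) * γ) := by
      rw [Int.cast_negSucc]; ring
    rw [h2, chi_neg S h1, chi_nsmul S hγ, zpow_negSucc]

theorem Trd.chi_sum (S : RD k v D) {ι : Type} (s : Finset ι) (m : ι → ℤ) (g : ι → 𝕂)
    (hg : ∀ i, g i ∈ S.Γ) :
    (∑ i ∈ s, (m i : 𝕂) * g i) ∈ S.Γ ∧
      S.χ (∑ i ∈ s, (m i : 𝕂) * g i) = ∏ i ∈ s, S.χ (g i) ^ m i := by
  classical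
  induction s using Finset.induction_on with
  | empty =>
    rw [Finset.sum_empty, Finset.prod_empty]
    exact ⟨S.Γ.zero_mem, chi_zero S⟩
  | insert a s ha ih =>
    have h1 : ((m a : 𝕂) * g a) ∈ S.Γ := by
      rw [← zsmul_eq_mul]
      exact S.Γ.zsmul_mem (hg a) _
    rw [Finset.sum_insert ha, Finset.prod_insert ha, S.χ_add _ h1 _ ih.1, ih.2,
      chi_zsmul S (hg a)]
    exact ⟨S.Γ.add_mem h1 ih.1, rfl⟩

theorem Trd.chi_mem (S : RD k v D) {γ : 𝕂} (hγ : γ ∈ S.Γ) (h0 : 0 ≤ γ) : S.χ γ ∈ S.P :=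
  Algebra.subset_adjoin (Or.inl ⟨γ, ⟨hγ, h0⟩, rfl⟩)

theorem Trd.y_mem (S : RD k v D) (i : Fin D) : S.y i ∈ S.P :=
  Algebra.subset_adjoin (Or.inr ⟨i, rfl⟩)

theorem Trd.P_le_H (S : RD k v D) : S.P ≤ S.H := le_hz v S.P

theorem Trd.P_le_K (S : RD k v D) : ∀ a ∈ S.P, a ∈ S.K := by
  have h1 : S.P ≤ S.K.toSubalgebra := by
    rw [RD.P, Algebra.adjoin_le_iff]
    rintro a (⟨γ, ⟨hγ, -⟩, rfl⟩ | ⟨i, rfl⟩)
    · exact IntermediateField.subset_adjoin _ _ (Or.inl ⟨γ, hγ, rfl⟩)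
    · exact IntermediateField.subset_adjoin _ _ (Or.inr ⟨i, rfl⟩)
  exact h1

/-- to check an inclusion of `S.K` -/
theorem Trd.K_le {S : RD k v D} {K : IntermediateField k Ω}
    (hχ : ∀ γ ∈ S.Γ, 0 ≤ γ → S.χ γ ∈ K) (hy : ∀ i, S.y i ∈ K) : S.K ≤ K := by
  rw [RD.K, IntermediateField.adjoin_le_iff]
  rintro a (⟨γ, hγ, rfl⟩ | ⟨i, rfl⟩)
  · rcases le_total 0 γ with h0 | h0
    · exact hχ γ hγ h0
    · have h1 := hχ (-γ) (S.Γ.neg_mem hγ) (by linarith)
      rw [chi_neg S hγ] at h1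
      have h2 := K.inv_mem h1
      rwa [inv_inv] at h2
  · exact hy i

end Chi

/-! ## Refinements -/

section Ref

variable {D d r : ℕ}

theorem RD.Le.H_le {S S' : RD k v D} (h : S.Le S') : S.H ≤ S'.H := by
  refine hz_le_hz ?_
  show S.P ≤ S'.H
  rw [RD.P, Algebra.adjoin_le_iff]
  rintro a (⟨γ, ⟨hγ, h0⟩, rfl⟩ | ⟨i, rfl⟩)
  · have h1 := h.χ_mono γ hγ
    have h2 := P_le_H S' (chi_mem S' (h.Γ_le γ hγ) h0)
    have h3 := S'.H.mul_mem h1 h2
    rwa [div_mul_cancel₀ _ (S'.χ_ne γ (h.Γ_le γ hγ))] at h3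
  · exact h.y_mem i

theorem RD.Mono.mul {S : RD k v D} {f g : Ω} (hf : S.Mono f) (hg : S.Mono g) :
    S.Mono (f * g) := by
  obtain ⟨hf0, hf1, hf2⟩ := hf
  obtain ⟨hg0, hg1, hg2⟩ := hg
  have hv := v.map_mul hf0 hg0
  refine ⟨mul_ne_zero hf0 hg0, ?_, ?_⟩
  · rw [hv]
    exact S.Γ.add_mem hf1 hg1
  · rw [hv, S.χ_add _ hf1 _ hg1, mul_div_mul_comm]
    exact S.H.mul_mem hf2 hg2

theorem RD.Mono.inv {S : RD k v D} {f : Ω} (hf : S.Mono f) : S.Mono f⁻¹ := by
  obtain ⟨hf0, hf1, hf2⟩ := hf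
  have hv := v.map_inv hf0
  have hχ := S.χ_ne _ hf1
  refine ⟨inv_ne_zero hf0, ?_, ?_⟩
  · rw [hv]
    exact S.Γ.neg_mem hf1
  · rw [hv, chi_neg S hf1, ← inv_div_inv, inv_inv, inv_inv, ← inv_div]
    refine (hz_hcl v S.P).inv _ hf2 (div_ne_zero hf0 hχ) ?_
    rw [v.map_div hf0 hχ, S.χ_val _ hf1, sub_self]

theorem RD.mono_χ {S : RD k v D} {γ : 𝕂} (hγ : γ ∈ S.Γ) : S.Mono (S.χ γ) := by
  refine ⟨S.χ_ne γ hγ, ?_, ?_⟩
  · rw [S.χ_val γ hγ]
    exact hγ
  · rw [S.χ_val γ hγ, div_self (S.χ_ne γ hγ)]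
    exact S.H.one_mem

theorem RD.Un.mono {S : RD k v D} {f : Ω} (hf : S.Un f) : S.Mono f := by
  obtain ⟨h1, h2, h3⟩ := hf
  refine ⟨h2, ?_, ?_⟩
  · rw [h3]
    exact S.Γ.zero_mem
  · rw [h3, chi_zero, div_one]
    exact h1

theorem RD.Le.mono {S S' : RD k v D} (h : S.Le S') {f : Ω} (hf : S.Mono f) : S'.Mono f := by
  obtain ⟨hf0, hf1, hf2⟩ := hf
  refine ⟨hf0, h.Γ_le _ hf1, ?_⟩
  have h1 := S'.H.mul_mem (h.H_le hf2) (h.χ_mono _ hf1)
  rwa [div_mul_div_cancel₀ (S.χ_ne _ hf1)] at h1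

theorem RD.Le.refl (S : RD k v D) : S.Le S where
  Γ_le := fun _ hγ => hγ
  χ_mono := fun γ hγ => by
    rw [div_self (S.χ_ne γ hγ)]
    exact S.H.one_mem
  y_mem := fun i => P_le_H S (Trd.y_mem S i)
  den := fun g hg => ⟨g, hg, 1, S.P.one_mem, by
    have h1 := RD.mono_χ (S := S) S.Γ.zero_mem
    rwa [chi_zero] at h1, (div_one g).symm⟩

theorem RD.Le.trans {S S' S'' : RD k v D} (h : S.Le S') (h' : S'.Le S'') : S.Le S'' where
  Γ_le := fun γ hγ => h'.Γ_le γ (h.Γ_le γ hγ)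
  χ_mono := fun γ hγ => by
    have h1 := S''.H.mul_mem (h'.H_le (h.χ_mono γ hγ)) (h'.χ_mono γ (h.Γ_le γ hγ))
    rwa [div_mul_div_cancel₀ (S'.χ_ne _ (h.Γ_le γ hγ))] at h1
  y_mem := fun i => h'.H_le (h.y_mem i)
  den := fun g hg => by
    obtain ⟨a, ha, b, hb, hbm, rfl⟩ := h'.den g hg
    obtain ⟨a1, ha1, b1, hb1, hb1m, rfl⟩ := h.den a ha
    obtain ⟨a2, ha2, b2, hb2, hb2m, rfl⟩ := h.den b hb
    refine ⟨a1 * b2, S.P.mul_mem ha1 hb2, b1 * a2, S.P.mul_mem hb1 ha2, ?_, ?_⟩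
    · refine (h'.mono hb1m).mul ?_
      have h1 := hbm.mul (h'.mono hb2m)
      rwa [div_mul_cancel₀ _ hb2m.1] at h1
    · rw [div_div_div_eq]

/-- elements of `Frac S.H` -/
theorem RD.inFr_of_K (S : RD k v D) {a : Ω} (ha : a ∈ S.K) : InFr S.P a := by
  have hP : ∀ b ∈ S.P, InFr S.P b := fun b hb =>
    ⟨b, hb, 1, S.P.one_mem, one_ne_zero, (div_one b).symm⟩
  have hinv : ∀ b, InFr S.P b → InFr S.P b⁻¹ := by
    rintro _ ⟨b, hb, c, hc, hc0, rfl⟩
    by_cases hb0 : b = 0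
    · rw [hb0, zero_div, inv_zero]
      exact hP 0 S.P.zero_mem
    · exact ⟨c, hc, b, hb, hb0, inv_div _ _⟩
  let F : IntermediateField k Ω :=
    { carrier := {a | InFr S.P a}
      mul_mem' := by
        rintro _ _ ⟨a, ha, b, hb, hb0, rfl⟩ ⟨a', ha', b', hb', hb0', rfl⟩
        exact ⟨a * a', S.P.mul_mem ha ha', b * b', S.P.mul_mem hb hb', mul_ne_zero hb0 hb0',
          div_mul_div_comm _ _ _ _⟩
      one_mem' := hP 1 S.P.one_mem
      add_mem' := by
        rintro _ _ ⟨a, ha, b, hb, hb0, rfl⟩ ⟨a', ha', b', hb', hb0', rfl⟩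
        exact ⟨a * b' + b * a', S.P.add_mem (S.P.mul_mem ha hb') (S.P.mul_mem hb ha'), b * b',
          S.P.mul_mem hb hb', mul_ne_zero hb0 hb0', div_add_div _ _ hb0 hb0'⟩
      zero_mem' := hP 0 S.P.zero_mem
      algebraMap_mem' := fun c => hP _ (S.P.algebraMap_mem c)
      inv_mem' := hinv }
  have h1 : S.K ≤ F := K_le (fun γ hγ h0 => hP _ (chi_mem S hγ h0)) fun i => hP _ (Trd.y_mem S i)
  exact h1 ha

/-- the henselization is algebraic -/
theorem Trd.alg_H (S : RD k v D) {a : Ω} (ha : a ∈ S.H) : IsAlgebraic S.K a := by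
  obtain ⟨b, hb, c, hc, -, -, rfl⟩ := hz_le_locv_icl v S.P ha
  have h1 : IsAlgebraic S.K b := isAlgebraic_of_sub (P_le_K S) hb.2.isAlgebraic
  have h2 : IsAlgebraic S.K c := isAlgebraic_of_sub (P_le_K S) hc.2.isAlgebraic
  rw [div_eq_mul_inv]
  exact h1.mul h2.inv

theorem RD.Le.K_le {S S' : RD k v D} (hle : S.Le S') : S'.K ≤ S.K := by
  have h1 : ∀ g ∈ S'.P, g ∈ S.K := by
    intro g hg
    obtain ⟨a, ha, b, hb, -, rfl⟩ := hle.den g hg
    exact S.K.div_mem (P_le_K S a ha) (P_le_K S b hb)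
  exact Trd.K_le (fun γ hγ h0 => h1 _ (chi_mem S' hγ h0)) fun i => h1 _ (Trd.y_mem S' i)

theorem RD.Le.alg_K {S S' : RD k v D} (hle : S.Le S') : ∀ a ∈ S.K, IsAlgebraic S'.K a := by
  have h1 : S.K ≤ clo S'.K := Trd.K_le
    (fun γ hγ h0 => mem_clo.2 (alg_H S' (hle.H_le (P_le_H S (chi_mem S hγ h0)))))
    fun i => mem_clo.2 (alg_H S' (hle.y_mem i))
  exact fun a ha => mem_clo.1 (h1 ha)

theorem RD.Le.trdeg (_h : Ctx0 k v n) {S S' : RD k v D} (hle : S.Le S') :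
    Algebra.trdeg k S'.K = Algebra.trdeg k S.K :=
  (trdeg_eq hle.K_le hle.alg_K).symm

/-- Independent exponents. -/
theorem Trd.exists_coord (h : CtxR k v n r) (S : RD k v D) :
    ∃ g : Fin r → 𝕂, (∀ i, g i ∈ S.Γ) ∧
      ∀ γ ∈ S.Γ, ∃ N : ℕ, 0 < N ∧ ∃ m : Fin r → ℤ, (N : 𝕂) * γ = ∑ i, (m i : 𝕂) * g i := by
  classical
  obtain ⟨X, hX0, hXi, hX⟩ := h.rank
  choose m hm hmX using fun i => S.full (X i) (hX0 i)
  have hspan : ∀ a : Ω, a ≠ 0 → v a ∈ Submodule.span ℚ (Set.range fun i => (m i : 𝕂) * v (X i)) := by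
    intro a ha
    refine (Submodule.span_le.2 ?_) (hX a ha)
    rintro _ ⟨i, rfl⟩
    have hmi : (m i : 𝕂) ≠ 0 := by exact_mod_cast (hm i).ne'
    have h2 : v (X i) = ((m i : ℚ)⁻¹) • ((m i : 𝕂) * v (X i)) := by
      rw [Rat.smul_def]
      push_cast
      rw [← mul_assoc, inv_mul_cancel₀ hmi, one_mul]
    change v (X i) ∈ Submodule.span ℚ (Set.range fun i => (m i : 𝕂) * v (X i))
    rw [h2]
    exact Submodule.smul_mem _ _ (Submodule.subset_span ⟨i, rfl⟩)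
  refine ⟨fun i => (m i : 𝕂) * v (X i), hmX, fun γ hγ => ?_⟩
  have hmem := hspan (S.χ γ) (S.χ_ne γ hγ)
  rw [S.χ_val γ hγ] at hmem
  obtain ⟨c, hc⟩ := (Submodule.mem_span_range_iff_exists_fun ℚ).1 hmem
  refine ⟨∏ i, (c i).den, Finset.prod_pos fun i _ => (c i).pos,
    fun i => (c i).num * ∏ j ∈ Finset.univ.erase i, ((c j).den : ℤ), ?_⟩
  rw [← hc, Finset.mul_sum]
  refine Finset.sum_congr rfl fun i _ => ?_
  rw [Rat.smul_def, ← Finset.mul_prod_erase _ _ (Finset.mem_univ i), ← mul_assoc]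
  congr 1
  have h1 : ((c i).num : 𝕂) = (c i : 𝕂) * (c i).den := by
    exact_mod_cast (Rat.mul_den_eq_num (c i)).symm
  push_cast
  rw [h1]
  ring

theorem RD.trdeg_le (h : CtxR k v n r) (S : RD k v D) :
    Algebra.trdeg k S.K ≤ ((r + D : ℕ) : Cardinal) := by
  classical
  obtain ⟨g, hg, hgN⟩ := Trd.exists_coord h S
  set Z : Set Ω := Set.range (fun i => S.χ (g i)) ∪ Set.range S.y with hZ
  have hZK : ∀ z ∈ Z, z ∈ S.K := by
    rintro z (⟨i, rfl⟩ | ⟨i, rfl⟩)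
    · exact IntermediateField.subset_adjoin _ _ (Or.inl ⟨_, hg i, rfl⟩)
    · exact IntermediateField.subset_adjoin _ _ (Or.inr ⟨i, rfl⟩)
  have hK : S.K ≤ clo (IntermediateField.adjoin k Z) := by
    refine Trd.K_le (fun γ hγ _ => ?_) fun i => ?_
    · obtain ⟨N, hN, m, hm⟩ := hgN γ hγ
      rw [mem_clo]
      refine isAlgebraic_of_pow hN ?_
      rw [← chi_nsmul S hγ, hm, (chi_sum S Finset.univ m g hg).2]
      have h5 : ∀ i, S.χ (g i) ∈ IntermediateField.adjoin k Z := fun i =>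
        IntermediateField.subset_adjoin _ _ (Or.inl ⟨i, rfl⟩)
      exact isAlgebraic_of_mem (prod_mem fun i _ => zpow_mem (h5 i) _)
    · exact mem_clo.2 (isAlgebraic_of_mem
        (IntermediateField.subset_adjoin _ _ (Or.inr ⟨i, rfl⟩)))
  refine (Trd.trdeg_le hZK fun a ha => mem_clo.1 (hK ha)).trans ?_
  refine (Cardinal.mk_union_le _ _).trans ?_
  have h1 : Cardinal.mk (Set.range fun i => S.χ (g i)) ≤ (r : Cardinal) := by
    have := Cardinal.mk_range_le_lift (f := fun i => S.χ (g i))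
    simpa using this
  have h2 : Cardinal.mk (Set.range S.y) ≤ (D : Cardinal) := by
    have := Cardinal.mk_range_le_lift (f := S.y)
    simpa using this
  push_cast
  exact add_le_add h1 h2

theorem RD.low_K_le (S : RD k v (d + 1)) : S.low.K ≤ S.K :=
  Trd.K_le (S := S.low) (fun γ hγ _ => IntermediateField.subset_adjoin _ _ (Or.inl ⟨γ, hγ, rfl⟩))
    fun i => IntermediateField.subset_adjoin _ _ (Or.inr ⟨i.castSucc, rfl⟩)

/-- `S.K` is generated by `S.low.K` and `S.z` -/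
theorem RD.K_le_of_low {S : RD k v (d + 1)} {K : IntermediateField k Ω} (h1 : S.low.K ≤ K)
    (h2 : S.z ∈ K) : S.K ≤ K := by
  refine Trd.K_le (fun γ hγ _ => h1 (IntermediateField.subset_adjoin _ _ (Or.inl ⟨γ, hγ, rfl⟩)))
    fun i => ?_
  refine Fin.lastCases ?_ (fun j => ?_) i
  · exact h2
  · exact h1 (IntermediateField.subset_adjoin _ _ (Or.inr ⟨j, rfl⟩))

theorem RD.transc (h : CtxR k v n r) (S : RD k v (d + 1))
    (hS : Algebra.trdeg k S.K = r + (d + 1)) :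
    Transcendental S.low.K S.z ∧ Algebra.trdeg k S.low.K = r + d := by
  classical
  have h1 := RD.trdeg_le h S.low
  obtain ⟨m, hm⟩ := Cardinal.lt_aleph0.1 (h1.trans_lt Cardinal.natCast_lt_aleph0)
  have hmle : m ≤ r + d := by
    rw [hm] at h1
    exact_mod_cast h1
  have h2 : Algebra.trdeg k S.K ≤ ((m + 1 : ℕ) : Cardinal) := by
    obtain ⟨Z, hZ, hZK, hZc⟩ := exists_basis S.low.K
    have h3 : S.K ≤ clo (IntermediateField.adjoin k (Z ∪ {S.z})) := by
      refine RD.K_le_of_low (fun a ha => mem_clo.2 ?_) (mem_clo.2 (isAlgebraic_of_mem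
        (IntermediateField.subset_adjoin _ _ (Or.inr rfl))))
      exact isAlgebraic_mono (IntermediateField.adjoin.mono _ _ _ Set.subset_union_left)
        (hZK a ha)
    have h4 : ∀ z ∈ Z ∪ {S.z}, z ∈ S.K := by
      rintro z (hz | hz)
      · exact S.low_K_le (hZ z hz)
      · rw [Set.mem_singleton_iff.1 hz]
        exact IntermediateField.subset_adjoin _ _ (Or.inr ⟨Fin.last d, rfl⟩)
    refine (Trd.trdeg_le h4 fun a ha => mem_clo.1 (h3 ha)).trans ?_
    refine (Cardinal.mk_union_le _ _).trans ?_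
    rw [hZc, hm, Cardinal.mk_singleton]
    push_cast
    exact le_rfl
  have hm' : m = r + d := by
    rw [hS] at h2
    have h3 : ((r + (d + 1) : ℕ) : Cardinal) ≤ ((m + 1 : ℕ) : Cardinal) := by
      push_cast at h2 ⊢
      exact h2
    have h4 := Nat.cast_le.1 h3
    omega
  refine ⟨fun hz => ?_, by rw [hm, hm']; push_cast; rfl⟩
  have h3 := trdeg_eq S.low_K_le (by
    have h4 : S.K ≤ clo S.low.K := RD.K_le_of_low (fun a ha => mem_clo.2 (isAlgebraic_of_mem ha))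
      (mem_clo.2 hz)
    exact fun a ha => mem_clo.1 (h4 ha))
  rw [hS, hm, hm'] at h3
  have h5 : ((r + (d + 1) : ℕ) : Cardinal) = ((r + d : ℕ) : Cardinal) := by
    push_cast at h3 ⊢
    exact h3
  have h6 := Nat.cast_injective h5
  omega

end Ref

end Pool.Agent.ALLY
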