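import Pool.Agent.Lib.ALLY.Nrm
import Pool.Agent.Lib.ALLY.Trd

/-!
# Block Y any rank, row W4: denominators of integral elements
-/

set_option autoImplicit false

open Polynomial

namespace Pool.Agent.ALLY

open Pool.Agent.TAO (OVal VPos Ctx0 CtxR)

universe u w

variable {k Ω : Type u} [Field k] [Field Ω] [Algebra k Ω] {𝕂 : Type w} [Field 𝕂] [LinearOrder 𝕂]
  [IsStrictOrderedRing 𝕂] {v : OVal 𝕂 Ω} {D n r : ℕ}

theorem inLoc_of_mem {A : Subalgebra k Ω} {f : Ω} (hf : f ∈ A) : InLoc v A f :=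
  ⟨f, hf, 1, one_mem _, one_ne_zero, v.map_one, (div_one f).symm⟩

/-- An element of the localisation of `S'.P` is `a / b`, `a, b ∈ S.P`, `b` a monomial of `S'`. -/
theorem RD.Le.den_loc {S S' : RD k v D} (hle : S.Le S') {f : Ω} (hf : InLoc v S'.P f) :
    ∃ a ∈ S.P, ∃ b ∈ S.P, S'.Mono b ∧ f = a / b := by
  obtain ⟨x, hx, y, hy, hy0, hvy, rfl⟩ := hf
  obtain ⟨a, ha, b, hb, hbm, rfl⟩ := hle.den x hx
  obtain ⟨a', ha', b', hb', hbm', hye⟩ := hle.den y hy
  have h1 : S'.Mono y := RD.Un.mono ⟨le_hz v _ hy, hy0, hvy⟩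
  have h2 : a' = y * b' := by rw [hye, div_mul_cancel₀ _ hbm'.1]
  have h3 : S'.Mono a' := by rw [h2]; exact h1.mul hbm'
  refine ⟨a * b', mul_mem ha hb', b * a', mul_mem hb ha', hbm.mul h3, ?_⟩
  rw [hye, div_div_div_eq]

/-- Row W4. -/
theorem RD.den_of (h : CtxR k v n r) (S S' : RD k v D) (hS : Algebra.trdeg k S.K = r + D)
    (hle : S.Le S') {e : Ω} (he : e ∈ S.K) (P : Polynomial Ω) (hP : P.Monic)
    (hP' : ∀ i, InLoc v S'.P (P.coeff i)) (h0 : P.eval e = 0) :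
    ∃ B ∈ S.P, S'.Mono B ∧ InLoc v S.P (B * e) := by
  classical
  have h1 : ∀ i, ∃ b ∈ S.P, S'.Mono b ∧ b * P.coeff i ∈ S.P := by
    intro i
    obtain ⟨a, ha, b, hb, hbm, hab⟩ := hle.den_loc (hP' i)
    refine ⟨b, hb, hbm, ?_⟩
    rw [hab, mul_div_cancel₀ _ hbm.1]
    exact ha
  choose b hb hbm hbc using h1
  have hone : S'.Mono 1 := by
    have := RD.mono_χ (S := S') S'.Γ.zero_mem
    rwa [Trd.chi_zero] at this
  have hprod : ∀ s : Finset ℕ, S'.Mono (∏ i ∈ s, b i) ∧ (∏ i ∈ s, b i) ∈ S.P := by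
    intro s
    induction s using Finset.induction_on with
    | empty => exact ⟨by rw [Finset.prod_empty]; exact hone, by
        rw [Finset.prod_empty]; exact one_mem _⟩
    | insert i s hi ih =>
      rw [Finset.prod_insert hi]
      exact ⟨(hbm i).mul ih.1, mul_mem (hb i) ih.2⟩
  obtain ⟨hBm, hB⟩ := hprod (Finset.range P.natDegree)
  set B : Ω := ∏ i ∈ Finset.range P.natDegree, b i with hBdef
  have hBc : ∀ i, i < P.natDegree → B * P.coeff i ∈ S.P := by
    intro i hi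
    have h2 : B = b i * ∏ j ∈ (Finset.range P.natDegree).erase i, b j := by
      rw [hBdef, Finset.mul_prod_erase _ _ (Finset.mem_range.2 hi)]
    rw [h2, mul_right_comm]
    exact mul_mem (hbc i) (hprod _).2
  refine ⟨B, hB, hBm, RD.inLoc_of_integral h S hS (mul_mem (Trd.P_le_K S B hB) he)
    ⟨P.scaleRoots B, (monic_scaleRoots_iff B).2 hP, fun i => ?_, ?_⟩⟩
  · rw [coeff_scaleRoots]
    rcases lt_trichotomy i P.natDegree with hi | hi | hi
    · obtain ⟨m, hm⟩ : ∃ m, P.natDegree - i = m + 1 := ⟨P.natDegree - i - 1, by omega⟩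
      have h3 : P.coeff i * B ^ (m + 1) = B * P.coeff i * B ^ m := by ring
      rw [hm, h3]
      exact inLoc_of_mem (mul_mem (hBc i hi) (pow_mem hB m))
    · rw [hi, Nat.sub_self, pow_zero, mul_one, hP.coeff_natDegree]
      exact inLoc_of_mem (one_mem _)
    · rw [coeff_eq_zero_of_natDegree_lt hi, zero_mul]
      exact inLoc_of_mem (zero_mem _)
  · have h3 := scaleRoots_eval₂_eq_zero (RingHom.id Ω) (r := e) (s := B) (p := P) h0
    exact h3

end Pool.Agent.ALLY
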