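import Pool.Agent.Lib.ALLY.Defs

/-!
# PROJECT ALL, block Y in any rank, row H2: the maximal ideal of `S.H`

`S.H = k + (χ(> 0), y) S.H`, and the elements of `S.H` of positive value are those of
`(χ(> 0), y) S.H`.
-/

set_option autoImplicit false

open Polynomial

namespace Pool.Agent.ALLY

open Pool.Agent.TAO (OVal VPos Ctx0 CtxR)

universe u w

variable {k Ω : Type u} [Field k] [Field Ω] [Algebra k Ω] {𝕂 : Type w} [Field 𝕂] [LinearOrder 𝕂]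
  [IsStrictOrderedRing 𝕂] {v : OVal 𝕂 Ω} {n : ℕ}

section Gen

variable {D d : ℕ}

theorem RD.hcl (S : RD k v D) : HCl v S.H := hz_hcl v S.P

theorem RD.P_le_H (S : RD k v D) : S.P ≤ S.H := le_hz v S.P

/-- The elements of nonnegative value. -/
def Gen.geA (h : Ctx0 k v n) : Subalgebra k Ω where
  carrier := {f | v.Ge 0 f}
  mul_mem' := fun {a b} ha hb => by
    have h1 := OVal.Ge.mul ha hb
    rwa [add_zero] at h1
  add_mem' := fun {a b} ha hb => OVal.Ge.add ha hb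
  algebraMap_mem' := fun c => by
    change v.Ge 0 (algebraMap k Ω c)
    intro h0
    have hc : c ≠ 0 := by
      rintro rfl
      exact h0 (map_zero _)
    rw [h.triv c hc]

theorem Gen.mem_geA (h : Ctx0 k v n) {f : Ω} : f ∈ Gen.geA h ↔ v.Ge 0 f := Iff.rfl

theorem Gen.geA_hcl (h : Ctx0 k v n) : HCl v (Gen.geA h) where
  inv := fun a _ h0 h1 => by
    rw [Gen.mem_geA]
    intro _
    rw [v.map_inv h0, h1, neg_zero]
  root := fun _ _ _ a ha _ _ _ => ha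

theorem RD.χ_mem (S : RD k v D) {γ : 𝕂} (hγ : γ ∈ S.Γ) (h0 : 0 ≤ γ) : S.χ γ ∈ S.P :=
  Algebra.subset_adjoin (Or.inl ⟨γ, ⟨hγ, h0⟩, rfl⟩)

theorem RD.y_mem (S : RD k v D) (i : Fin D) : S.y i ∈ S.P :=
  Algebra.subset_adjoin (Or.inr ⟨i, rfl⟩)

theorem RD.χ_mem_H (S : RD k v D) {γ : 𝕂} (hγ : γ ∈ S.Γ) (h0 : 0 ≤ γ) : S.χ γ ∈ S.H :=
  S.P_le_H (S.χ_mem hγ h0)

theorem RD.y_mem_H (S : RD k v D) (i : Fin D) : S.y i ∈ S.H :=
  S.P_le_H (S.y_mem i)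

theorem RD.P_le_geA (h : Ctx0 k v n) (S : RD k v D) : S.P ≤ Gen.geA h := by
  refine Algebra.adjoin_le ?_
  rintro f (⟨γ, ⟨hγ, h0⟩, rfl⟩ | ⟨i, rfl⟩)
  · change v.Ge 0 (S.χ γ)
    intro _
    rw [S.χ_val γ hγ]
    exact h0
  · change v.Ge 0 (S.y i)
    intro _
    exact (S.y_pos i).le

theorem RD.nonneg (h : Ctx0 k v n) (S : RD k v D) : ∀ f ∈ S.H, v.Ge 0 f := fun _ hf =>
  hz_le (S.P_le_geA h) (Gen.geA_hcl h) hf

theorem RD.χ_zero (S : RD k v D) : S.χ 0 = 1 := by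
  have h0 := S.Γ.zero_mem
  have h1 := S.χ_add 0 h0 0 h0
  rw [add_zero] at h1
  have h2 := S.χ_ne 0 h0
  have h3 : S.χ 0 * S.χ 0 = S.χ 0 * 1 := by rw [mul_one]; exact h1.symm
  exact mul_left_cancel₀ h2 h3

theorem RD.χ_neg (S : RD k v D) {γ : 𝕂} (hγ : γ ∈ S.Γ) : S.χ (-γ) = (S.χ γ)⁻¹ := by
  have h1 := S.χ_add γ hγ (-γ) (S.Γ.neg_mem hγ)
  rw [add_neg_cancel, S.χ_zero] at h1
  exact eq_inv_of_mul_eq_one_right h1.symm

/-- there is a positive element of `Γ` -/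
theorem RD.exists_pos {r : ℕ} (h : CtxR k v n r) (hr : 0 < r) (S : RD k v D) :
    ∃ γ ∈ S.Γ, 0 < γ := by
  obtain ⟨X, hX, hli, -⟩ := h.rank
  have h1 : v (X ⟨0, hr⟩) ≠ 0 := hli.ne_zero ⟨0, hr⟩
  obtain ⟨m, hm, hm'⟩ := S.full (X ⟨0, hr⟩) (hX _)
  have hm0 : (m : 𝕂) ≠ 0 := by
    have : (0 : 𝕂) < m := by exact_mod_cast hm
    exact this.ne'
  have h2 : (m : 𝕂) * v (X ⟨0, hr⟩) ≠ 0 := mul_ne_zero hm0 h1
  rcases lt_or_gt_of_ne h2 with h3 | h3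
  · exact ⟨-((m : 𝕂) * v (X ⟨0, hr⟩)), S.Γ.neg_mem hm', neg_pos.2 h3⟩
  · exact ⟨(m : 𝕂) * v (X ⟨0, hr⟩), hm', h3⟩

/-- The ideal of `S.H` generated by `χ(> 0)` and a family `Y`. -/
def RD.Ix (S : RD k v D) {ι : Type} [Fintype ι] (Y : ι → Ω) (f : Ω) : Prop :=
  ∃ γ ∈ S.Γ, 0 < γ ∧ ∃ a ∈ S.H, ∃ b : ι → Ω, (∀ i, b i ∈ S.H) ∧
    f = S.χ γ * a + ∑ i, Y i * b i

theorem RD.mx_eq_ix (S : RD k v D) {f : Ω} : S.Mx f ↔ S.Ix S.y f := Iff.rfl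

theorem RD.lx_eq_ix (S : RD k v (d + 1)) {f : Ω} :
    S.Lx f ↔ S.Ix (fun i : Fin d => S.y i.castSucc) f := Iff.rfl

section Ix

variable {ι : Type} [Fintype ι] {Y : ι → Ω}

theorem RD.Ix.mem (h : Ctx0 k v n) {S : RD k v D} (hY : ∀ i, Y i ∈ S.H ∧ VPos v (Y i)) {f : Ω}
    (hf : S.Ix Y f) : f ∈ S.H ∧ VPos v f := by
  obtain ⟨γ, hγ, h0, a, ha, b, hb, rfl⟩ := hf
  refine ⟨add_mem (mul_mem (S.χ_mem_H hγ h0.le) ha)
    (sum_mem fun i _ => mul_mem (hY i).1 (hb i)), ?_⟩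
  have h1 : VPos v (S.χ γ * a) := by
    refine VPos.mul ?_ (S.nonneg h a ha)
    intro _
    rw [S.χ_val γ hγ]
    exact h0
  have h2 : ∀ s : Finset ι, VPos v (∑ i ∈ s, Y i * b i) := by
    classical
    intro s
    induction s using Finset.induction_on with
    | empty => rw [Finset.sum_empty]; exact VPos.zero
    | insert i s hi ih =>
      rw [Finset.sum_insert hi]
      exact VPos.add (VPos.mul (hY i).2 (S.nonneg h _ (hb i))) ih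
  exact h1.add (h2 _)

/-- The exponent `γ` can be decreased. -/
theorem RD.χ_mul_le (S : RD k v D) {γ δ : 𝕂} (hγ : γ ∈ S.Γ) (hδ : δ ∈ S.Γ) (hle : δ ≤ γ) {a : Ω}
    (ha : a ∈ S.H) : ∃ a' ∈ S.H, S.χ γ * a = S.χ δ * a' := by
  refine ⟨S.χ (γ - δ) * a, mul_mem (S.χ_mem_H (S.Γ.sub_mem hγ hδ) (sub_nonneg.2 hle)) ha, ?_⟩
  rw [← mul_assoc, ← S.χ_add δ hδ (γ - δ) (S.Γ.sub_mem hγ hδ), add_sub_cancel]

theorem RD.Ix.add {S : RD k v D} {f g : Ω} (hf : S.Ix Y f) (hg : S.Ix Y g) :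
    S.Ix Y (f + g) := by
  obtain ⟨γ, hγ, h0, a, ha, b, hb, rfl⟩ := hf
  obtain ⟨δ, hδ, h0', a', ha', b', hb', rfl⟩ := hg
  obtain ⟨ε, hε, hε0, hεγ, hεδ⟩ : ∃ ε ∈ S.Γ, 0 < ε ∧ ε ≤ γ ∧ ε ≤ δ := by
    rcases le_total γ δ with h1 | h1
    · exact ⟨γ, hγ, h0, le_rfl, h1⟩
    · exact ⟨δ, hδ, h0', h1, le_rfl⟩
  obtain ⟨a₁, ha₁, h1⟩ := S.χ_mul_le hγ hε hεγ ha
  obtain ⟨a₂, ha₂, h2⟩ := S.χ_mul_le hδ hε hεδ ha'
  refine ⟨ε, hε, hε0, a₁ + a₂, add_mem ha₁ ha₂, fun i => b i + b' i,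
    fun i => add_mem (hb i) (hb' i), ?_⟩
  rw [h1, h2, mul_add]
  simp only [mul_add, Finset.sum_add_distrib]
  ring

theorem RD.Ix.mul_left {S : RD k v D} {f a : Ω} (ha : a ∈ S.H) (hf : S.Ix Y f) :
    S.Ix Y (a * f) := by
  obtain ⟨γ, hγ, h0, c, hc, b, hb, rfl⟩ := hf
  refine ⟨γ, hγ, h0, a * c, mul_mem ha hc, fun i => a * b i, fun i => mul_mem ha (hb i), ?_⟩
  rw [mul_add, Finset.mul_sum]
  congr 1
  · ring
  · exact Finset.sum_congr rfl fun i _ => by ring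

theorem RD.Ix.zero {S : RD k v D} (hpos : ∃ γ ∈ S.Γ, 0 < γ) : S.Ix Y 0 := by
  obtain ⟨γ, hγ, h0⟩ := hpos
  refine ⟨γ, hγ, h0, 0, zero_mem _, fun _ => 0, fun _ => zero_mem _, ?_⟩
  simp

theorem RD.Ix.gen [DecidableEq ι] {S : RD k v D} (hpos : ∃ γ ∈ S.Γ, 0 < γ) (i : ι) :
    S.Ix Y (Y i) := by
  obtain ⟨γ, hγ, h0⟩ := hpos
  refine ⟨γ, hγ, h0, 0, zero_mem _, fun j => if j = i then 1 else 0, fun j => ?_, ?_⟩
  · dsimp only
    split_ifs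
    · exact one_mem _
    · exact zero_mem _
  · simp

theorem RD.Ix.of_χ {S : RD k v D} {γ : 𝕂} (hγ : γ ∈ S.Γ) (h0 : 0 < γ) :
    S.Ix Y (S.χ γ) := by
  refine ⟨γ, hγ, h0, 1, one_mem _, fun _ => 0, fun _ => zero_mem _, ?_⟩
  simp

end Ix

theorem RD.y_vpos (S : RD k v D) (i : Fin D) : VPos v (S.y i) := fun _ => S.y_pos i

theorem RD.Mx.mem (h : Ctx0 k v n) {S : RD k v D} {f : Ω} (hf : S.Mx f) :
    f ∈ S.H ∧ VPos v f :=
  RD.Ix.mem h (fun i => ⟨S.y_mem_H i, S.y_vpos i⟩) hf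

theorem RD.Mx.add {S : RD k v D} {f g : Ω} (hf : S.Mx f) (hg : S.Mx g) : S.Mx (f + g) :=
  RD.Ix.add hf hg

theorem RD.Mx.mul_left {S : RD k v D} {f a : Ω} (ha : a ∈ S.H) (hf : S.Mx f) : S.Mx (a * f) :=
  RD.Ix.mul_left ha hf

theorem RD.Mx.zero {S : RD k v D} (hpos : ∃ γ ∈ S.Γ, 0 < γ) : S.Mx 0 :=
  RD.Ix.zero hpos

theorem RD.Mx.of_χ {S : RD k v D} {γ : 𝕂} (hγ : γ ∈ S.Γ) (h0 : 0 < γ) : S.Mx (S.χ γ) :=
  RD.Ix.of_χ hγ h0

theorem RD.Mx.of_y {S : RD k v D} (hpos : ∃ γ ∈ S.Γ, 0 < γ) (i : Fin D) : S.Mx (S.y i) :=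
  RD.Ix.gen hpos i

theorem RD.Lx.mem (h : Ctx0 k v n) {S : RD k v (d + 1)} {f : Ω} (hf : S.Lx f) :
    f ∈ S.H ∧ VPos v f :=
  RD.Ix.mem (Y := fun i : Fin d => S.y i.castSucc) h
    (fun i => ⟨S.y_mem_H i.castSucc, S.y_vpos i.castSucc⟩) hf

theorem RD.Lx.add {S : RD k v (d + 1)} {f g : Ω} (hf : S.Lx f) (hg : S.Lx g) : S.Lx (f + g) :=
  RD.Ix.add hf hg

theorem RD.Lx.mul_left {S : RD k v (d + 1)} {f a : Ω} (ha : a ∈ S.H) (hf : S.Lx f) :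
    S.Lx (a * f) :=
  RD.Ix.mul_left ha hf

theorem RD.Lx.zero {S : RD k v (d + 1)} (hpos : ∃ γ ∈ S.Γ, 0 < γ) : S.Lx 0 :=
  RD.Ix.zero hpos

theorem RD.Lx.of_χ {S : RD k v (d + 1)} {γ : 𝕂} (hγ : γ ∈ S.Γ) (h0 : 0 < γ) : S.Lx (S.χ γ) :=
  RD.Ix.of_χ hγ h0

theorem RD.Lx.of_y {S : RD k v (d + 1)} (hpos : ∃ γ ∈ S.Γ, 0 < γ) (i : Fin d) :
    S.Lx (S.y i.castSucc) :=
  RD.Ix.gen (Y := fun i : Fin d => S.y i.castSucc) hpos i

theorem RD.low_P_le (S : RD k v (d + 1)) : S.low.P ≤ S.P := by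
  refine Algebra.adjoin_mono ?_
  rintro f (hf | ⟨i, rfl⟩)
  · exact Or.inl hf
  · exact Or.inr ⟨i.castSucc, rfl⟩

theorem RD.low_H_le (S : RD k v (d + 1)) : S.low.H ≤ S.H :=
  hz_mono S.low_P_le

theorem RD.lx_of_mx {S : RD k v (d + 1)} {f : Ω} (hf : S.low.Mx f) : S.Lx f := by
  obtain ⟨γ, hγ, h0, a, ha, b, hb, rfl⟩ := hf
  exact ⟨γ, hγ, h0, a, S.low_H_le ha, b, fun i => S.low_H_le (hb i), rfl⟩

theorem RD.mx_iff {S : RD k v (d + 1)} {f : Ω} :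
    S.Mx f ↔ ∃ e, S.Lx e ∧ ∃ b ∈ S.H, f = e + S.z * b := by
  constructor
  · rintro ⟨γ, hγ, h0, a, ha, b, hb, rfl⟩
    refine ⟨_, ⟨γ, hγ, h0, a, ha, fun i => b i.castSucc, fun i => hb _, rfl⟩, b (Fin.last d),
      hb _, ?_⟩
    rw [Fin.sum_univ_castSucc, RD.z]
    ring
  · rintro ⟨e, ⟨γ, hγ, h0, a, ha, b, hb, rfl⟩, c, hc, rfl⟩
    refine ⟨γ, hγ, h0, a, ha, Fin.snoc (α := fun _ => Ω) b c, fun i => ?_, ?_⟩
    · refine Fin.lastCases ?_ (fun j => ?_) i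
      · rw [Fin.snoc_last]; exact hc
      · rw [Fin.snoc_castSucc]; exact hb j
    · rw [Fin.sum_univ_castSucc, Fin.snoc_last, RD.z]
      simp only [Fin.snoc_castSucc]
      ring

theorem RD.mx_of_lx {S : RD k v (d + 1)} {f : Ω} (hf : S.Lx f) : S.Mx f :=
  RD.mx_iff.2 ⟨f, hf, 0, zero_mem _, by ring⟩

/-- Taylor expansion of degree two with coefficients in a subalgebra. -/
theorem Gen.exists_binom {B : Subalgebra k Ω} (P : Polynomial Ω) (hP : ∀ i, P.coeff i ∈ B) {a c : Ω}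
    (ha : a ∈ B) (hc : c ∈ B) :
    ∃ q ∈ B, P.eval c = P.eval a + P.derivative.eval a * (c - a) + q * (c - a) ^ 2 := by
  obtain ⟨Q, rfl⟩ : ∃ Q : Polynomial B, Q.map (algebraMap B Ω) = P := by
    have h1 : P ∈ Polynomial.lifts (algebraMap B Ω) := by
      rw [Polynomial.lifts_iff_coeff_lifts]
      exact fun i => ⟨⟨P.coeff i, hP i⟩, rfl⟩
    exact (Polynomial.mem_lifts _).1 h1
  obtain ⟨q, hq⟩ := Polynomial.binomExpansion Q (⟨a, ha⟩ : B) ((⟨c, hc⟩ : B) - ⟨a, ha⟩)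
  refine ⟨(q : Ω), q.2, ?_⟩
  rw [add_sub_cancel] at hq
  have h2 := congrArg (algebraMap B Ω) hq
  simp only [map_add, map_mul, map_pow, map_sub] at h2
  have h3 : ∀ (R : Polynomial B) (x : B),
      algebraMap B Ω (R.eval x) = (R.map (algebraMap B Ω)).eval (algebraMap B Ω x) := by
    intro R x
    rw [Polynomial.eval_map, Polynomial.eval₂_at_apply]
  rw [h3, h3, h3] at h2
  rw [Polynomial.derivative_map]
  exact h2

theorem Gen.eval_mem_sub {B : Subalgebra k Ω} (P : Polynomial Ω) (hP : ∀ i, P.coeff i ∈ B) {a : Ω}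
    (ha : a ∈ B) : P.eval a ∈ B := by
  rw [Polynomial.eval_eq_sum_range]
  exact sum_mem fun i _ => mul_mem (hP i) (pow_mem ha i)

theorem Gen.derivative_coeff_mem {B : Subalgebra k Ω} (P : Polynomial Ω) (hP : ∀ i, P.coeff i ∈ B)
    (i : ℕ) : P.derivative.coeff i ∈ B := by
  rw [Polynomial.coeff_derivative]
  refine mul_mem (hP _) ?_
  exact_mod_cast B.natCast_mem (i + 1)

/-- The constants. -/
theorem Gen.const_zero (h : Ctx0 k v n) {c : k} (hc : VPos v (algebraMap k Ω c)) : c = 0 := by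
  by_contra h0
  have h1 : algebraMap k Ω c ≠ 0 := by
    rwa [Ne, map_eq_zero]
  have h2 := hc h1
  rw [h.triv c h0] at h2
  exact lt_irrefl _ h2

/-- The residue. -/
theorem Gen.exists_res (h : Ctx0 k v n) {a : Ω} (ha : v.Ge 0 a) :
    ∃ c : k, VPos v (a - algebraMap k Ω c) := by
  by_cases h0 : a = 0
  · exact ⟨0, by rw [h0, map_zero, sub_zero]; exact VPos.zero⟩
  rcases (ha h0).eq_or_lt with h1 | h1
  · obtain ⟨c, -, hc⟩ := h.res a h0 h1.symm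
    exact ⟨c, hc⟩
  · exact ⟨0, by rw [map_zero, sub_zero]; exact fun _ => h1⟩

/-- The elements of `S.H` which are constants modulo `(χ(> 0), y) S.H`. -/
def RD.cA (S : RD k v D) (hpos : ∃ γ ∈ S.Γ, 0 < γ) : Subalgebra k Ω where
  carrier := {f | f ∈ S.H ∧ ∃ c : k, S.Mx (f - algebraMap k Ω c)}
  mul_mem' := by
    rintro f g ⟨hf, c, hc⟩ ⟨hg, e, he⟩
    refine ⟨mul_mem hf hg, c * e, ?_⟩
    have h1 : f * g - algebraMap k Ω (c * e) =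
        f * (g - algebraMap k Ω e) + algebraMap k Ω e * (f - algebraMap k Ω c) := by
      rw [map_mul]; ring
    rw [h1]
    exact (he.mul_left hf).add (hc.mul_left (S.H.algebraMap_mem e))
  add_mem' := by
    rintro f g ⟨hf, c, hc⟩ ⟨hg, e, he⟩
    refine ⟨add_mem hf hg, c + e, ?_⟩
    have h1 : f + g - algebraMap k Ω (c + e) =
        (f - algebraMap k Ω c) + (g - algebraMap k Ω e) := by
      rw [map_add]; ring
    rw [h1]
    exact hc.add he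
  algebraMap_mem' := fun c => ⟨S.H.algebraMap_mem c, c, by rw [sub_self]; exact RD.Mx.zero hpos⟩

theorem RD.mem_cA (S : RD k v D) (hpos : ∃ γ ∈ S.Γ, 0 < γ) {f : Ω} :
    f ∈ S.cA hpos ↔ f ∈ S.H ∧ ∃ c : k, S.Mx (f - algebraMap k Ω c) := Iff.rfl

theorem RD.P_le_cA (S : RD k v D) (hpos : ∃ γ ∈ S.Γ, 0 < γ) : S.P ≤ S.cA hpos := by
  refine Algebra.adjoin_le ?_
  rintro f (⟨γ, ⟨hγ, h0⟩, rfl⟩ | ⟨i, rfl⟩)
  · refine ⟨S.χ_mem_H hγ h0, ?_⟩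
    rcases h0.eq_or_lt with rfl | h1
    · refine ⟨1, ?_⟩
      rw [S.χ_zero, map_one, sub_self]
      exact RD.Mx.zero hpos
    · refine ⟨0, ?_⟩
      rw [map_zero, sub_zero]
      exact RD.Mx.of_χ hγ h1
  · refine ⟨S.y_mem_H i, 0, ?_⟩
    rw [map_zero, sub_zero]
    exact RD.Mx.of_y hpos i

theorem RD.cA_hcl (h : Ctx0 k v n) (S : RD k v D) (hpos : ∃ γ ∈ S.Γ, 0 < γ) :
    HCl v (S.cA hpos) where
  inv := by
    rintro f ⟨hf, c, hc⟩ hf0 hvf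
    have hinv := S.hcl.inv f hf hf0 hvf
    have hc0 : c ≠ 0 := by
      rintro rfl
      rw [map_zero, sub_zero] at hc
      have := (hc.mem h).2 hf0
      rw [hvf] at this
      exact lt_irrefl _ this
    refine ⟨hinv, c⁻¹, ?_⟩
    have hc1 : algebraMap k Ω c ≠ 0 := by rwa [Ne, map_eq_zero]
    have h1 : f⁻¹ - algebraMap k Ω c⁻¹ =
        (algebraMap k Ω (-c⁻¹) * f⁻¹) * (f - algebraMap k Ω c) := by
      rw [map_neg, map_inv₀]
      field_simp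
      ring
    rw [h1]
    exact hc.mul_left (mul_mem (S.H.algebraMap_mem _) hinv)
  root := by
    intro P hP hcoef a ha h0 h1 h2
    have hH : ∀ i, P.coeff i ∈ S.H := fun i => (hcoef i).1
    have haH : a ∈ S.H := S.hcl.root P hP hH a ha h0 h1 h2
    refine ⟨haH, ?_⟩
    obtain ⟨c, hc⟩ := Gen.exists_res h ha
    refine ⟨c, ?_⟩
    obtain ⟨q, hq, hexp⟩ := Gen.exists_binom P hH haH (S.H.algebraMap_mem c)
    rw [h0, zero_add] at hexp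
    have hd : P.derivative.eval a ∈ S.H := Gen.eval_mem_sub _ (Gen.derivative_coeff_mem P hH) haH
    have hca : VPos v (algebraMap k Ω c - a) := by
      have := hc.neg
      rwa [neg_sub] at this
    obtain ⟨hU0, hU⟩ := Pool.Agent.TAO.val_add_vpos h1 h2
      (VPos.mul' (S.nonneg h q hq) hca)
    set U := P.derivative.eval a + q * (algebraMap k Ω c - a) with hUdef
    have hUH : U ∈ S.H :=
      add_mem hd (mul_mem hq (sub_mem (S.H.algebraMap_mem c) haH))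
    have hUinv := S.hcl.inv U hUH hU0 hU
    have hexp' : P.eval (algebraMap k Ω c) = (algebraMap k Ω c - a) * U := by
      rw [hexp, hUdef]; ring
    obtain ⟨hPc, e, he⟩ := Gen.eval_mem_sub (B := S.cA hpos) P hcoef
      ((S.cA hpos).algebraMap_mem c)
    have hvP : VPos v (P.eval (algebraMap k Ω c)) := by
      rw [hexp']
      exact VPos.mul hca (S.nonneg h U hUH)
    have he0 : e = 0 := by
      refine Gen.const_zero h ?_
      have h5 := hvP.sub (he.mem h).2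
      rwa [sub_sub_cancel] at h5
    rw [he0, map_zero, sub_zero, hexp'] at he
    have h6 : a - algebraMap k Ω c = (-U⁻¹) * ((algebraMap k Ω c - a) * U) := by
      field_simp
      ring
    rw [h6]
    exact he.mul_left (neg_mem hUinv)

/-- `H = k + (χ(> 0), y) H` -/
theorem RD.exists_mx (h : Ctx0 k v n) (S : RD k v D) (hpos : ∃ γ ∈ S.Γ, 0 < γ)
    {f : Ω} (hf : f ∈ S.H) : ∃ c : k, S.Mx (f - algebraMap k Ω c) :=
  (hz_le (S.P_le_cA hpos) (S.cA_hcl h hpos) hf).2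

theorem RD.mx_of_vpos (h : Ctx0 k v n) (S : RD k v D) (hpos : ∃ γ ∈ S.Γ, 0 < γ)
    {f : Ω} (hf : f ∈ S.H) (h0 : VPos v f) : S.Mx f := by
  obtain ⟨c, hc⟩ := S.exists_mx h hpos hf
  have h1 : c = 0 := by
    refine Gen.const_zero h ?_
    have h5 := h0.sub (hc.mem h).2
    rwa [sub_sub_cancel] at h5
  rwa [h1, map_zero, sub_zero] at hc

end Gen

end Pool.Agent.ALLY
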