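import Pool.Agent.Lib.ALLY.Defs
import Pool.Agent.Lib.TAO.Cone

/-!
# PROJECT ALL, block Y, row W2: `locv S.P` is integrally closed
-/

set_option autoImplicit false

open Polynomial
open scoped Matrix

namespace Pool.Agent.ALLY

open Pool.Agent.TAO (OVal VPos Ctx0 CtxR mx mx_zero mx_ne mx_add mx_single v_mx mx_mx perron_mx
  Inv2 mx_back)

universe u w

variable {k Ω : Type u} [Field k] [Field Ω] [Algebra k Ω] {𝕂 : Type w} [Field 𝕂] [LinearOrder 𝕂]
  [IsStrictOrderedRing 𝕂] {v : OVal 𝕂 Ω} {D n r : ℕ}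

/-- the localisation of `A` at the centre of `v` -/
def InLoc (v : OVal 𝕂 Ω) (A : Subalgebra k Ω) (f : Ω) : Prop :=
  ∃ a ∈ A, ∃ b ∈ A, b ≠ 0 ∧ v b = 0 ∧ f = a / b

namespace W2

theorem chi_zero (S : RD k v D) : S.χ 0 = 1 := by
  have h1 := S.χ_add 0 S.Γ.zero_mem 0 S.Γ.zero_mem
  rw [add_zero] at h1
  have h2 := S.χ_ne 0 S.Γ.zero_mem
  exact (mul_right_cancel₀ h2 (by rw [← h1, one_mul])).symm

theorem chi_zsmul (S : RD k v D) {γ : 𝕂} (hγ : γ ∈ S.Γ) (m : ℤ) :
    S.χ (m • γ) = S.χ γ ^ m := by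
  have hn : ∀ m : ℕ, S.χ (m • γ) = S.χ γ ^ m := by
    intro m
    induction m with
    | zero => rw [zero_smul, chi_zero, pow_zero]
    | succ m ih => rw [succ_nsmul, S.χ_add _ (S.Γ.nsmul_mem hγ m) _ hγ, ih, pow_succ]
  rcases m with m | m
  · rw [Int.ofNat_eq_natCast, natCast_zsmul, zpow_natCast, hn]
  · rw [zpow_negSucc, negSucc_zsmul]
    refine eq_inv_of_mul_eq_one_left ?_
    rw [← hn (m + 1), ← S.χ_add _ (S.Γ.neg_mem (S.Γ.nsmul_mem hγ _)) _ (S.Γ.nsmul_mem hγ _),
      neg_add_cancel, chi_zero]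

theorem chi_sum (S : RD k v D) {ι : Type*} (s : Finset ι) (f : ι → 𝕂) (hf : ∀ i ∈ s, f i ∈ S.Γ) :
    S.χ (∑ i ∈ s, f i) = ∏ i ∈ s, S.χ (f i) := by
  classical
  induction s using Finset.induction_on with
  | empty => rw [Finset.sum_empty, Finset.prod_empty, chi_zero]
  | insert a s ha ih =>
    rw [Finset.sum_insert ha, Finset.prod_insert ha,
      S.χ_add _ (hf a (Finset.mem_insert_self a s)) _
        (S.Γ.sum_mem fun i hi => hf i (Finset.mem_insert_of_mem hi)),
      ih fun i hi => hf i (Finset.mem_insert_of_mem hi)]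

/-- Coordinates of the data `S`: `x i = χ(γ i)`, `γ` a basis of `Γ`. -/
structure Co (S : RD k v D) (x : Fin r → Ω) : Prop where
  ne : ∀ i, x i ≠ 0
  ind : LinearIndependent ℚ fun i => v (x i)
  mem : ∀ l : Fin r → ℤ, v (mx x l) ∈ S.Γ
  chi : ∀ l : Fin r → ℤ, S.χ (v (mx x l)) = mx x l
  surj : ∀ γ ∈ S.Γ, ∃ l, γ = v (mx x l)

theorem exists_co (hC : CtxR k v n r) (S : RD k v D) : ∃ x : Fin r → Ω, Co S x := by
  classical
  have hfin : Module.Finite ℤ S.Γ := by
    rw [Module.Finite.iff_addGroup_fg]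
    exact (AddGroup.fg_iff_addSubgroup_fg S.Γ).2 S.fg
  have hfree : Module.Free ℤ S.Γ := Module.free_of_finite_type_torsion_free'
  -- the rank
  let m := Module.finrank ℤ S.Γ
  let b : Module.Basis (Fin m) ℤ S.Γ := Module.finBasis ℤ S.Γ
  have hbZ : LinearIndependent ℤ fun i => (b i : 𝕂) := by
    have h1 := b.linearIndependent.map' (S.Γ.subtype.toIntLinearMap)
      (LinearMap.ker_eq_bot.2 Subtype.val_injective)
    exact h1
  have hbQ : LinearIndependent ℚ fun i => (b i : 𝕂) :=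
    (LinearIndependent.iff_fractionRing ℤ ℚ).1 hbZ
  have hsum : ∀ (γ : 𝕂) (hγ : γ ∈ S.Γ), γ = ∑ i, (b.repr ⟨γ, hγ⟩ i : ℤ) • (b i : 𝕂) := by
    intro γ hγ
    have h1 := congrArg (S.Γ.subtype) (b.sum_repr ⟨γ, hγ⟩)
    rw [map_sum] at h1
    refine (h1.symm.trans (Finset.sum_congr rfl fun i _ => ?_))
    rw [map_zsmul]
    rfl
  obtain ⟨X, hX0, hXi, hX⟩ := hC.rank
  have hspan : Submodule.span ℚ (Set.range fun i => (b i : 𝕂)) =
      Submodule.span ℚ (Set.range fun i => v (X i)) := by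
    apply le_antisymm
    · rw [Submodule.span_le]
      rintro _ ⟨i, rfl⟩
      have h1 := hX (S.χ (b i : 𝕂)) (S.χ_ne _ (b i).2)
      rw [S.χ_val _ (b i).2] at h1
      exact h1
    · rw [Submodule.span_le]
      rintro _ ⟨i, rfl⟩
      obtain ⟨e, he, he'⟩ := S.full (X i) (hX0 i)
      have h1 : (e : 𝕂) * v (X i) ∈ Submodule.span ℚ (Set.range fun i => (b i : 𝕂)) := by
        rw [hsum _ he']
        refine Submodule.sum_mem _ fun j _ => ?_
        have h2 : ∀ c : ℤ, c • (b j : 𝕂) = (c : ℚ) • (b j : 𝕂) := by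
          intro c
          rw [zsmul_eq_mul, Rat.smul_def]
          push_cast
          rfl
        rw [h2]
        exact Submodule.smul_mem _ _ (Submodule.subset_span ⟨j, rfl⟩)
      have h3 : v (X i) = ((e : ℚ)⁻¹) • ((e : 𝕂) * v (X i)) := by
        have he0 : (e : 𝕂) ≠ 0 := by exact_mod_cast he.ne'
        rw [Rat.smul_def]
        push_cast
        rw [inv_mul_cancel_left₀ he0]
      have h4 : v (X i) ∈ Submodule.span ℚ (Set.range fun i => (b i : 𝕂)) := by
        rw [h3]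
        exact Submodule.smul_mem _ _ h1
      exact h4
  have hmr : m = r := by
    have h1 := finrank_span_eq_card hbQ
    have h2 := finrank_span_eq_card hXi
    rw [hspan, h2] at h1
    simpa using h1.symm
  obtain rfl := hmr
  have h0 : ∀ i, S.χ (b i : 𝕂) ≠ 0 := fun i => S.χ_ne _ (b i).2
  have hl : ∀ l : Fin m → ℤ, v (mx (fun i => S.χ (b i : 𝕂)) l) = ∑ i, l i • (b i : 𝕂) := by
    intro l
    rw [v_mx h0]
    refine Finset.sum_congr rfl fun i _ => ?_
    rw [S.χ_val _ (b i).2, zsmul_eq_mul]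
  have hmem : ∀ (l : Fin m → ℤ) i, l i • (b i : 𝕂) ∈ S.Γ := fun l i => S.Γ.zsmul_mem (b i).2 _
  refine ⟨fun i => S.χ (b i : 𝕂), h0, ?_, ?_, ?_, ?_⟩
  · have h1 : (fun i => v (S.χ (b i : 𝕂))) = fun i => (b i : 𝕂) :=
      funext fun i => S.χ_val _ (b i).2
    rw [h1]
    exact hbQ
  · intro l
    rw [hl]
    exact S.Γ.sum_mem fun i _ => hmem l i
  · intro l
    rw [hl, chi_sum _ _ _ fun i _ => hmem l i]
    exact Finset.prod_congr rfl fun i _ => chi_zsmul S (b i).2 _
  · intro γ hγ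
    refine ⟨fun i => b.repr ⟨γ, hγ⟩ i, ?_⟩
    rw [hl]
    exact hsum γ hγ

/-- The polynomial ring `k[x, y]`. -/
def Pl (k : Type u) {Ω : Type u} [Field k] [Field Ω] [Algebra k Ω] {r D : ℕ} (x : Fin r → Ω)
    (y : Fin D → Ω) : Subalgebra k Ω := Algebra.adjoin k (Set.range (Sum.elim x y))

theorem mx_mem_Pl {x : Fin r → Ω} {y : Fin D → Ω} {l : Fin r → ℤ} (hl : ∀ i, 0 ≤ l i) :
    mx x l ∈ Pl k x y := by
  refine prod_mem fun i _ => ?_
  obtain ⟨m, hm⟩ := Int.eq_ofNat_of_zero_le (hl i)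
  rw [hm, zpow_natCast]
  have h1 : x i ∈ Pl k x y := Algebra.subset_adjoin ⟨Sum.inl i, rfl⟩
  exact pow_mem h1 m

theorem Co.change {S : RD k v D} {x : Fin r → Ω} (hx : Co S x) {U V : Matrix (Fin r) (Fin r) ℤ}
    (hUV : Inv2 U V) : Co S (fun j => mx x (V j)) where
  ne := fun j => mx_ne hx.ne _
  ind := by
    -- `v x = U · v x'`
    have hZ : LinearIndependent ℤ fun i => v (x i) :=
      (LinearIndependent.iff_fractionRing ℤ ℚ).2 hx.ind
    refine (LinearIndependent.iff_fractionRing ℤ ℚ).1 ?_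
    rw [Fintype.linearIndependent_iff] at hZ ⊢
    intro c hc
    have h1 : ∑ j, c j • v (mx x (V j)) = ∑ i, (c ᵥ* V) i • v (x i) := by
      have h2 := v_mx (v := v) (x := fun j => mx x (V j)) (fun j => mx_ne hx.ne _) c
      rw [mx_mx x V c hx.ne, v_mx hx.ne] at h2
      simp only [zsmul_eq_mul]
      exact h2.symm
    rw [h1] at hc
    have h3 : c ᵥ* V = 0 := funext fun i => hZ _ hc i
    have h4 : c = (c ᵥ* V) ᵥ* U := by
      rw [Matrix.vecMul_vecMul, hUV.vu, Matrix.vecMul_one]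
    rw [h3, Matrix.zero_vecMul] at h4
    intro i
    rw [h4]
    rfl
  mem := fun l => by
    rw [mx_mx x V l hx.ne]
    exact hx.mem _
  chi := fun l => by
    rw [mx_mx x V l hx.ne]
    exact hx.chi _
  surj := fun γ hγ => by
    obtain ⟨l, hl⟩ := hx.surj γ hγ
    exact ⟨l ᵥ* U, by rw [mx_back hx.ne hUV]; exact hl⟩

/-- Finitely many elements of `S.P` lie in one polynomial ring. -/
theorem exists_Pl (hC : CtxR k v n r) (S : RD k v D) (A : Finset Ω) (hA : ∀ a ∈ A, a ∈ S.P) :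
    ∃ x : Fin r → Ω, Co S x ∧ (∀ i, 0 < v (x i)) ∧ ∀ a ∈ A, a ∈ Pl k x S.y := by
  classical
  obtain ⟨x, hx⟩ := exists_co hC S
  -- the exponents
  have hN : ∀ a ∈ S.P, ∃ N : Finset (Fin r → ℤ), (∀ l ∈ N, 0 < v (mx x l)) ∧
      a ∈ Algebra.adjoin k (mx x '' (N : Set (Fin r → ℤ)) ∪ Set.range S.y) := by
    have hmono : ∀ (N N' : Finset (Fin r → ℤ)), N ⊆ N' →
        Algebra.adjoin k (mx x '' (N : Set (Fin r → ℤ)) ∪ Set.range S.y) ≤
        Algebra.adjoin k (mx x '' (N' : Set (Fin r → ℤ)) ∪ Set.range S.y) := fun N N' h =>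
      Algebra.adjoin_mono (Set.union_subset_union_left _
        (Set.image_mono (Finset.coe_subset.2 h)))
    intro a ha
    rw [RD.P] at ha
    induction ha using Algebra.adjoin_induction with
    | mem g hg =>
      rcases hg with ⟨γ, ⟨hγ, h0⟩, rfl⟩ | hg
      · obtain ⟨l, rfl⟩ := hx.surj γ hγ
        rw [hx.chi]
        rcases h0.eq_or_lt with h0 | h0
        · refine ⟨∅, by simp, ?_⟩
          have h1 : l = 0 := by
            have hZ : LinearIndependent ℤ fun i => v (x i) :=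
              (LinearIndependent.iff_fractionRing ℤ ℚ).2 hx.ind
            rw [Fintype.linearIndependent_iff] at hZ
            rw [v_mx hx.ne] at h0
            funext i
            refine hZ l ?_ i
            rw [h0]
            exact Finset.sum_congr rfl fun i _ => by rw [zsmul_eq_mul]
          rw [h1, mx_zero]
          exact one_mem _
        · exact ⟨{l}, by simpa using h0, Algebra.subset_adjoin (Or.inl ⟨l, by simp, rfl⟩)⟩
      · exact ⟨∅, by simp, Algebra.subset_adjoin (Or.inr hg)⟩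
    | algebraMap c => exact ⟨∅, by simp, Subalgebra.algebraMap_mem _ c⟩
    | add a b _ _ iha ihb =>
      obtain ⟨N, hN, h1⟩ := iha
      obtain ⟨N', hN', h2⟩ := ihb
      refine ⟨N ∪ N', fun l hl => ?_, add_mem (hmono N _ Finset.subset_union_left h1)
        (hmono N' _ Finset.subset_union_right h2)⟩
      rcases Finset.mem_union.1 hl with h | h
      · exact hN l h
      · exact hN' l h
    | mul a b _ _ iha ihb =>
      obtain ⟨N, hN, h1⟩ := iha
      obtain ⟨N', hN', h2⟩ := ihb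
      refine ⟨N ∪ N', fun l hl => ?_, mul_mem (hmono N _ Finset.subset_union_left h1)
        (hmono N' _ Finset.subset_union_right h2)⟩
      rcases Finset.mem_union.1 hl with h | h
      · exact hN l h
      · exact hN' l h
  choose! N hNp hNm using hN
  obtain ⟨U, V, hUV, hpos, hnn⟩ := perron_mx hx.ne hx.ind (A.biUnion N) (by
    intro l hl
    obtain ⟨a, ha, hl⟩ := Finset.mem_biUnion.1 hl
    exact hNp a (hA a ha) l hl)
  refine ⟨fun j => mx x (V j), hx.change hUV, hpos, fun a ha => ?_⟩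
  refine (Algebra.adjoin_le ?_ :
    Algebra.adjoin k (mx x '' (N a : Set (Fin r → ℤ)) ∪ Set.range S.y) ≤ _) (hNm a (hA a ha))
  rintro _ (⟨l, hl, rfl⟩ | ⟨i, rfl⟩)
  · rw [← mx_back hx.ne hUV l]
    exact mx_mem_Pl (hnn l (Finset.mem_biUnion.2 ⟨a, ha, hl⟩))
  · exact Algebra.subset_adjoin ⟨Sum.inr i, rfl⟩

theorem Pl_le {S : RD k v D} {x : Fin r → Ω} (hx : Co S x) (hpos : ∀ i, 0 < v (x i)) :
    Pl k x S.y ≤ S.P := by
  refine Algebra.adjoin_le ?_
  rintro _ ⟨i | j, rfl⟩
  · refine Algebra.subset_adjoin (Or.inl ⟨v (x i), ⟨?_, (hpos i).le⟩, ?_⟩)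
    · have := hx.mem (Pi.single i 1)
      rwa [mx_single, zpow_one] at this
    · have := hx.chi (Pi.single i 1)
      rwa [mx_single, zpow_one] at this
  · exact Algebra.subset_adjoin (Or.inr ⟨j, rfl⟩)

theorem K_eq {S : RD k v D} {x : Fin r → Ω} (hx : Co S x) :
    S.K = IntermediateField.adjoin k (Set.range (Sum.elim x S.y)) := by
  apply le_antisymm
  · rw [RD.K, IntermediateField.adjoin_le_iff]
    rintro _ (⟨γ, hγ, rfl⟩ | ⟨j, rfl⟩)
    · obtain ⟨l, rfl⟩ := hx.surj γ hγ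
      rw [hx.chi]
      refine prod_mem fun i _ => ?_
      have h1 : x i ∈ IntermediateField.adjoin k (Set.range (Sum.elim x S.y)) :=
        IntermediateField.subset_adjoin _ _ ⟨Sum.inl i, rfl⟩
      exact zpow_mem h1 _
    · exact IntermediateField.subset_adjoin _ _ ⟨Sum.inr j, rfl⟩
  · rw [RD.K, IntermediateField.adjoin_le_iff]
    rintro _ ⟨i | j, rfl⟩
    · have h1 := hx.mem (Pi.single i 1)
      have h2 := hx.chi (Pi.single i 1)
      rw [mx_single, zpow_one] at h1 h2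
      exact IntermediateField.subset_adjoin _ _ (Or.inl ⟨v (x i), h1, h2⟩)
    · exact IntermediateField.subset_adjoin _ _ (Or.inr ⟨j, rfl⟩)

/-- The coordinates are algebraically independent. -/
theorem algInd {S : RD k v D} (hS : Algebra.trdeg k S.K = r + D) {x : Fin r → Ω} (hx : Co S x) :
    AlgebraicIndependent k (Sum.elim x S.y) := by
  classical
  have hK := K_eq hx
  have hu : ∀ i, Sum.elim x S.y i ∈ S.K := fun i => by
    rw [hK]
    exact IntermediateField.subset_adjoin _ _ ⟨i, rfl⟩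
  let u : Fin r ⊕ Fin D → S.K := fun i => ⟨Sum.elim x S.y i, hu i⟩
  have hrange : (Set.range (Sum.elim x S.y)) = S.K.val '' (Set.range u) := by
    rw [← Set.range_comp]
    rfl
  have hlift : ∀ a ∈ Algebra.adjoin k (Set.range (Sum.elim x S.y)),
      ∃ a' ∈ Algebra.adjoin k (Set.range u), (a' : Ω) = a := by
    intro a ha
    rw [hrange, ← AlgHom.map_adjoin] at ha
    obtain ⟨a', ha', rfl⟩ := ha
    exact ⟨a', ha', rfl⟩
  have halg : Algebra.IsAlgebraic (Algebra.adjoin k (Set.range u)) S.K := by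
    refine ⟨fun g => ?_⟩
    have hg : (g : Ω) ∈ IntermediateField.adjoin k (Set.range (Sum.elim x S.y)) := by
      rw [← hK]
      exact g.2
    obtain ⟨a, ha, b, hb, hab⟩ := IntermediateField.mem_adjoin_iff_div.1 hg
    obtain ⟨a', ha', h1⟩ := hlift a ha
    obtain ⟨b', hb', h2⟩ := hlift b hb
    have h3 : g = a' * b'⁻¹ := by
      apply Subtype.ext
      push_cast
      rw [h1, h2, hab, div_eq_mul_inv]
    rw [h3]
    have h4 : IsAlgebraic (Algebra.adjoin k (Set.range u)) a' :=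
      isAlgebraic_algebraMap (⟨a', ha'⟩ : Algebra.adjoin k (Set.range u))
    have h5 : IsAlgebraic (Algebra.adjoin k (Set.range u)) b' :=
      isAlgebraic_algebraMap (⟨b', hb'⟩ : Algebra.adjoin k (Set.range u))
    exact h4.mul h5.inv
  have hle : Cardinal.lift.{u} (Cardinal.mk (Fin r ⊕ Fin D)) ≤
      Cardinal.lift.{0} (Algebra.trdeg k S.K) := by
    rw [hS]
    simp
  have h1 := (Algebra.IsAlgebraic.isTranscendenceBasis_of_lift_le_trdeg_of_finite k u hle).1
  exact h1.map' (f := S.K.val) Subtype.val_injective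

theorem isIntegrallyClosed_Pl {x : Fin r → Ω} {y : Fin D → Ω}
    (hi : AlgebraicIndependent k (Sum.elim x y)) : IsIntegrallyClosed (Pl k x y) :=
  IsIntegrallyClosed.of_equiv (hi.aevalEquiv.toRingEquiv)

/-- Integrally closed subrings of a field. -/
theorem mem_of_integral (R : Subalgebra k Ω) [IsIntegrallyClosed R] {f a b : Ω} (ha : a ∈ R)
    (hb : b ∈ R) (hf : f = a / b) (hint : IsIntegral R f) : f ∈ R := by
  have hinj : Function.Injective (algebraMap R Ω) := Subtype.val_injective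
  let φ : FractionRing R →ₐ[R] Ω := IsFractionRing.liftAlgHom (g := Algebra.ofId R Ω) hinj
  let g : FractionRing R := algebraMap R _ ⟨a, ha⟩ / algebraMap R _ ⟨b, hb⟩
  have hg : φ g = f := by
    change φ (algebraMap R _ ⟨a, ha⟩ / algebraMap R _ ⟨b, hb⟩) = f
    rw [map_div₀, AlgHom.commutes, AlgHom.commutes, hf]
    rfl
  rw [← hg] at hint
  have h1 : IsIntegral R g := (isIntegral_algHom_iff φ φ.toRingHom.injective).1 hint
  obtain ⟨c, hc⟩ := IsIntegrallyClosed.isIntegral_iff.1 h1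
  rw [← hg, ← hc, AlgHom.commutes]
  exact c.2

end W2

open W2 in
/-- **W2**: `locv S.P` is integrally closed. -/
theorem RD.inLoc_of_integral {r : ℕ} (h : CtxR k v n r) (S : RD k v D)
    (hS : Algebra.trdeg k S.K = r + D) {f : Ω} (hf : f ∈ S.K)
    (hint : ∃ P : Polynomial Ω, P.Monic ∧ (∀ i, InLoc v S.P (P.coeff i)) ∧ P.eval f = 0) :
    InLoc v S.P f := by
  classical
  obtain ⟨P, hP, hc, hf0⟩ := hint
  choose a ha b hb hb0 hvb hab using hc
  -- `f` is a quotient of elements of `S.P`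
  obtain ⟨x₀, hx₀, hpos₀, -⟩ := exists_Pl h S ∅ (by simp)
  have hf' := hf
  rw [K_eq hx₀] at hf'
  obtain ⟨s, hs, t, ht, hst⟩ := IntermediateField.mem_adjoin_iff_div.1 hf'
  have hs' : s ∈ S.P := Pl_le hx₀ hpos₀ hs
  have ht' : t ∈ S.P := Pl_le hx₀ hpos₀ ht
  obtain ⟨x, hx, hpos, hA⟩ := exists_Pl h S
    ({s, t} ∪ ((Finset.range (P.natDegree + 1)).image a ∪
      (Finset.range (P.natDegree + 1)).image b)) (by
    intro c hc
    simp only [Finset.mem_union, Finset.mem_insert, Finset.mem_singleton, Finset.mem_image] at hc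
    rcases hc with (rfl | rfl) | (⟨i, -, rfl⟩ | ⟨i, -, rfl⟩)
    · exact hs'
    · exact ht'
    · exact ha i
    · exact hb i)
  have hR := isIntegrallyClosed_Pl (algInd hS hx)
  have hRP := Pl_le hx hpos
  have hsR : s ∈ Pl k x S.y := hA s (by simp)
  have htR : t ∈ Pl k x S.y := hA t (by simp)
  have haR : ∀ i ≤ P.natDegree, a i ∈ Pl k x S.y := fun i hi => hA _ (by
    refine Finset.mem_union_right _ (Finset.mem_union_left _ (Finset.mem_image_of_mem _ ?_))
    exact Finset.mem_range.2 (by omega))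
  have hbR : ∀ i ≤ P.natDegree, b i ∈ Pl k x S.y := fun i hi => hA _ (by
    refine Finset.mem_union_right _ (Finset.mem_union_right _ (Finset.mem_image_of_mem _ ?_))
    exact Finset.mem_range.2 (by omega))
  -- the common denominator
  set d : Ω := ∏ i ∈ Finset.range (P.natDegree + 1), b i with hd
  have hd0 : d ≠ 0 := Finset.prod_ne_zero_iff.2 fun i _ => hb0 i
  have hdv : v d = 0 := by
    rw [hd, v.map_prod _ _ fun i _ => hb0 i]
    exact Finset.sum_eq_zero fun i _ => hvb i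
  have hdR : d ∈ Pl k x S.y := prod_mem fun i hi => hbR i (by
    have := Finset.mem_range.1 hi
    omega)
  have hcd : ∀ i ≤ P.natDegree, P.coeff i * d ∈ Pl k x S.y := by
    intro i hi
    have hmem : i ∈ Finset.range (P.natDegree + 1) := Finset.mem_range.2 (by omega)
    have h1 : d = b i * ∏ j ∈ (Finset.range (P.natDegree + 1)).erase i, b j :=
      (Finset.mul_prod_erase _ _ hmem).symm
    have h2 : P.coeff i * d = a i * ∏ j ∈ (Finset.range (P.natDegree + 1)).erase i, b j := by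
      rw [hab i, h1, ← mul_assoc, div_mul_cancel₀ _ (hb0 i)]
    rw [h2]
    refine mul_mem (haR i hi) (prod_mem fun j hj => hbR j ?_)
    have := Finset.mem_range.1 (Finset.mem_of_mem_erase hj)
    omega
  -- `d f` is integral
  have hscal : (P.scaleRoots d) ∈ Polynomial.lifts (algebraMap (Pl k x S.y) Ω) := by
    rw [Polynomial.lifts_iff_coeff_lifts]
    intro i
    rw [coeff_scaleRoots]
    rcases lt_trichotomy i P.natDegree with h1 | h1 | h1
    · obtain ⟨e, he⟩ : ∃ e, P.natDegree - i = e + 1 := ⟨P.natDegree - i - 1, by omega⟩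
      rw [he, pow_succ', ← mul_assoc]
      exact ⟨⟨_, mul_mem (hcd i h1.le) (pow_mem hdR e)⟩, rfl⟩
    · rw [h1, Nat.sub_self, pow_zero, mul_one, hP.coeff_natDegree]
      exact ⟨1, map_one _⟩
    · rw [coeff_eq_zero_of_natDegree_lt h1, zero_mul]
      exact ⟨0, map_zero _⟩
  obtain ⟨q, hq, -, hqm⟩ := Polynomial.lifts_and_natDegree_eq_and_monic hscal
    ((monic_scaleRoots_iff d).2 hP)
  have hint : IsIntegral (Pl k x S.y) (d * f) := by
    refine ⟨q, hqm, ?_⟩
    rw [← Polynomial.eval_map, hq]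
    have h1 := scaleRoots_eval₂_mul (p := P) (RingHom.id Ω) f d
    rw [RingHom.id_apply, eval₂_id, eval₂_id, hf0, mul_zero] at h1
    exact h1
  have hmem : d * f ∈ Pl k x S.y :=
    mem_of_integral _ (mul_mem hdR hsR) htR (by rw [hst, mul_div_assoc]) hint
  exact ⟨d * f, hRP hmem, d, hRP hdR, hd0, hdv, by rw [mul_div_cancel_left₀ _ hd0]⟩

end Pool.Agent.ALLY
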