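import Pool.Agent.Lib.ALLY_h64.Str
import Pool.Agent.Lib.ALLY.Nrm
import Pool.Agent.Lib.ALLY.Gen
import Pool.Agent.Lib.LU1_h15.GalSep

/-!
# PROJECT ALL, block Y, row W3: the integral closure of `S.P` in a finite extension of `S.K` inside
the field of fractions of the henselization is a frame ring with the parameters of `S`
-/

set_option autoImplicit false

open Polynomial

namespace Pool.Agent.ALLY

open Pool.Agent.TAO (OVal VPos Ctx0 CtxR)
open Pool.Agent.ALLh64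
open Pool.Agent.ALLO (locv icl ICl)
open Pool.Agent.LU1 (FracIs fixO mem_fixO)

universe u w

variable {k Ω : Type u} [Field k] [Field Ω] [Algebra k Ω] {𝕂 : Type w} [Field 𝕂] [LinearOrder 𝕂]
  [IsStrictOrderedRing 𝕂] {v : OVal 𝕂 Ω} {n r D : ℕ}

theorem inLoc_iff {A : Subalgebra k Ω} {f : Ω} : InLoc v A f ↔ f ∈ locv v A := Iff.rfl

theorem ctx_res (h : Ctx0 k v n) (g : Ω) (hg : v.Ge 0 g) :
    ∃ c : k, VPos v (g - algebraMap k Ω c) := by
  rcases vpos_or hg with h1 | ⟨h1, h2⟩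
  · exact ⟨0, by rw [map_zero, sub_zero]; exact h1⟩
  · obtain ⟨c, -, hc⟩ := h.res g h1 h2
    exact ⟨c, hc⟩

theorem RD.P_mem_K (S : RD k v D) {a : Ω} (ha : a ∈ S.P) : a ∈ S.K := by
  have h1 : S.P ≤ S.K.toSubalgebra := by
    rw [RD.P, Algebra.adjoin_le_iff]
    rintro a (⟨γ, ⟨hγ, -⟩, rfl⟩ | ⟨i, rfl⟩)
    · exact IntermediateField.subset_adjoin _ _ (Or.inl ⟨γ, hγ, rfl⟩)
    · exact IntermediateField.subset_adjoin _ _ (Or.inr ⟨i, rfl⟩)
  exact h1 ha

/-- `locv v S.P` is a local ring integrally closed in `S.K`. -/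
theorem RD.base (h : CtxR k v n r) (S : RD k v D) (hS : Algebra.trdeg k S.K = r + D) :
    Base v (locv v S.P) S.K where
  le := by
    rintro f ⟨a, ha, b, hb, -, -, rfl⟩
    exact S.K.div_mem (S.P_mem_K ha) (S.P_mem_K hb)
  nonneg := fun f hf => locv_nonneg (fun g hg => S.nonneg h.toCtx0 g (S.P_le_H hg)) hf
  loc := fun f hf h0 hv => locv_inv hf h0 hv
  normal := fun f hf hint => by
    obtain ⟨P, hm, hP, h0⟩ := exists_coeff_of_isIntegral hint
    exact S.inLoc_of_integral h hS hf ⟨P, hm, hP, h0⟩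

/-- The henselization of `locv v S.P` is `S.H`. -/
theorem RD.hz_locv (S : RD k v D) : Hz v (locv v S.P) = S.H := by
  refine le_antisymm ?_ (hz_mono (le_locv v S.P))
  refine hz_le_hz (locv_le (le_hz v S.P) fun f hf h0 hv => (hz_hcl v S.P).inv f hf h0 hv)

/-! ## Finite extensions inside the field of fractions of the henselization -/

section

variable [IsAlgClosed Ω] {R : Subalgebra k Ω} {F : IntermediateField k Ω}

/-- A finitely generated field between `F` and the field of fractions of `Hz v R` is the fixed field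
of a subgroup containing the decomposition group, in a Galois extension `N` such that given elements
of `Hz v R` are in `N` and fixed. -/
theorem exists_galois_fix (hB : Base v R F) (hk : ∀ c : k, c ≠ 0 → v (algebraMap k Ω c) = 0)
    (hres : ∀ g : Ω, v.Ge 0 g → ∃ c : k, VPos v (g - algebraMap k Ω c))
    (K : IntermediateField k Ω) (hK : F ≤ K) (hK' : ∀ a ∈ K, InFr (Hz v R) a)
    (hfin : ∃ G : Finset Ω, IntermediateField.adjoin k (G : Set Ω) = K) (T : Finset Ω)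
    (hT : ∀ t ∈ T, t ∈ Hz v R) :
    ∃ (N : IntermediateField F Ω) (_ : FiniteDimensional F N) (_ : IsGalois F N)
      (H : Subgroup (N ≃ₐ[F] N)), ALLO.decP v R F N ≤ H ∧ fixO F N H = K ∧
      ∀ t ∈ T, t ∈ OH v R N (ALLO.decP v R F N) := by
  classical
  obtain ⟨G, hG⟩ := hfin
  have hG' : ∀ g ∈ G, InFr (Hz v R) g := fun g hg => hK' g (by
    rw [← hG]
    exact IntermediateField.subset_adjoin _ _ hg)
  choose! b hb c hc hc0 hbc using hG'
  obtain ⟨N, hfd, hgal, hN⟩ := exists_OH hB hk hres (T ∪ (G.image b ∪ G.image c)) (by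
    intro t ht
    rcases Finset.mem_union.1 ht with ht | ht
    · exact hT t ht
    rcases Finset.mem_union.1 ht with ht | ht
    · obtain ⟨g, hg, rfl⟩ := Finset.mem_image.1 ht
      exact hb g hg
    · obtain ⟨g, hg, rfl⟩ := Finset.mem_image.1 ht
      exact hc g hg)
  have hfix : ∀ t ∈ T ∪ (G.image b ∪ G.image c), t ∈ fixO F N (ALLO.decP v R F N) := by
    intro t ht
    rw [mem_fixO]
    exact (mem_OH.1 (hN t ht)).2
  have hKfix : K ≤ fixO F N (ALLO.decP v R F N) := by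
    rw [← hG, IntermediateField.adjoin_le_iff]
    intro g hg
    have hg' : g ∈ G := hg
    change g ∈ fixO F N (ALLO.decP v R F N)
    rw [hbc g hg']
    refine IntermediateField.div_mem _ (hfix _ ?_) (hfix _ ?_)
    · exact Finset.mem_union_right _ (Finset.mem_union_left _ (Finset.mem_image_of_mem _ hg'))
    · exact Finset.mem_union_right _ (Finset.mem_union_right _ (Finset.mem_image_of_mem _ hg'))
  obtain ⟨H, hH⟩ := Pool.Agent.LU1.exists_fixO_eq F N K hK (fun g hg => by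
    obtain ⟨m, hm, -⟩ := (mem_fixO F N _ g).1 (hKfix hg)
    rw [← hm]
    exact m.2)
  refine ⟨N, hfd, hgal, H, ?_, hH, fun t ht => hN t (Finset.mem_union_left _ ht)⟩
  intro s hs
  rw [← IntermediateField.fixingSubgroup_fixedField H, IntermediateField.mem_fixingSubgroup_iff]
  intro x hx
  have h1 : (x : Ω) ∈ fixO F N H := by
    rw [mem_fixO]
    refine ⟨x, rfl, ?_⟩
    rw [IntermediateField.mem_fixedField_iff] at hx
    exact hx
  rw [hH] at h1
  obtain ⟨m, hm, hm'⟩ := (mem_fixO F N _ _).1 (hKfix h1)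
  have h2 : m = x := Subtype.ext hm
  rw [← h2]
  exact hm' s hs

/-- The elements of `K` in the henselization. -/
theorem mem_icl_iff (hB : Base v R F) (hk : ∀ c : k, c ≠ 0 → v (algebraMap k Ω c) = 0)
    (hres : ∀ g : Ω, v.Ge 0 g → ∃ c : k, VPos v (g - algebraMap k Ω c))
    (K : IntermediateField k Ω) (hK : F ≤ K) (hK' : ∀ a ∈ K, InFr (Hz v R) a)
    (hfin : ∃ G : Finset Ω, IntermediateField.adjoin k (G : Set Ω) = K) {f : Ω} :
    f ∈ ICl v R K ↔ f ∈ K ∧ f ∈ Hz v R := by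
  constructor
  · intro hf
    obtain ⟨N, hfd, hgal, H, hH, hHK, -⟩ := exists_galois_fix hB hk hres K hK hK' hfin ∅
      (fun t ht => absurd ht (Finset.notMem_empty t))
    rw [← hHK, ← OH_eq hB hk hres hH] at hf
    refine ⟨?_, OH_le_Hz hB hk hres hH hf⟩
    rw [← hHK, mem_fixO]
    exact (mem_OH.1 hf).2
  · rintro ⟨hf, hf'⟩
    obtain ⟨N, hfd, hgal, H, hH, hHK, hT⟩ := exists_galois_fix hB hk hres K hK hK' hfin {f}
      (fun t ht => by rwa [Finset.mem_singleton.1 ht])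
    rw [← hHK, ← OH_eq hB hk hres hH]
    rw [mem_OH]
    refine ⟨(mem_OH.1 (hT f (Finset.mem_singleton_self f))).1, ?_⟩
    rw [← hHK, mem_fixO] at hf
    exact hf

/-- `ICl v R K` is local etale over `R`. -/
theorem icl_et (hB : Base v R F) (hk : ∀ c : k, c ≠ 0 → v (algebraMap k Ω c) = 0)
    (hres : ∀ g : Ω, v.Ge 0 g → ∃ c : k, VPos v (g - algebraMap k Ω c))
    (K : IntermediateField k Ω) (hK : F ≤ K) (hK' : ∀ a ∈ K, InFr (Hz v R) a)
    (hfin : ∃ G : Finset Ω, IntermediateField.adjoin k (G : Set Ω) = K) :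
    ∃ (θ : Ω) (P : Polynomial Ω), P.Monic ∧ (∀ i, P.coeff i ∈ R) ∧ P.eval θ = 0 ∧
      P.derivative.eval θ ≠ 0 ∧ v (P.derivative.eval θ) = 0 ∧
      ICl v R K = locv v (Algebra.adjoin k ((R : Set Ω) ∪ {θ})) := by
  obtain ⟨N, hfd, hgal, H, hH, hHK, -⟩ := exists_galois_fix hB hk hres K hK hK' hfin ∅
    (fun t ht => absurd ht (Finset.notMem_empty t))
  obtain ⟨θ, P, h1, h2, h3, h4, h5, h6⟩ := OH_et hB hk hres hH
  refine ⟨θ, P, h1, h2, h3, h4, h5, ?_⟩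
  rw [← h6, OH_eq hB hk hres hH, hHK]

end

/-! ## Integral closures of `S.P` and of its localisation -/

/-- A common denominator for an element integral over the localisation. -/
theorem exists_den_of_isIntegral {A : Subalgebra k Ω} {a : Ω} (h : IsIntegral (locv v A) a) :
    ∃ y ∈ A, y ≠ 0 ∧ v y = 0 ∧ IsIntegral A (y * a) := by
  obtain ⟨P, hm, hP, h0⟩ := exists_coeff_of_isIntegral h
  obtain ⟨y, hy, hy0, hvy, hyP⟩ := exists_common_den P hP
  refine ⟨y, hy, hy0, hvy, ?_⟩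
  refine isIntegral_of_coeff (P.scaleRoots y) ((monic_scaleRoots_iff y).2 hm) (fun i => ?_) ?_
  · rw [coeff_scaleRoots]
    rcases lt_trichotomy i P.natDegree with h | h | h
    · obtain ⟨m, hm⟩ : ∃ m, P.natDegree - i = m + 1 := ⟨P.natDegree - i - 1, by omega⟩
      rw [hm, pow_succ', ← mul_assoc, mul_comm (P.coeff i) y]
      exact A.mul_mem (hyP i) (A.pow_mem hy m)
    · subst h
      rw [hm.coeff_natDegree, one_mul]
      exact A.pow_mem hy _
    · rw [coeff_eq_zero_of_natDegree_lt h, zero_mul]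
      exact A.zero_mem
  · rw [scaleRoots_eval_mul, h0, mul_zero]

theorem isIntegral_of_le {A B : Subalgebra k Ω} (hAB : A ≤ B) {a : Ω} (h : IsIntegral A a) :
    IsIntegral B a := by
  obtain ⟨P, hm, hP, h0⟩ := exists_coeff_of_isIntegral h
  exact isIntegral_of_coeff P hm (fun i => hAB (hP i)) h0

/-- The integral closures of `A` and of its localisation have the same localisation. -/
theorem icl_locv (A : Subalgebra k Ω) (E : IntermediateField k Ω) (hA : ∀ a ∈ A, a ∈ E) :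
    ICl v (locv v A) E = ICl v A E := by
  refine le_antisymm ?_ ?_
  · refine locv_le ?_ fun f hf h0 hv => locv_inv hf h0 hv
    rintro f ⟨hf, hint⟩
    obtain ⟨y, hy, hy0, hvy, hy'⟩ := exists_den_of_isIntegral hint
    refine ⟨y * f, ⟨mul_mem (hA y hy) hf, hy'⟩, y, ⟨hA y hy, ?_⟩, hy0, hvy, ?_⟩
    · exact isIntegral_algebraMap (x := (⟨y, hy⟩ : A))
    · rw [mul_comm, mul_div_assoc, div_self hy0, mul_one]
  · refine locv_mono ?_
    rintro f ⟨hf, hint⟩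
    exact ⟨hf, isIntegral_of_le (le_locv v A) hint⟩

/-! ## The maximal ideal -/

/-- The elements `χ(γ) a + ∑ y_i b_i`, `γ > 0`, `a, b_i ∈ C`. -/
def RD.Cx (S : RD k v D) (C : Subalgebra k Ω) (f : Ω) : Prop :=
  ∃ γ ∈ S.Γ, 0 < γ ∧ ∃ a ∈ C, ∃ b : Fin D → Ω, (∀ i, b i ∈ C) ∧
    f = S.χ γ * a + ∑ i, S.y i * b i

theorem RD.Cx.zero {S : RD k v D} {C : Subalgebra k Ω} (hpos : ∃ γ ∈ S.Γ, 0 < γ) : S.Cx C 0 := by
  obtain ⟨γ, hγ, h0⟩ := hpos
  refine ⟨γ, hγ, h0, 0, C.zero_mem, fun _ => 0, fun _ => C.zero_mem, ?_⟩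
  simp

theorem RD.Cx.add {S : RD k v D} {C : Subalgebra k Ω} (hC : S.P ≤ C) {f g : Ω} (hf : S.Cx C f)
    (hg : S.Cx C g) : S.Cx C (f + g) := by
  obtain ⟨γ, hγ, h0, a, ha, b, hb, rfl⟩ := hf
  obtain ⟨δ, hδ, h0', a', ha', b', hb', rfl⟩ := hg
  obtain ⟨ε, hε, hε0, hεγ, hεδ⟩ : ∃ ε ∈ S.Γ, 0 < ε ∧ ε ≤ γ ∧ ε ≤ δ := by
    rcases le_total γ δ with h1 | h1
    · exact ⟨γ, hγ, h0, le_rfl, h1⟩
    · exact ⟨δ, hδ, h0', h1, le_rfl⟩
  have key : ∀ γ ∈ S.Γ, ε ≤ γ → ∀ a ∈ C, ∃ a' ∈ C, S.χ γ * a = S.χ ε * a' := by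
    intro γ hγ hle a ha
    refine ⟨S.χ (γ - ε) * a, C.mul_mem (hC (S.χ_mem (S.Γ.sub_mem hγ hε) (sub_nonneg.2 hle))) ha, ?_⟩
    rw [← mul_assoc, ← S.χ_add ε hε (γ - ε) (S.Γ.sub_mem hγ hε), add_sub_cancel]
  obtain ⟨a₁, ha₁, h1⟩ := key γ hγ hεγ a ha
  obtain ⟨a₂, ha₂, h2⟩ := key δ hδ hεδ a' ha'
  refine ⟨ε, hε, hε0, a₁ + a₂, C.add_mem ha₁ ha₂, fun i => b i + b' i,
    fun i => C.add_mem (hb i) (hb' i), ?_⟩
  rw [h1, h2]
  have h3 : ∑ i, S.y i * (b i + b' i) = ∑ i, S.y i * b i + ∑ i, S.y i * b' i := by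
    rw [← Finset.sum_add_distrib]
    exact Finset.sum_congr rfl fun i _ => by ring
  rw [h3]
  ring

theorem RD.Cx.mul_left {S : RD k v D} {C : Subalgebra k Ω} {f a : Ω} (ha : a ∈ C)
    (hf : S.Cx C f) : S.Cx C (a * f) := by
  obtain ⟨γ, hγ, h0, c, hc, b, hb, rfl⟩ := hf
  refine ⟨γ, hγ, h0, a * c, mul_mem ha hc, fun i => a * b i, fun i => mul_mem ha (hb i), ?_⟩
  rw [mul_add, Finset.mul_sum]
  congr 1
  · ring
  · exact Finset.sum_congr rfl fun i _ => by ring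

theorem RD.Cx.mem {S : RD k v D} {C : Subalgebra k Ω} (hC : S.P ≤ C)
    (hnn : ∀ f ∈ C, v.Ge 0 f) {f : Ω} (hf : S.Cx C f) : f ∈ C ∧ VPos v f := by
  obtain ⟨γ, hγ, h0, a, ha, b, hb, rfl⟩ := hf
  refine ⟨C.add_mem (C.mul_mem (hC (S.χ_mem hγ h0.le)) ha)
    (C.sum_mem fun i _ => C.mul_mem (hC (S.y_mem i)) (hb i)), ?_⟩
  refine VPos.add (VPos.mul ?_ (hnn a ha)) (sum_vpos _ _ fun i _ =>
    VPos.mul (fun _ => S.y_pos i) (hnn _ (hb i)))
  intro _
  rw [S.χ_val γ hγ]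
  exact h0

theorem RD.Cx.neg {S : RD k v D} {C : Subalgebra k Ω} {f : Ω} (hf : S.Cx C f) : S.Cx C (-f) := by
  have h1 := hf.mul_left (C.neg_mem C.one_mem)
  rwa [neg_one_mul] at h1

theorem RD.Cx.sub {S : RD k v D} {C : Subalgebra k Ω} (hC : S.P ≤ C) {f g : Ω} (hf : S.Cx C f)
    (hg : S.Cx C g) : S.Cx C (f - g) := by
  rw [sub_eq_add_neg]
  exact hf.add hC hg.neg

/-- The elements of `C` congruent to a constant modulo `Cx`. -/
def RD.cst (S : RD k v D) (C : Subalgebra k Ω) (hC : S.P ≤ C) (hpos : ∃ γ ∈ S.Γ, 0 < γ) :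
    Subalgebra k Ω where
  carrier := {f | f ∈ C ∧ ∃ c : k, S.Cx C (f - algebraMap k Ω c)}
  mul_mem' := by
    rintro f g ⟨hf, c, hc⟩ ⟨hg, d, hd⟩
    refine ⟨C.mul_mem hf hg, c * d, ?_⟩
    have h1 : f * g - algebraMap k Ω (c * d) = g * (f - algebraMap k Ω c) +
        algebraMap k Ω c * (g - algebraMap k Ω d) := by
      rw [map_mul]
      ring
    rw [h1]
    exact (hc.mul_left hg).add hC (hd.mul_left (C.algebraMap_mem c))
  add_mem' := by
    rintro f g ⟨hf, c, hc⟩ ⟨hg, d, hd⟩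
    refine ⟨C.add_mem hf hg, c + d, ?_⟩
    have h1 : f + g - algebraMap k Ω (c + d) = (f - algebraMap k Ω c) +
        (g - algebraMap k Ω d) := by
      rw [map_add]
      ring
    rw [h1]
    exact hc.add hC hd
  algebraMap_mem' := fun c => ⟨C.algebraMap_mem c, c, by
    rw [sub_self]
    exact RD.Cx.zero hpos⟩

theorem RD.cst_inv (S : RD k v D) {C : Subalgebra k Ω} (hC : S.P ≤ C)
    (hpos : ∃ γ ∈ S.Γ, 0 < γ) (hnn : ∀ f ∈ C, v.Ge 0 f)
    (hloc : ∀ f ∈ C, f ≠ 0 → v f = 0 → f⁻¹ ∈ C) {f : Ω} (hf : f ∈ S.cst C hC hpos) (h0 : f ≠ 0)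
    (hv : v f = 0) : f⁻¹ ∈ S.cst C hC hpos := by
  obtain ⟨hfC, c, hc⟩ := hf
  have hc0 : c ≠ 0 := by
    rintro rfl
    rw [map_zero, sub_zero] at hc
    exact not_vpos h0 hv (hc.mem hC hnn).2
  have hc0' : algebraMap k Ω c ≠ 0 := by
    simpa using hc0
  refine ⟨hloc f hfC h0 hv, c⁻¹, ?_⟩
  have h1 : f⁻¹ - algebraMap k Ω c⁻¹ = (-(f⁻¹ * algebraMap k Ω c⁻¹)) * (f - algebraMap k Ω c) := by
    rw [map_inv₀]
    field_simp
    ring
  rw [h1]
  exact hc.mul_left (C.neg_mem (C.mul_mem (hloc f hfC h0 hv) (C.algebraMap_mem _)))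

/-- The elements of `locv v S.P` are congruent to constants. -/
theorem RD.locv_le_cst (S : RD k v D) {C : Subalgebra k Ω} (hC : S.P ≤ C)
    (hpos : ∃ γ ∈ S.Γ, 0 < γ) (hnn : ∀ f ∈ C, v.Ge 0 f)
    (hloc : ∀ f ∈ C, f ≠ 0 → v f = 0 → f⁻¹ ∈ C) : locv v S.P ≤ S.cst C hC hpos := by
  refine locv_le ?_ fun f hf h0 hv => S.cst_inv hC hpos hnn hloc hf h0 hv
  rw [RD.P, Algebra.adjoin_le_iff]
  rintro f (⟨γ, ⟨hγ, h0⟩, rfl⟩ | ⟨i, rfl⟩)
  · refine ⟨hC (S.χ_mem hγ h0), ?_⟩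
    rcases h0.lt_or_eq with h1 | h1
    · refine ⟨0, γ, hγ, h1, 1, C.one_mem, fun _ => 0, fun _ => C.zero_mem, ?_⟩
      simp
    · refine ⟨1, ?_⟩
      rw [← h1, S.χ_zero, map_one, sub_self]
      exact RD.Cx.zero hpos
  · classical
    refine ⟨hC (S.y_mem i), 0, ?_⟩
    obtain ⟨γ, hγ, h0⟩ := hpos
    refine ⟨γ, hγ, h0, 0, C.zero_mem, fun j => if j = i then 1 else 0, fun j => ?_, ?_⟩
    · dsimp only
      split_ifs
      · exact C.one_mem
      · exact C.zero_mem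
    · simp

/-- The maximal ideal of a local etale ring over `locv v S.P` is generated by the parameters. -/
theorem RD.cx_of_et (h : Ctx0 k v n) (S : RD k v D) (hpos : ∃ γ ∈ S.Γ, 0 < γ)
    {C : Subalgebra k Ω} (hPC : locv v S.P ≤ C) (hnn : ∀ f ∈ C, v.Ge 0 f)
    (hloc : ∀ f ∈ C, f ≠ 0 → v f = 0 → f⁻¹ ∈ C) {θ : Ω} {P : Polynomial Ω} (hθ : θ ∈ C)
    (hP : ∀ i, P.coeff i ∈ locv v S.P) (h0 : P.eval θ = 0)
    (h1 : P.derivative.eval θ ≠ 0) (h2 : v (P.derivative.eval θ) = 0)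
    (hCeq : C ≤ locv v (Algebra.adjoin k ((locv v S.P : Set Ω) ∪ {θ}))) {f : Ω} (hf : f ∈ C)
    (hv : VPos v f) : S.Cx C f := by
  have hC : S.P ≤ C := (le_locv v S.P).trans hPC
  have hR := S.locv_le_cst hC hpos hnn hloc
  -- the generator
  have hθc : θ ∈ S.cst C hC hpos := by
    obtain ⟨c, hc⟩ := ctx_res h θ (hnn θ hθ)
    refine ⟨hθ, c, ?_⟩
    obtain ⟨Q, hQ⟩ := exists_lift (S := C) P fun i => hPC (hP i)
    have hev : ∀ (q : C[X]) (z : C), (q.map (algebraMap C Ω)).eval (z : Ω) =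
        ((q.eval z : C) : Ω) := by
      intro q z
      rw [eval_map]
      exact (hom_eval₂ q (RingHom.id _) (algebraMap C Ω) z).symm
    obtain ⟨z, hz⟩ := binomExpansion Q (⟨θ, hθ⟩ : C)
      (⟨algebraMap k Ω c, C.algebraMap_mem c⟩ - ⟨θ, hθ⟩)
    have h4 := congrArg (fun t : C => (t : Ω)) hz
    simp only [Subalgebra.coe_add, Subalgebra.coe_mul, Subalgebra.coe_pow] at h4
    rw [← hev, ← hev, ← hev, ← derivative_map, hQ] at h4
    have h5 : (((⟨θ, hθ⟩ : C) + (⟨algebraMap k Ω c, C.algebraMap_mem c⟩ - ⟨θ, hθ⟩) : C) : Ω) =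
        algebraMap k Ω c := by
      rw [Subalgebra.coe_add, Subalgebra.coe_sub]
      ring
    have h6 : (((⟨algebraMap k Ω c, C.algebraMap_mem c⟩ : C) - ⟨θ, hθ⟩ : C) : Ω) =
        algebraMap k Ω c - θ := rfl
    rw [h5, h6] at h4
    change P.eval (algebraMap k Ω c) = P.eval θ + P.derivative.eval θ * (algebraMap k Ω c - θ) +
      (z : Ω) * (algebraMap k Ω c - θ) ^ 2 at h4
    rw [h0, zero_add] at h4
    have hcn : VPos v (algebraMap k Ω c - θ) := by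
      have := hc.neg
      rwa [neg_sub] at this
    set u : Ω := P.derivative.eval θ + (z : Ω) * (algebraMap k Ω c - θ) with hu
    have hu0 : u ≠ 0 ∧ v u = 0 :=
      Pool.Agent.TAO.val_add_vpos h1 h2 (VPos.mul' (hnn _ z.2) hcn)
    have hdC : P.derivative.eval θ ∈ C := by
      have h7 : P.derivative.eval θ = ((Q.derivative.eval (⟨θ, hθ⟩ : C) : C) : Ω) := by
        rw [← hev, ← derivative_map, hQ]
      rw [h7]
      exact (Q.derivative.eval (⟨θ, hθ⟩ : C)).2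
    have huC : u ∈ C := C.add_mem hdC (C.mul_mem z.2 (C.sub_mem (C.algebraMap_mem c) hθ))
    have hPc : P.eval (algebraMap k Ω c) ∈ locv v S.P := by
      rw [eval_eq_sum_range]
      exact Subalgebra.sum_mem _ fun i _ => Subalgebra.mul_mem _ (hP i)
        (Subalgebra.pow_mem _ (Subalgebra.algebraMap_mem _ c) i)
    have hPcu : P.eval (algebraMap k Ω c) = u * (algebraMap k Ω c - θ) := by
      rw [h4, hu]
      ring
    have hPcv : VPos v (P.eval (algebraMap k Ω c)) := by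
      rw [hPcu]
      exact VPos.mul' (hnn _ huC) hcn
    obtain ⟨-, d, hd⟩ := hR hPc
    have hd0 : d = 0 := by
      by_contra hd0
      have h7 : VPos v (algebraMap k Ω d) := by
        have h8 : algebraMap k Ω d = P.eval (algebraMap k Ω c) -
            (P.eval (algebraMap k Ω c) - algebraMap k Ω d) := by ring
        rw [h8]
        exact hPcv.sub (hd.mem hC hnn).2
      refine not_vpos ?_ (h.triv d hd0) h7
      simpa using hd0
    rw [hd0, map_zero, sub_zero] at hd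
    have h8 : θ - algebraMap k Ω c = (-u⁻¹) * P.eval (algebraMap k Ω c) := by
      rw [hPcu, neg_mul, ← mul_assoc, inv_mul_cancel₀ hu0.1, one_mul, neg_sub]
    rw [h8]
    exact hd.mul_left (C.neg_mem (hloc u huC hu0.1 hu0.2))
  have hle : locv v (Algebra.adjoin k ((locv v S.P : Set Ω) ∪ {θ})) ≤ S.cst C hC hpos := by
    refine locv_le ?_ fun f hf h0 hv => S.cst_inv hC hpos hnn hloc hf h0 hv
    rw [Algebra.adjoin_le_iff]
    rintro g (hg | hg)
    · exact hR hg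
    · rw [Set.mem_singleton_iff] at hg
      rw [hg]
      exact hθc
  obtain ⟨-, d, hd⟩ := hle (hCeq hf)
  have hd0 : d = 0 := by
    by_contra hd0
    have h7 : VPos v (algebraMap k Ω d) := by
      have h8 : algebraMap k Ω d = f - (f - algebraMap k Ω d) := by ring
      rw [h8]
      exact hv.sub (hd.mem hC hnn).2
    refine not_vpos ?_ (h.triv d hd0) h7
    simpa using hd0
  rw [hd0, map_zero, sub_zero] at hd
  exact hd

/-! ## Row W3 -/

/-- `ICl v S.P K` is a local etale ring over `locv v S.P`, and its elements are the elements of `K`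
in the henselization. -/
theorem RD.icl_et [IsAlgClosed Ω] (h : CtxR k v n r) (S : RD k v D)
    (hS : Algebra.trdeg k S.K = r + D) (K : IntermediateField k Ω) (hK : S.K ≤ K)
    (hK' : ∀ a ∈ K, InFr S.H a) (hfin : ∃ F : Finset Ω, IntermediateField.adjoin k (F : Set Ω) = K) :
    ALLO.Et v S (ICl v S.P K) ∧ ∀ f, f ∈ ICl v S.P K ↔ f ∈ K ∧ f ∈ S.H := by
  have hB := S.base h hS
  rw [← S.hz_locv] at hK' ⊢
  rw [← icl_locv S.P K fun a ha => hK (S.P_mem_K ha)]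
  exact ⟨ALLY.icl_et hB h.triv (ctx_res h.toCtx0) K hK hK' hfin,
    fun f => mem_icl_iff hB h.triv (ctx_res h.toCtx0) K hK hK' hfin⟩

/-- **W3**: the integral closure of `S.P` in `K`, localised, is a frame ring with the parameters of
`S`. -/
theorem RD.icl_frame {r : ℕ} [IsAlgClosed Ω] (h : CtxR k v n r) (hr : 0 < r) (S : RD k v D)
    (hS : Algebra.trdeg k S.K = r + D) (K : IntermediateField k Ω) (hK : S.K ≤ K)
    (hK' : ∀ a ∈ K, InFr S.H a) (hfin : ∃ F : Finset Ω, IntermediateField.adjoin k (F : Set Ω) = K) :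
    ∃ θ ∈ K, θ ∈ S.H ∧ IsIntegral S.P θ ∧
      (∀ f ∈ K, f ∈ S.H → InLoc v (Algebra.adjoin k ((S.P : Set Ω) ∪ {θ})) f) ∧
      (∀ f ∈ K, f ∈ S.H ↔ ∃ b c : Ω, b ∈ K ∧ c ∈ K ∧ IsIntegral S.P b ∧ IsIntegral S.P c ∧
        c ≠ 0 ∧ v c = 0 ∧ f = b / c) ∧
      ∀ f ∈ K, f ∈ S.H → VPos v f → ∃ γ ∈ S.Γ, 0 < γ ∧ ∃ a ∈ K, a ∈ S.H ∧
        ∃ b : Fin D → Ω, (∀ i, b i ∈ K ∧ b i ∈ S.H) ∧ f = S.χ γ * a + ∑ i, S.y i * b i := by
  obtain ⟨⟨θ, P, hm, hP, h0, h1, h2, h3⟩, hiff⟩ := S.icl_et h hS K hK hK' hfin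
  set C := ICl v S.P K with hC
  have hθC : θ ∈ C := by
    rw [h3]
    exact le_locv v _ (Algebra.subset_adjoin (Or.inr rfl))
  have hRC : locv v S.P ≤ C := by
    rw [h3]
    exact fun g hg => le_locv v _ (Algebra.subset_adjoin (Or.inl hg))
  obtain ⟨hθK, hθH⟩ := (hiff θ).1 hθC
  obtain ⟨y, hy, hy0, hvy, hyθ⟩ := exists_den_of_isIntegral (isIntegral_of_coeff P hm hP h0)
  refine ⟨y * θ, mul_mem (hK (S.P_mem_K hy)) hθK, mul_mem (S.P_le_H hy) hθH, hyθ, ?_, ?_, ?_⟩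
  · intro f hf hf'
    rw [inLoc_iff]
    have hf'' : f ∈ C := (hiff f).2 ⟨hf, hf'⟩
    rw [h3] at hf''
    refine locv_le ?_ (fun g hg h0 hv => locv_inv hg h0 hv) hf''
    rw [Algebra.adjoin_le_iff]
    rintro g (hg | hg)
    · exact locv_mono (fun z hz => Algebra.subset_adjoin (Or.inl hz)) hg
    · rw [Set.mem_singleton_iff] at hg
      subst hg
      refine ⟨y * g, Algebra.subset_adjoin (Or.inr rfl), y, Algebra.subset_adjoin (Or.inl hy), hy0,
        hvy, ?_⟩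
      rw [mul_comm, mul_div_assoc, div_self hy0, mul_one]
  · intro f hf
    constructor
    · intro hf'
      obtain ⟨b, hb, c, hc, hc0, hvc, hfbc⟩ := (hiff f).2 ⟨hf, hf'⟩
      exact ⟨b, c, hb.1, hc.1, hb.2, hc.2, hc0, hvc, hfbc⟩
    · rintro ⟨b, c, hb, hc, hb', hc', hc0, hvc, rfl⟩
      exact ((hiff _).1 ⟨b, ⟨hb, hb'⟩, c, ⟨hc, hc'⟩, hc0, hvc, rfl⟩).2
  · intro f hf hf' hv
    have hnn : ∀ f ∈ C, v.Ge 0 f := fun f hf => S.nonneg h.toCtx0 f ((hiff f).1 hf).2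
    have hloc : ∀ f ∈ C, f ≠ 0 → v f = 0 → f⁻¹ ∈ C := fun f hf h0 hv => locv_inv hf h0 hv
    obtain ⟨γ, hγ, hγ0, a, ha, b, hb, hfab⟩ := S.cx_of_et h.toCtx0 (S.exists_pos h hr) hRC hnn hloc
      hθC hP h0 h1 h2 h3.le ((hiff f).2 ⟨hf, hf'⟩) hv
    exact ⟨γ, hγ, hγ0, a, ((hiff a).1 ha).1, ((hiff a).1 ha).2, b, fun i => (hiff _).1 (hb i), hfab⟩

/-- The structure theorem for finitely many elements of `S.H`: they are in one local etale ring over
`locv v S.P`. -/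
theorem RD.exists_et [IsAlgClosed Ω] (h : CtxR k v n r) (S : RD k v D)
    (hS : Algebra.trdeg k S.K = r + D) (T : Finset Ω) (hT : ∀ t ∈ T, t ∈ S.H) :
    ∃ C : Subalgebra k Ω, ALLO.Et v S C ∧ C ≤ S.H ∧ (∀ f ∈ C, f ≠ 0 → v f = 0 → f⁻¹ ∈ C) ∧
      ∀ t ∈ T, t ∈ C := by
  have hB := S.base h hS
  obtain ⟨N, hfd, hgal, hN⟩ := exists_OH hB h.triv (ctx_res h.toCtx0) T
    (fun t ht => by rw [S.hz_locv]; exact hT t ht)
  refine ⟨OH v (locv v S.P) N (ALLO.decP v (locv v S.P) S.K N), ?_, ?_, ?_, hN⟩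
  · exact OH_et hB h.triv (ctx_res h.toCtx0) le_rfl
  · rw [← S.hz_locv]
    exact OH_le_Hz hB h.triv (ctx_res h.toCtx0) le_rfl
  · exact fun f hf h0 hv => OH_inv hf h0 hv

end Pool.Agent.ALLY
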