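import Pool.Agent.Lib.TAO.Defs
import Mathlib

/-!
# PROJECT ALL, block Y (section 5) in any rank: definitions

Everything happens in one field `Ω` with a valuation `v : OVal 𝕂 Ω` (values in an ordered field).
* `HCl v B`: the subalgebra `B` is closed under inverses of elements of value `0` and under simple
  roots of monic polynomials. `Hz v A`: the smallest such subalgebra containing `A`
  (the henselization of `A` inside `Ω`).
* `RD k v D`: rational data `(Γ, χ, y)` with `D` free parameters. `S.P = k[χ(Γ ≥ 0), y]`,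
  `S.H = Hz v S.P`, `S.K = k(χ(Γ), y)`.
* `InFr S.H a`: `a` is in the field of fractions of `S.H`.
* `S.Mono f`: `f = χ(v f) u`, `u` a unit of `S.H`. `S.Le S'`: refinement.
* `S.Ord f κ M`, `S.ZForm f κ M`: content `κ` and order `M` of `f`, resp. order with respect to the
  last parameter modulo the other ones.
-/

set_option autoImplicit false

open Polynomial

namespace Pool.Agent.ALLY

open Pool.Agent.TAO (OVal VPos Ctx0 CtxR)

universe u w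

section Hensel

variable {k Ω : Type u} [Field k] [Field Ω] [Algebra k Ω] {𝕂 : Type w} [Field 𝕂] [LinearOrder 𝕂]
  [IsStrictOrderedRing 𝕂]

/-- Closed under inverses of elements of value `0` and under simple roots. -/
structure HCl (v : OVal 𝕂 Ω) (B : Subalgebra k Ω) : Prop where
  inv : ∀ a ∈ B, a ≠ 0 → v a = 0 → a⁻¹ ∈ B
  root : ∀ P : Polynomial Ω, P.Monic → (∀ i, P.coeff i ∈ B) → ∀ a : Ω, v.Ge 0 a → P.eval a = 0 →
    P.derivative.eval a ≠ 0 → v (P.derivative.eval a) = 0 → a ∈ B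

/-- The henselization of `A` inside `Ω`. -/
def Hz (v : OVal 𝕂 Ω) (A : Subalgebra k Ω) : Subalgebra k Ω := sInf {B | A ≤ B ∧ HCl v B}

theorem le_hz (v : OVal 𝕂 Ω) (A : Subalgebra k Ω) : A ≤ Hz v A :=
  le_sInf fun _ hB => hB.1

theorem hz_hcl (v : OVal 𝕂 Ω) (A : Subalgebra k Ω) : HCl v (Hz v A) where
  inv := fun a ha h0 h1 => by
    rw [Hz, Algebra.mem_sInf] at ha ⊢
    exact fun B hB => hB.2.inv a (ha B hB) h0 h1
  root := fun P hP hc a ha h0 h1 h2 => by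
    rw [Hz, Algebra.mem_sInf]
    refine fun B hB => hB.2.root P hP (fun i => ?_) a ha h0 h1 h2
    have := hc i
    rw [Hz, Algebra.mem_sInf] at this
    exact this B hB

theorem hz_le {v : OVal 𝕂 Ω} {A B : Subalgebra k Ω} (h : A ≤ B) (hB : HCl v B) : Hz v A ≤ B :=
  sInf_le ⟨h, hB⟩

theorem hz_mono {v : OVal 𝕂 Ω} {A B : Subalgebra k Ω} (h : A ≤ B) : Hz v A ≤ Hz v B :=
  hz_le (h.trans (le_hz v B)) (hz_hcl v B)

theorem hz_le_hz {v : OVal 𝕂 Ω} {A B : Subalgebra k Ω} (h : A ≤ Hz v B) : Hz v A ≤ Hz v B :=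
  hz_le h (hz_hcl v B)

theorem hz_of_hcl {v : OVal 𝕂 Ω} {B : Subalgebra k Ω} (hB : HCl v B) : Hz v B = B :=
  le_antisymm (hz_le le_rfl hB) (le_hz v B)

end Hensel

section Frames

variable {k Ω : Type u} [Field k] [Field Ω] [Algebra k Ω] {𝕂 : Type w} [Field 𝕂] [LinearOrder 𝕂]
  [IsStrictOrderedRing 𝕂]

/-- Rational data with `D` free parameters. `χ` matters only on `Γ`. -/
structure RD (k : Type u) {Ω : Type u} [Field k] [Field Ω] [Algebra k Ω] {𝕂 : Type w} [Field 𝕂]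
    [LinearOrder 𝕂] [IsStrictOrderedRing 𝕂] (v : OVal 𝕂 Ω) (D : ℕ) where
  /-- the group of exponents -/
  Γ : AddSubgroup 𝕂
  fg : Γ.FG
  full : ∀ g : Ω, g ≠ 0 → ∃ m : ℕ, 0 < m ∧ (m : 𝕂) * v g ∈ Γ
  /-- the monomials -/
  χ : 𝕂 → Ω
  χ_ne : ∀ γ ∈ Γ, χ γ ≠ 0
  χ_add : ∀ γ ∈ Γ, ∀ δ ∈ Γ, χ (γ + δ) = χ γ * χ δ
  χ_val : ∀ γ ∈ Γ, v (χ γ) = γ
  /-- the free parameters -/
  y : Fin D → Ω
  y_ne : ∀ i, y i ≠ 0
  y_pos : ∀ i, 0 < v (y i)

variable {v : OVal 𝕂 Ω} {D d : ℕ}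

/-- `k[χ(Γ ≥ 0), y]`. -/
def RD.P (S : RD k v D) : Subalgebra k Ω :=
  Algebra.adjoin k (S.χ '' {γ | γ ∈ S.Γ ∧ 0 ≤ γ} ∪ Set.range S.y)

/-- The henselization of `k[χ(Γ ≥ 0), y]` at the centre of `v`. -/
def RD.H (S : RD k v D) : Subalgebra k Ω := Hz v S.P

/-- `k(χ(Γ), y)`. -/
def RD.K (S : RD k v D) : IntermediateField k Ω :=
  IntermediateField.adjoin k (S.χ '' {γ | γ ∈ S.Γ} ∪ Set.range S.y)

/-- `a` is in the field of fractions of `B`. -/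
def InFr (B : Subalgebra k Ω) (a : Ω) : Prop := ∃ b ∈ B, ∃ c ∈ B, c ≠ 0 ∧ a = b / c

/-- `f` is a unit of `S.H`. -/
def RD.Un (S : RD k v D) (f : Ω) : Prop := f ∈ S.H ∧ f ≠ 0 ∧ v f = 0

/-- `f` is a monomial times a unit of `S.H`. -/
def RD.Mono (S : RD k v D) (f : Ω) : Prop := f ≠ 0 ∧ v f ∈ S.Γ ∧ f / S.χ (v f) ∈ S.H

/-- Refinement (of the data of the field `k(χ, y)`): `S.H ≤ S'.H` and the new parameters are
quotients of elements of `S.P` with monomial denominators. -/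
structure RD.Le (S S' : RD k v D) : Prop where
  Γ_le : ∀ γ ∈ S.Γ, γ ∈ S'.Γ
  χ_mono : ∀ γ ∈ S.Γ, S.χ γ / S'.χ γ ∈ S'.H
  y_mem : ∀ i, S.y i ∈ S'.H
  den : ∀ g ∈ S'.P, ∃ a ∈ S.P, ∃ b ∈ S.P, S'.Mono b ∧ g = a / b

/-- The last parameter. -/
def RD.z (S : RD k v (d + 1)) : Ω := S.y (Fin.last d)

/-- Forget the last parameter. -/
def RD.low (S : RD k v (d + 1)) : RD k v d where
  Γ := S.Γ
  fg := S.fg
  full := S.full
  χ := S.χ
  χ_ne := S.χ_ne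
  χ_add := S.χ_add
  χ_val := S.χ_val
  y := fun i => S.y i.castSucc
  y_ne := fun _ => S.y_ne _
  y_pos := fun _ => S.y_pos _

/-- The ideal `(χ(> 0), y) H`, in the form in which it is used. -/
def RD.Mx (S : RD k v D) (f : Ω) : Prop :=
  ∃ γ ∈ S.Γ, 0 < γ ∧ ∃ a ∈ S.H, ∃ b : Fin D → Ω, (∀ i, b i ∈ S.H) ∧
    f = S.χ γ * a + ∑ i, S.y i * b i

/-- The ideal `I = (χ(> 0), y_1, .., y_d) H` (without the last parameter). -/
def RD.Lx (S : RD k v (d + 1)) (f : Ω) : Prop :=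
  ∃ γ ∈ S.Γ, 0 < γ ∧ ∃ a ∈ S.H, ∃ b : Fin d → Ω, (∀ i, b i ∈ S.H) ∧
    f = S.χ γ * a + ∑ i : Fin d, S.y i.castSucc * b i

/-- `(y)^M H`, as a `k`-subspace of `Ω`. -/
def RD.YI (S : RD k v D) (M : ℕ) : Submodule k Ω :=
  Submodule.span k (Set.range S.y) ^ M * S.H.toSubmodule

/-- Content `κ` and order `M`. -/
def RD.Ord (S : RD k v D) (f : Ω) (κ : 𝕂) (M : ℕ) : Prop :=
  κ ∈ S.Γ ∧ ∃ P : MvPolynomial (Fin D) k, P.IsHomogeneous M ∧ P ≠ 0 ∧
    ∃ e ∈ S.YI (M + 1), ∃ γ ∈ S.Γ, 0 < γ ∧ ∃ a ∈ S.H,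
      f = S.χ κ * (MvPolynomial.aeval S.y P + e + S.χ γ * a)

/-- Content `κ` and order `M` in the last parameter: `f = χ(κ) (u z^M + I)`. -/
def RD.ZForm (S : RD k v (d + 1)) (f : Ω) (κ : 𝕂) (M : ℕ) : Prop :=
  κ ∈ S.Γ ∧ ∃ u, S.Un u ∧ ∃ e, S.Lx e ∧ f = S.χ κ * (u * S.z ^ M + e)

/-- Local uniformization (embedded, with refinement) for the fields `k(χ, y)` with `D` free
parameters, `n` = their transcendence degree. -/
def LUsR (k : Type u) {Ω : Type u} [Field k] [Field Ω] [Algebra k Ω] (v : OVal 𝕂 Ω) (D n : ℕ) :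
    Prop :=
  ∀ S : RD k v D, Algebra.trdeg k S.K = n → ∀ Z : Finset Ω, (∀ z ∈ Z, z ∈ S.K ∧ z ≠ 0) →
    ∃ S' : RD k v D, S.Le S' ∧ ∀ z ∈ Z, S'.Mono z

end Frames

end Pool.Agent.ALLY
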