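import Pool.Agent.Lib.ALLY.Defs
import Mathlib

/-!
# Block Y any rank, row W1: unramified local rings with residue field `k` are inside the
henselization

* `exists_pair`: a finite type algebra `B` over `A`, a prime `q` of `B` with
  `B = A + q` and `q B_q = (q ∩ A) B_q`: there is a standard etale surjection on `B_f`, `f ∉ q`.
* `exists_simple_root`: `B` inside a field with a valuation with residue field `k`:
  `locv B = locv (A[θ])`, `θ` a simple root of a monic polynomial over `A`.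
* `le_hz_of_gen`: row W1.
-/

set_option autoImplicit false

open Polynomial

namespace Pool.Agent.ALLY

open Pool.Agent.TAO (OVal VPos Ctx0 CtxR)

/-! ## Commutative algebra -/

section CA

variable {A B : Type*} [CommRing A] [CommRing B] [Algebra A B] [Algebra.FiniteType A B]

theorem unramifiedAt_of_gen (q : Ideal B) [hq : q.IsPrime]
    (hres : ∀ b : B, ∃ a : A, b - algebraMap A B a ∈ q)
    (hgen : ∀ b ∈ q, ∃ s ∉ q, s * b ∈ (q.under A).map (algebraMap A B)) :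
    Algebra.IsUnramifiedAt A q := by
  let p := q.under A
  let := Localization.AtPrime.algebraOfLiesOver p q
  refine (Algebra.isUnramifiedAt_iff_map_eq A p q).2 ⟨⟨fun x => ?_⟩, ?_⟩
  · have h1 : ∀ b : B, ∃ a : A, algebraMap B q.ResidueField b =
        algebraMap p.ResidueField q.ResidueField (algebraMap A p.ResidueField a) := by
      intro b
      obtain ⟨a, ha⟩ := hres b
      refine ⟨a, ?_⟩
      rw [← IsScalarTower.algebraMap_apply, IsScalarTower.algebraMap_apply A B q.ResidueField,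
        ← sub_eq_zero, ← map_sub]
      exact Ideal.algebraMap_residueField_eq_zero.2 ha
    have h2 : ∃ y, algebraMap p.ResidueField q.ResidueField y = x := by
      obtain ⟨z, rfl⟩ := IsLocalRing.residue_surjective x
      obtain ⟨b, s, rfl⟩ := IsLocalization.exists_mk'_eq q.primeCompl z
      obtain ⟨a, ha⟩ := h1 b
      obtain ⟨c, hc⟩ := h1 (s : B)
      have hs0 : algebraMap B q.ResidueField (s : B) ≠ 0 := fun h =>
        s.2 (Ideal.algebraMap_residueField_eq_zero.1 h)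
      have h3 : IsLocalRing.residue (Localization.AtPrime q) (IsLocalization.mk' _ b s) *
          algebraMap B q.ResidueField (s : B) = algebraMap B q.ResidueField b := by
        have h4 : ∀ b : B, algebraMap B q.ResidueField b =
            IsLocalRing.residue (Localization.AtPrime q)
              (algebraMap B (Localization.AtPrime q) b) := fun b => rfl
        rw [h4, h4, ← map_mul, IsLocalization.mk'_spec]
      refine ⟨algebraMap A p.ResidueField a / algebraMap A p.ResidueField c, ?_⟩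
      rw [map_div₀, ← ha, ← hc, div_eq_iff hs0, h3]
    obtain ⟨y, rfl⟩ := h2
    exact isSeparable_algebraMap _
  · apply le_antisymm
    · rw [← Localization.AtPrime.map_eq_maximalIdeal, Ideal.map_le_iff_le_comap]
      intro a ha
      rw [Ideal.mem_comap, IsScalarTower.algebraMap_apply A B (Localization.AtPrime q)]
      exact Ideal.mem_map_of_mem _ ha
    · rw [← Localization.AtPrime.map_eq_maximalIdeal, Ideal.map_le_iff_le_comap]
      intro b hb
      obtain ⟨s, hs, hsb⟩ := hgen b hb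
      rw [Ideal.mem_comap]
      have h1 : algebraMap B (Localization.AtPrime q) (s * b) ∈
          p.map (algebraMap A (Localization.AtPrime q)) := by
        rw [IsScalarTower.algebraMap_eq A B (Localization.AtPrime q), ← Ideal.map_map]
        exact Ideal.mem_map_of_mem _ hsb
      rw [map_mul] at h1
      have h2 : IsUnit (algebraMap B (Localization.AtPrime q) s) :=
        IsLocalization.map_units (Localization.AtPrime q) (⟨s, hs⟩ : q.primeCompl)
      exact (Ideal.unit_mul_mem_iff_mem _ h2).1 h1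

theorem exists_pair (q : Ideal B) [hq : q.IsPrime]
    (hres : ∀ b : B, ∃ a : A, b - algebraMap A B a ∈ q)
    (hgen : ∀ b ∈ q, ∃ s ∉ q, s * b ∈ (q.under A).map (algebraMap A B)) :
    ∃ f ∉ q, HasStandardEtaleSurjectionOn A f := by
  have := unramifiedAt_of_gen q hres hgen
  exact Algebra.IsUnramifiedAt.exists_hasStandardEtaleSurjectionOn q

/-- The embedded form. -/
theorem exists_theta {L : Type*} [Field L] [Algebra A L] [Algebra B L] [IsScalarTower A B L]
    (q : Ideal B) [hq : q.IsPrime]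
    (hres : ∀ b : B, ∃ a : A, b - algebraMap A B a ∈ q)
    (hgen : ∀ b ∈ q, ∃ s ∉ q, s * b ∈ (q.under A).map (algebraMap A B))
    (hne : ∀ b ∉ q, algebraMap B L b ≠ 0) :
    ∃ f ∉ q, ∃ (θ : L) (g h : A[X]) (_ : g.Monic), aeval θ g = 0 ∧
      (∃ (b : B) (m : ℕ), θ * algebraMap B L f ^ m = algebraMap B L b) ∧
      (∃ (b : B) (m : ℕ), aeval θ h * algebraMap B L b = algebraMap B L f ^ m) ∧
      (∃ (b : B) (m : ℕ), aeval θ (derivative g) * algebraMap B L b = algebraMap B L f ^ m) ∧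
      ∀ b : B, ∃ (a : A[X]) (m : ℕ), algebraMap B L b * aeval θ h ^ m = aeval θ a := by
  obtain ⟨f, hf, P, φ, hφ⟩ := exists_pair q hres hgen
  have hfu : IsUnit (algebraMap B L f) := IsUnit.mk0 _ (hne f hf)
  let lam : Localization.Away f →+* L := IsLocalization.Away.lift f hfu
  have hlam : ∀ b : B, lam (algebraMap B (Localization.Away f) b) = algebraMap B L b := fun b =>
    IsLocalization.Away.lift_eq f hfu b
  have hlamA : ∀ a : A, lam (algebraMap A (Localization.Away f) a) = algebraMap A L a := by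
    intro a
    rw [IsScalarTower.algebraMap_apply A B (Localization.Away f), hlam,
      ← IsScalarTower.algebraMap_apply]
  let lamA : Localization.Away f →ₐ[A] L := { lam with commutes' := hlamA }
  let ψ : P.Ring →ₐ[A] L := lamA.comp φ
  have hψ : ∀ y : P.Ring, ∃ (b : B) (m : ℕ), ψ y * algebraMap B L f ^ m = algebraMap B L b := by
    intro y
    obtain ⟨⟨b, ⟨_, m, rfl⟩⟩, e⟩ := IsLocalization.surj (Submonoid.powers f) (φ y)
    refine ⟨b, m, ?_⟩
    have h1 := congrArg lam e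
    rw [map_mul, hlam, hlam, map_pow] at h1
    exact h1
  have hunit : ∀ y : P.Ring, IsUnit y → ∃ (b : B) (m : ℕ),
      ψ y * algebraMap B L b = algebraMap B L f ^ m := by
    intro y hy
    obtain ⟨z, hz⟩ := hy.exists_right_inv
    obtain ⟨b, m, hb⟩ := hψ z
    refine ⟨b, m, ?_⟩
    rw [← hb, ← mul_assoc, ← map_mul, hz, map_one, one_mul]
  have hae : ∀ a : A[X], ψ (aeval P.X a) = aeval (ψ P.X) a := fun a =>
    (Polynomial.aeval_algHom_apply ψ P.X a).symm
  refine ⟨f, hf, ψ P.X, P.f, P.g, P.monic_f, ?_, hψ _, ?_, ?_, ?_⟩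
  · rw [← hae, P.hasMap_X.1, map_zero]
  · obtain ⟨b, m, hb⟩ := hunit _ P.hasMap_X.2
    exact ⟨b, m, by rw [← hae]; exact hb⟩
  · obtain ⟨b, m, hb⟩ := hunit _ P.hasMap_X.isUnit_derivative_f
    exact ⟨b, m, by rw [← hae]; exact hb⟩
  · intro b
    obtain ⟨y, hy⟩ := hφ (algebraMap B (Localization.Away f) b)
    let pres : StandardEtalePresentation A P.Ring := ⟨P, P.X, P.hasMap_X, by
      simpa [StandardEtalePair.lift_X_left] using Function.bijective_id⟩
    obtain ⟨a, m, ha⟩ := pres.exists_mul_aeval_x_g_pow_eq_aeval_x y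
    refine ⟨a, m, ?_⟩
    have h1 := congrArg ψ ha
    rw [map_mul, map_pow] at h1
    have h2 : ψ y = algebraMap B L b := by
      change lam (φ y) = _
      rw [hy, hlam]
    rw [h2] at h1
    change _ * ψ (aeval P.X P.g) ^ m = ψ (aeval P.X a) at h1
    rw [hae, hae] at h1
    exact h1

end CA

/-! ## Inside a valued field -/

universe u w

variable {k Ω : Type u} [Field k] [Field Ω] [Algebra k Ω] {𝕂 : Type w} [Field 𝕂] [LinearOrder 𝕂]
  [IsStrictOrderedRing 𝕂] {v : OVal 𝕂 Ω} {n : ℕ}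

/-- The centre of `v`. -/
def ctrI (v : OVal 𝕂 Ω) (B : Type*) [CommRing B] [Algebra B Ω]
    (h0 : ∀ b : B, v.Ge 0 (algebraMap B Ω b)) : Ideal B where
  carrier := {b | VPos v (algebraMap B Ω b)}
  add_mem' := fun {a b} ha hb => by
    change VPos v (algebraMap B Ω (a + b))
    rw [map_add]
    exact VPos.add ha hb
  zero_mem' := by
    change VPos v (algebraMap B Ω 0)
    rw [map_zero]
    exact VPos.zero
  smul_mem' := fun c b hb => by
    change VPos v (algebraMap B Ω (c * b))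
    rw [map_mul]
    exact VPos.mul' (h0 c) hb

theorem mem_ctrI {B : Type*} [CommRing B] [Algebra B Ω]
    (h0 : ∀ b : B, v.Ge 0 (algebraMap B Ω b)) {b : B} :
    b ∈ ctrI v B h0 ↔ VPos v (algebraMap B Ω b) := Iff.rfl

/-- not positive: nonzero of value `0` -/
theorem val_of_not_vpos {f : Ω} (h0 : v.Ge 0 f) (h : ¬ VPos v f) : f ≠ 0 ∧ v f = 0 := by
  have h1 : f ≠ 0 := fun h1 => h (by rw [h1]; exact VPos.zero)
  refine ⟨h1, le_antisymm ?_ (h0 h1)⟩
  by_contra h2
  exact h fun _ => not_le.1 h2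

theorem ctrI_isPrime {B : Type*} [CommRing B] [Algebra B Ω]
    (h0 : ∀ b : B, v.Ge 0 (algebraMap B Ω b)) : (ctrI v B h0).IsPrime where
  ne_top' := by
    rw [Ne, Ideal.eq_top_iff_one, mem_ctrI, map_one]
    intro h
    have := h one_ne_zero
    rw [v.map_one] at this
    exact lt_irrefl _ this
  mem_or_mem' := by
    intro a b hab
    rw [mem_ctrI, map_mul] at hab
    by_contra hcon
    rw [not_or, mem_ctrI, mem_ctrI] at hcon
    obtain ⟨h1, h2⟩ := val_of_not_vpos (h0 a) hcon.1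
    obtain ⟨h3, h4⟩ := val_of_not_vpos (h0 b) hcon.2
    have := hab (mul_ne_zero h1 h3)
    rw [v.map_mul h1 h3, h2, h4, add_zero] at this
    exact lt_irrefl _ this

theorem exists_res (h : Ctx0 k v n) {g : Ω} (hg : v.Ge 0 g) :
    ∃ c : k, VPos v (g - algebraMap k Ω c) := by
  by_cases h1 : VPos v g
  · exact ⟨0, by rw [map_zero, sub_zero]; exact h1⟩
  · obtain ⟨h2, h3⟩ := val_of_not_vpos hg h1
    obtain ⟨c, -, hc⟩ := h.res g h2 h3
    exact ⟨c, hc⟩

theorem ge_pow {f : Ω} (hf : v.Ge 0 f) (m : ℕ) : v.Ge 0 (f ^ m) := by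
  induction m with
  | zero => rw [pow_zero]; exact fun _ => v.map_one.ge
  | succ m ih =>
    rw [pow_succ]
    have := ih.mul hf
    rwa [add_zero] at this

/-- A divisor of an element of value `0` has value `0`. -/
theorem val_of_mul {f g e : Ω} (hf : v.Ge 0 f) (hg : v.Ge 0 g) (he : e ≠ 0) (hv : v e = 0)
    (h : f * g = e) : f ≠ 0 ∧ v f = 0 := by
  have h1 : f ≠ 0 := by rintro rfl; rw [zero_mul] at h; exact he h.symm
  have h2 : g ≠ 0 := by rintro rfl; rw [mul_zero] at h; exact he h.symm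
  have h3 := v.map_mul h1 h2
  rw [h, hv] at h3
  exact ⟨h1, le_antisymm (by linarith [hg h2]) (hf h1)⟩

theorem aeval_mem_adjoin (A : Subalgebra k Ω) (θ : Ω) (a : A[X]) :
    aeval θ a ∈ Algebra.adjoin k ((A : Set Ω) ∪ {θ}) := by
  rw [aeval_eq_sum_range]
  refine Subalgebra.sum_mem _ fun i _ => ?_
  have h1 : a.coeff i • θ ^ i = ((a.coeff i : A) : Ω) * θ ^ i := rfl
  rw [h1]
  have h2 : ((a.coeff i : A) : Ω) ∈ Algebra.adjoin k ((A : Set Ω) ∪ {θ}) :=
    Algebra.subset_adjoin (Set.mem_union_left _ (a.coeff i).2)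
  have h3 : θ ∈ Algebra.adjoin k ((A : Set Ω) ∪ {θ}) :=
    Algebra.subset_adjoin (Set.mem_union_right _ rfl)
  exact mul_mem h2 (pow_mem h3 i)

theorem aeval_ge (A : Subalgebra k Ω) (hA : ∀ a ∈ A, v.Ge 0 a) {θ : Ω} (hθ : v.Ge 0 θ)
    (a : A[X]) : v.Ge 0 (aeval θ a) := by
  rw [aeval_eq_sum_range]
  refine OVal.Ge.sum _ _ fun i _ => ?_
  have h1 : a.coeff i • θ ^ i = ((a.coeff i : A) : Ω) * θ ^ i := rfl
  rw [h1]
  have := (hA _ (a.coeff i).2).mul (ge_pow hθ i)
  rwa [add_zero] at this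

/-- The local structure: `locv B = locv (A[θ])`, `θ` a simple root. -/
theorem exists_simple_root (h : Ctx0 k v n) (A : Subalgebra k Ω) (hA : ∀ a ∈ A, v.Ge 0 a)
    (F : Finset Ω) (hB : ∀ b ∈ Algebra.adjoin k ((A : Set Ω) ∪ F), v.Ge 0 b)
    (hgen : ∀ b ∈ Algebra.adjoin k ((A : Set Ω) ∪ F), VPos v b →
      ∃ s ∈ Algebra.adjoin k ((A : Set Ω) ∪ F), s ≠ 0 ∧ v s = 0 ∧
        s * b ∈ Submodule.span (Algebra.adjoin k ((A : Set Ω) ∪ F)) {a : Ω | a ∈ A ∧ VPos v a}) :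
    ∃ (θ : Ω) (g : Polynomial Ω), g.Monic ∧ (∀ i, g.coeff i ∈ A) ∧ v.Ge 0 θ ∧ g.eval θ = 0 ∧
      g.derivative.eval θ ≠ 0 ∧ v (g.derivative.eval θ) = 0 ∧
      (∃ a ∈ Algebra.adjoin k ((A : Set Ω) ∪ F), ∃ b ∈ Algebra.adjoin k ((A : Set Ω) ∪ F),
        b ≠ 0 ∧ v b = 0 ∧ θ = a / b) ∧
      ∀ f ∈ Algebra.adjoin k ((A : Set Ω) ∪ F), ∃ a ∈ Algebra.adjoin k ((A : Set Ω) ∪ {θ}),
        ∃ b ∈ Algebra.adjoin k ((A : Set Ω) ∪ {θ}), b ≠ 0 ∧ v b = 0 ∧ f = a / b := by
  classical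
  set B : Subalgebra k Ω := Algebra.adjoin k ((A : Set Ω) ∪ F) with hBdef
  have hAB : A ≤ B := fun a ha => Algebra.subset_adjoin (Or.inl ha)
  let : Algebra A B := (Subalgebra.inclusion hAB).toRingHom.toAlgebra
  have : IsScalarTower A B Ω := IsScalarTower.of_algebraMap_eq fun a => rfl
  have : IsScalarTower k A B := IsScalarTower.of_algebraMap_eq fun a => rfl
  have : Algebra.FiniteType A B := by
    refine ⟨?_⟩
    rw [Subalgebra.fg_def]
    refine ⟨{b : B | (b : Ω) ∈ F}, F.finite_toSet.preimage Subtype.val_injective.injOn, ?_⟩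
    rw [eq_top_iff]
    rintro ⟨b, hb⟩ -
    have h1 : ∀ (b : Ω) (hb : b ∈ B), (⟨b, hb⟩ : B) ∈
        Algebra.adjoin A {b : B | (b : Ω) ∈ F} := by
      intro b hb
      induction hb using Algebra.adjoin_induction with
      | mem x hx =>
        rcases hx with hx | hx
        · exact Subalgebra.algebraMap_mem (Algebra.adjoin A {b : B | (b : Ω) ∈ F}) (⟨x, hx⟩ : A)
        · exact Algebra.subset_adjoin hx
      | algebraMap c =>
        exact Subalgebra.algebraMap_mem (Algebra.adjoin A {b : B | (b : Ω) ∈ F})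
          (algebraMap k A c)
      | add x y hx hy h1 h2 => exact add_mem h1 h2
      | mul x y hx hy h1 h2 => exact mul_mem h1 h2
    exact h1 b hb
  have hB' : ∀ b : B, v.Ge 0 (algebraMap B Ω b) := fun b => hB b b.2
  let q : Ideal B := ctrI v B hB'
  have : q.IsPrime := ctrI_isPrime hB'
  have hres : ∀ b : B, ∃ a : A, b - algebraMap A B a ∈ q := by
    intro b
    obtain ⟨c, hc⟩ := exists_res h (hB' b)
    exact ⟨algebraMap k A c, hc⟩
  have hgen' : ∀ b ∈ q, ∃ s ∉ q, s * b ∈ (q.under A).map (algebraMap A B) := by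
    rintro ⟨b, hb⟩ hbq
    obtain ⟨s, hs, hs0, hvs, hsb⟩ := hgen b hb hbq
    refine ⟨⟨s, hs⟩, fun hsq => ?_, ?_⟩
    · have := hsq hs0
      change 0 < v s at this
      rw [hvs] at this
      exact lt_irrefl _ this
    · have h1 : ∀ x ∈ Submodule.span B {a : Ω | a ∈ A ∧ VPos v a},
          ∃ y : B, (y : Ω) = x ∧ y ∈ (q.under A).map (algebraMap A B) := by
        intro x hx
        induction hx using Submodule.span_induction with
        | mem x hx =>
          exact ⟨algebraMap A B ⟨x, hx.1⟩, rfl, Ideal.mem_map_of_mem _ hx.2⟩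
        | zero => exact ⟨0, rfl, zero_mem _⟩
        | add x y _ _ hx hy =>
          obtain ⟨x', rfl, hx'⟩ := hx
          obtain ⟨y', rfl, hy'⟩ := hy
          exact ⟨x' + y', rfl, add_mem hx' hy'⟩
        | smul r x _ hx =>
          obtain ⟨x', rfl, hx'⟩ := hx
          exact ⟨r * x', rfl, Ideal.mul_mem_left _ _ hx'⟩
      obtain ⟨y, hy, hyq⟩ := h1 _ hsb
      have h2 : y = (⟨s, hs⟩ : B) * ⟨b, hb⟩ := Subtype.ext hy
      rwa [h2] at hyq
  have hne : ∀ b ∉ q, algebraMap B Ω b ≠ 0 := fun b hb => (val_of_not_vpos (hB' b) hb).1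
  obtain ⟨f, hf, θ, g, h', hg, h0, ⟨b1, m1, e1⟩, ⟨b2, m2, e2⟩, ⟨b3, m3, e3⟩, hall⟩ :=
    exists_theta (L := Ω) q hres hgen' hne
  obtain ⟨hf0, hvf⟩ := val_of_not_vpos (hB' f) hf
  have hfm : ∀ m : ℕ, algebraMap B Ω f ^ m ≠ 0 ∧ v (algebraMap B Ω f ^ m) = 0 := fun m =>
    ⟨pow_ne_zero m hf0, by rw [v.map_pow hf0, hvf, mul_zero]⟩
  have hθ : v.Ge 0 θ := by
    intro hθ0
    have h1 := hB' b1
    rw [← e1] at h1
    have h2 := h1 (mul_ne_zero hθ0 (hfm m1).1)
    rwa [v.map_mul hθ0 (hfm m1).1, (hfm m1).2, add_zero] at h2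
  have hD := val_of_mul (aeval_ge A hA hθ (derivative g)) (hB' b3) (hfm m3).1 (hfm m3).2 e3
  have hH := val_of_mul (aeval_ge A hA hθ h') (hB' b2) (hfm m2).1 (hfm m2).2 e2
  refine ⟨θ, g.map (algebraMap A Ω), hg.map _, ?_, hθ, ?_, ?_, ?_, ?_, ?_⟩
  · intro i
    rw [coeff_map]
    exact (g.coeff i).2
  · rw [eval_map_algebraMap]
    exact h0
  · rw [derivative_map, eval_map_algebraMap]
    exact hD.1
  · rw [derivative_map, eval_map_algebraMap]
    exact hD.2
  · refine ⟨b1, b1.2, (f : Ω) ^ m1, pow_mem f.2 m1, (hfm m1).1, (hfm m1).2, ?_⟩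
    exact (eq_div_iff (hfm m1).1).2 e1
  · intro b hb
    obtain ⟨a, m, ha⟩ := hall ⟨b, hb⟩
    refine ⟨aeval θ a, aeval_mem_adjoin A θ a, aeval θ h' ^ m,
      pow_mem (aeval_mem_adjoin A θ h') m, pow_ne_zero m hH.1, ?_, ?_⟩
    · rw [v.map_pow hH.1, hH.2, mul_zero]
    · rw [eq_div_iff (pow_ne_zero m hH.1)]
      exact ha

/-- Clearing the denominators. -/
theorem span_clear (B R : Subalgebra k Ω) (hfr : ∀ f ∈ R, ∃ a ∈ B, ∃ b ∈ B, b ≠ 0 ∧ v b = 0 ∧
    f = a / b) (T : Set Ω) : ∀ x ∈ Submodule.span R T, ∃ s ∈ B, s ≠ 0 ∧ v s = 0 ∧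
      s * x ∈ Submodule.span B T := by
  intro x hx
  induction hx using Submodule.span_induction with
  | mem x hx =>
    exact ⟨1, one_mem _, one_ne_zero, v.map_one, by
      rw [one_mul]; exact Submodule.subset_span hx⟩
  | zero =>
    exact ⟨1, one_mem _, one_ne_zero, v.map_one, by
      rw [mul_zero]; exact zero_mem _⟩
  | add x y _ _ hx hy =>
    obtain ⟨s, hs, hs0, hvs, h1⟩ := hx
    obtain ⟨t, ht, ht0, hvt, h2⟩ := hy
    refine ⟨s * t, mul_mem hs ht, mul_ne_zero hs0 ht0, ?_, ?_⟩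
    · rw [v.map_mul hs0 ht0, hvs, hvt, add_zero]
    · have h3 : s * t * (x + y) = t * (s * x) + s * (t * y) := by ring
      rw [h3]
      exact add_mem (Submodule.smul_mem _ (⟨t, ht⟩ : B) h1)
        (Submodule.smul_mem _ (⟨s, hs⟩ : B) h2)
  | smul r x _ hx =>
    obtain ⟨s, hs, hs0, hvs, h1⟩ := hx
    obtain ⟨a, ha, b, hb, hb0, hvb, hr⟩ := hfr r r.2
    refine ⟨b * s, mul_mem hb hs, mul_ne_zero hb0 hs0, ?_, ?_⟩
    · rw [v.map_mul hb0 hs0, hvb, hvs, add_zero]
    · have h3 : b * s * (r • x) = a * (s * x) := by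
        have h4 : r • x = (r : Ω) * x := rfl
        rw [h4, hr]
        field_simp
      rw [h3]
      exact Submodule.smul_mem _ (⟨a, ha⟩ : B) h1

/-- Gen + fgen + residue field `k`: `R` is the localisation of `A[θ]`, `θ` a simple root. -/
theorem exists_root_of_gen (h : Ctx0 k v n) (A R : Subalgebra k Ω) (hA : ∀ a ∈ A, v.Ge 0 a)
    (hAR : A ≤ R) (hR : ∀ f ∈ R, v.Ge 0 f) (hfg : ∃ F : Finset Ω, (∀ f ∈ F, f ∈ R) ∧
      ∀ f ∈ R, ∃ a ∈ Algebra.adjoin k ((A : Set Ω) ∪ F),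
        ∃ b ∈ Algebra.adjoin k ((A : Set Ω) ∪ F), b ≠ 0 ∧ v b = 0 ∧ f = a / b)
    (hgen : ∀ f ∈ R, VPos v f → f ∈ Submodule.span R {a : Ω | a ∈ A ∧ VPos v a}) :
    ∃ (θ : Ω) (g : Polynomial Ω), g.Monic ∧ (∀ i, g.coeff i ∈ A) ∧ v.Ge 0 θ ∧ g.eval θ = 0 ∧
      g.derivative.eval θ ≠ 0 ∧ v (g.derivative.eval θ) = 0 ∧
      (∃ a ∈ R, ∃ b ∈ R, b ≠ 0 ∧ v b = 0 ∧ θ = a / b) ∧
      ∀ f ∈ R, ∃ a ∈ Algebra.adjoin k ((A : Set Ω) ∪ {θ}),
        ∃ b ∈ Algebra.adjoin k ((A : Set Ω) ∪ {θ}), b ≠ 0 ∧ v b = 0 ∧ f = a / b := by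
  obtain ⟨F, hF, hfr⟩ := hfg
  have hBR : Algebra.adjoin k ((A : Set Ω) ∪ F) ≤ R := by
    rw [Algebra.adjoin_le_iff]
    rintro x (hx | hx)
    · exact hAR hx
    · exact hF x hx
  obtain ⟨θ, g, hg, hgA, hθ, h0, h1, h2, ⟨a0, ha0, b0, hb0, hb00, hvb0, hθe⟩, hall⟩ :=
    exists_simple_root h A hA F (fun b hb => hR b (hBR hb)) fun b hb hbv =>
      span_clear _ R hfr _ b (hgen b (hBR hb) hbv)
  refine ⟨θ, g, hg, hgA, hθ, h0, h1, h2, ⟨a0, hBR ha0, b0, hBR hb0, hb00, hvb0, hθe⟩,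
    fun f hf => ?_⟩
  obtain ⟨a, ha, b, hb, hb0, hvb, rfl⟩ := hfr f hf
  obtain ⟨c, hc, d, hd, hd0, hvd, rfl⟩ := hall a ha
  obtain ⟨c', hc', d', hd', hd0', hvd', rfl⟩ := hall b hb
  have hc0' : c' ≠ 0 := by rintro rfl; rw [zero_div] at hb0; exact hb0 rfl
  have hvc' : v c' = 0 := by
    rw [v.map_div hc0' hd0', hvd', sub_zero] at hvb
    exact hvb
  refine ⟨c * d', mul_mem hc hd', d * c', mul_mem hd hc', mul_ne_zero hd0 hc0', ?_, ?_⟩
  · rw [v.map_mul hd0 hc0', hvd, hvc', add_zero]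
  · rw [div_div_div_eq]

/-- Row W1. -/
theorem le_hz_of_gen (h : Ctx0 k v n) (A R : Subalgebra k Ω) (hA : ∀ a ∈ A, v.Ge 0 a)
    (hAR : A ≤ R) (hR : ∀ f ∈ R, v.Ge 0 f) (hfg : ∃ F : Finset Ω, (∀ f ∈ F, f ∈ R) ∧
      ∀ f ∈ R, ∃ a ∈ Algebra.adjoin k ((A : Set Ω) ∪ F),
        ∃ b ∈ Algebra.adjoin k ((A : Set Ω) ∪ F), b ≠ 0 ∧ v b = 0 ∧ f = a / b)
    (hgen : ∀ f ∈ R, VPos v f →
      f ∈ Submodule.span R {a : Ω | a ∈ A ∧ VPos v a}) : R ≤ Hz v A := by
  obtain ⟨θ, g, hg, hgA, hθ, h0, h1, h2, -, hall⟩ := exists_root_of_gen h A R hA hAR hR hfg hgen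
  have hθH : θ ∈ Hz v A := (hz_hcl v A).root g hg (fun i => le_hz v A (hgA i)) θ hθ h0 h1 h2
  have hle : Algebra.adjoin k ((A : Set Ω) ∪ {θ}) ≤ Hz v A := by
    rw [Algebra.adjoin_le_iff]
    rintro x (hx | hx)
    · exact le_hz v A hx
    · rw [Set.mem_singleton_iff] at hx
      rw [hx]
      exact hθH
  intro f hf
  obtain ⟨a, ha, b, hb, hb0, hvb, rfl⟩ := hall f hf
  rw [div_eq_mul_inv]
  exact mul_mem (hle ha) ((hz_hcl v A).inv b (hle hb) hb0 hvb)

end Pool.Agent.ALLY
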