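import Pool.Agent.Lib.ALLY.Loop
import Pool.Agent.Lib.ALLY.Icl
import Pool.Agent.Lib.ALLY.Den
import Pool.Agent.Lib.ALLY_h54.Amb

/-!
# Block Y any rank: the statement `YStmt` from the core `ycore`
-/

set_option autoImplicit false

open Polynomial

namespace Pool.Agent.ALLY

open Pool.Agent.TAO (OVal VPos Ctx0 CtxR)
open Pool.Agent.ALLO (locv icl ICl FR EmbAll)

universe u w

variable {k Ω : Type u} [Field k] [Field Ω] [Algebra k Ω] {𝕂 : Type w} [Field 𝕂] [LinearOrder 𝕂]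
  [IsStrictOrderedRing 𝕂] {v : OVal 𝕂 Ω} {n : ℕ} {D d r : ℕ}

namespace W5

theorem mem_locv {S : Subalgebra k Ω} {f : Ω} : f ∈ locv v S ↔ InLoc v S f := Iff.rfl

theorem le_locv (S : Subalgebra k Ω) : S ≤ locv v S := fun a ha =>
  ⟨a, ha, 1, S.one_mem, one_ne_zero, v.map_one, by rw [div_one]⟩

theorem locv_le {A B : Subalgebra k Ω} (h : A ≤ B) (hB : ∀ a ∈ B, a ≠ 0 → v a = 0 → a⁻¹ ∈ B) :
    locv v A ≤ B := by
  rintro f ⟨a, ha, b, hb, hb0, hvb, rfl⟩
  rw [div_eq_mul_inv]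
  exact mul_mem (h ha) (hB b (h hb) hb0 hvb)

theorem inFr_iff {B : Subalgebra k Ω} {a : Ω} :
    InFr B a ↔ a ∈ IntermediateField.adjoin k (B : Set Ω) := by
  rw [IntermediateField.mem_adjoin_iff_div, Algebra.adjoin_eq]
  constructor
  · rintro ⟨b, hb, c, hc, -, rfl⟩
    exact ⟨b, hb, c, hc, rfl⟩
  · rintro ⟨b, hb, c, hc, rfl⟩
    by_cases hc0 : c = 0
    · exact ⟨0, B.zero_mem, 1, B.one_mem, one_ne_zero, by rw [hc0, div_zero, zero_div]⟩
    · exact ⟨b, hb, c, hc, hc0, rfl⟩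

/-- The ring of an extension with the same parameters is in the henselization. -/
theorem same_le (h : Ctx0 k v n) {F F₁ : FR k v D} (hrat : F.Rat) (hs : F.Same F₁) :
    F₁.R ≤ F.rd.H := by
  have hP : F.rd.P ≤ F₁.R := by
    refine le_trans ?_ hs.le
    have h1 : F.R = locv v F.rd.P := hrat
    rw [h1]
    exact le_locv _
  have hχ : ∀ γ ∈ F.Γ, 0 ≤ γ → F.χ γ ∈ F.rd.P := fun γ hγ h0 => Trd.chi_mem F.rd hγ h0
  refine le_hz_of_gen h F.rd.P F₁.R (fun a ha => F.rd.nonneg h a (le_hz v _ ha)) hP F₁.nonneg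
    ?_ ?_
  · obtain ⟨T, hT⟩ := F₁.fgen
    refine ⟨T, fun f hf => ?_, fun f hf => ?_⟩
    · rw [hT]
      exact le_locv _ (Algebra.subset_adjoin (Or.inl hf))
    · rw [hT] at hf
      obtain ⟨a, ha, b, hb, hb0, hvb, rfl⟩ := hf
      have hle : Algebra.adjoin k ((T : Set Ω) ∪ F₁.χ '' {γ | γ ∈ F₁.Γ ∧ 0 ≤ γ}) ≤
          Algebra.adjoin k ((F.rd.P : Set Ω) ∪ (T : Set Ω)) := by
        refine Algebra.adjoin_le ?_
        rintro x (hx | ⟨γ, ⟨hγ, h0⟩, rfl⟩)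
        · exact Algebra.subset_adjoin (Or.inr hx)
        · have hγ' : γ ∈ F.Γ := by rw [← hs.Γ_eq]; exact hγ
          rw [hs.χ_eq γ hγ']
          exact Algebra.subset_adjoin (Or.inl (hχ γ hγ' h0))
      exact ⟨a, hle ha, b, hle hb, hb0, hvb, rfl⟩
  · intro f hf hf0
    obtain ⟨γ, hγ, hγ0, a, ha, b, hb, rfl⟩ := F₁.gen f hf hf0
    have hγ' : γ ∈ F.Γ := by rw [← hs.Γ_eq]; exact hγ
    rw [hs.χ_eq γ hγ', hs.y_eq]
    have hγχ : v (F.χ γ) = γ := F.χ_val γ hγ'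
    refine add_mem ?_ (sum_mem fun i _ => ?_)
    · have h1 : F.χ γ * a = (⟨a, ha⟩ : F₁.R) • F.χ γ := mul_comm _ _
      rw [h1]
      refine Submodule.smul_mem _ _ (Submodule.subset_span ⟨hχ γ hγ' hγ0.le, fun _ => ?_⟩)
      rw [hγχ]
      exact hγ0
    · have h1 : F.y i * b i = (⟨b i, hb i⟩ : F₁.R) • F.y i := mul_comm _ _
      rw [h1]
      exact Submodule.smul_mem _ _ (Submodule.subset_span ⟨Trd.y_mem F.rd i, fun _ => F.y_pos i⟩)

theorem ord_of (h : Ctx0 k v n) {F F₁ : FR k v D} (hrat : F.Rat) (hs : F.Same F₁) {f : Ω} {κ : 𝕂}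
    {M : ℕ} (hf : F₁.Ord f κ M) : F.rd.Ord f κ M := by
  obtain ⟨hκ, P, hP, hP0, e, he, γ, hγ, hγ0, a, ha, rfl⟩ := hf
  have hle := same_le h hrat hs
  have hκ' : κ ∈ F.Γ := by rw [← hs.Γ_eq]; exact hκ
  have hγ' : γ ∈ F.Γ := by rw [← hs.Γ_eq]; exact hγ
  refine ⟨hκ', P, hP, hP0, e, ?_, γ, hγ', hγ0, a, hle ha, ?_⟩
  · rw [FR.YI, hs.y_eq] at he
    have hh : F₁.R.toSubmodule ≤ F.rd.H.toSubmodule := fun x hx => hle hx
    have hh' : Submodule.span k (Set.range F.y) ^ (M + 1) * F₁.R.toSubmodule ≤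
        Submodule.span k (Set.range F.y) ^ (M + 1) * F.rd.H.toSubmodule := mul_le_mul' le_rfl hh
    exact hh' he
  · rw [hs.χ_eq κ hκ', hs.χ_eq γ hγ', hs.y_eq]
    rfl

/-- `S.K` is finitely generated. -/
theorem exists_gen_K (h : CtxR k v n r) (S : RD k v D) :
    ∃ F : Finset Ω, IntermediateField.adjoin k (F : Set Ω) = S.K := by
  classical
  obtain ⟨x, hx⟩ := W2.exists_co h S
  refine ⟨Finset.univ.image (Sum.elim x S.y), ?_⟩
  rw [W2.K_eq hx, Finset.coe_image, Finset.coe_univ, Set.image_univ]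

/-- The ring of the new frame: `S.K ∩ S'.H`. -/
def RR (S S' : RD k v D) : Subalgebra k Ω := S.K.toSubalgebra ⊓ S'.H

theorem mem_RR {S S' : RD k v D} {f : Ω} : f ∈ RR S S' ↔ f ∈ S.K ∧ f ∈ S'.H := Iff.rfl

theorem K_frac {S S' : RD k v D} (hle : S.Le S') : ∀ a ∈ S.K, InFr S'.H a := by
  have h1 : S.K ≤ IntermediateField.adjoin k (S'.H : Set Ω) :=
    Trd.K_le (fun γ hγ h0 => IntermediateField.subset_adjoin _ _
      (hle.H_le (Trd.P_le_H S (Trd.chi_mem S hγ h0))))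
      fun i => IntermediateField.subset_adjoin _ _ (hle.y_mem i)
  exact fun a ha => inFr_iff.2 (h1 ha)

theorem P_le_RR {S S' : RD k v D} (hle : S.Le S') : S'.P ≤ RR S S' := fun a ha =>
  ⟨hle.K_le (Trd.P_le_K S' a ha), Trd.P_le_H S' ha⟩

theorem P_le_RR' {S S' : RD k v D} (hle : S.Le S') : S.P ≤ RR S S' := fun a ha =>
  ⟨Trd.P_le_K S a ha, hle.H_le (Trd.P_le_H S ha)⟩

theorem RR_inv {S S' : RD k v D} : ∀ a ∈ RR S S', a ≠ 0 → v a = 0 → a⁻¹ ∈ RR S S' :=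
  fun a ha h0 h1 => ⟨S.K.inv_mem ha.1, (hz_hcl v S'.P).inv a ha.2 h0 h1⟩

/-- The new frame. -/
def mkFR [IsAlgClosed Ω] (h : CtxR k v n r) (hr : 0 < r) (S S' : RD k v D)
    (hS : Algebra.trdeg k S.K = r + D) (hle : S.Le S')
    (halg : ∀ g : Ω, IsAlgebraic (RR S S') g) : FR k v D where
  Γ := S'.Γ
  fg := S'.fg
  full := S'.full
  χ := S'.χ
  χ_ne := S'.χ_ne
  χ_add := S'.χ_add
  χ_val := S'.χ_val
  y := S'.y
  y_ne := S'.y_ne
  y_pos := S'.y_pos
  R := RR S S'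
  nonneg := fun f hf => S'.nonneg h.toCtx0 f hf.2
  loc := RR_inv
  χ_mem := fun γ hγ h0 => P_le_RR hle (Trd.chi_mem S' hγ h0)
  y_mem := fun i => P_le_RR hle (Trd.y_mem S' i)
  fgen := by
    classical
    have hS' : Algebra.trdeg k S'.K = r + D := by rw [hle.trdeg h.toCtx0, hS]
    obtain ⟨θ, hθK, hθH, -, h1, -, -⟩ := RD.icl_frame h hr S' hS' S.K hle.K_le (K_frac hle)
      (exists_gen_K h S)
    refine ⟨insert θ (Finset.univ.image S'.y), le_antisymm ?_ ?_⟩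
    · intro f hf
      obtain ⟨a, ha, b, hb, hb0, hvb, rfl⟩ := h1 f hf.1 hf.2
      have hle' : Algebra.adjoin k ((S'.P : Set Ω) ∪ {θ}) ≤ Algebra.adjoin k
          (((insert θ (Finset.univ.image S'.y) : Finset Ω) : Set Ω) ∪
            S'.χ '' {γ | γ ∈ S'.Γ ∧ 0 ≤ γ}) := by
        refine Algebra.adjoin_le ?_
        rintro x (hx | hx)
        · refine Algebra.adjoin_mono ?_ hx
          rintro y (hy | ⟨i, rfl⟩)
          · exact Or.inr hy
          · exact Or.inl (by simp)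
        · rw [Set.mem_singleton_iff] at hx
          subst hx
          exact Algebra.subset_adjoin (Or.inl (by simp))
      exact ⟨a, hle' ha, b, hle' hb, hb0, hvb, rfl⟩
    · refine locv_le (Algebra.adjoin_le ?_) RR_inv
      rintro x (hx | ⟨γ, ⟨hγ, h0⟩, rfl⟩)
      · rw [Finset.mem_coe, Finset.mem_insert, Finset.mem_image] at hx
        rcases hx with rfl | ⟨i, -, rfl⟩
        · exact ⟨hθK, hθH⟩
        · exact P_le_RR hle (Trd.y_mem S' i)
      · exact P_le_RR hle (Trd.chi_mem S' hγ h0)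
  gen := by
    have hS' : Algebra.trdeg k S'.K = r + D := by rw [hle.trdeg h.toCtx0, hS]
    obtain ⟨θ, -, -, -, -, -, h1⟩ := RD.icl_frame h hr S' hS' S.K hle.K_le (K_frac hle)
      (exists_gen_K h S)
    intro f hf hf0
    obtain ⟨γ, hγ, hγ0, a, haK, haH, b, hb, hfab⟩ := h1 f hf.1 hf.2 hf0
    exact ⟨γ, hγ, hγ0, a, ⟨haK, haH⟩, b, fun i => hb i, hfab⟩
  alg := halg

/-- Denominators. -/
def Dn (S S' : RD k v D) (c : Ω) : Prop :=
  ∃ a ∈ locv v S.P, ∃ b ∈ locv v S.P, S'.Mono b ∧ c = a / b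

theorem mono_one (S : RD k v D) : S.Mono 1 := ⟨one_ne_zero, by rw [v.map_one]; exact S.Γ.zero_mem, by
  rw [v.map_one, Trd.chi_zero, div_one]; exact S.H.one_mem⟩

theorem Dn.of_mem {S S' : RD k v D} {c : Ω} (hc : c ∈ locv v S.P) : Dn S S' c :=
  ⟨c, hc, 1, Subalgebra.one_mem _, mono_one S', by rw [div_one]⟩

theorem Dn.add {S S' : RD k v D} {c e : Ω} (hc : Dn S S' c) (he : Dn S S' e) :
    Dn S S' (c + e) := by
  obtain ⟨a, ha, b, hb, hbm, rfl⟩ := hc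
  obtain ⟨a', ha', b', hb', hbm', rfl⟩ := he
  exact ⟨a * b' + b * a', add_mem (mul_mem ha hb') (mul_mem hb ha'), b * b', mul_mem hb hb',
    hbm.mul hbm', div_add_div _ _ hbm.1 hbm'.1⟩

theorem Dn.mul {S S' : RD k v D} {c e : Ω} (hc : Dn S S' c) (he : Dn S S' e) :
    Dn S S' (c * e) := by
  obtain ⟨a, ha, b, hb, hbm, rfl⟩ := hc
  obtain ⟨a', ha', b', hb', hbm', rfl⟩ := he
  exact ⟨a * a', mul_mem ha ha', b * b', mul_mem hb hb', hbm.mul hbm', div_mul_div_comm _ _ _ _⟩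

theorem Dn.adjoin {S S' : RD k v D} {T : Set Ω} (hT : ∀ t ∈ T, Dn S S' t) {c : Ω}
    (hc : c ∈ Algebra.adjoin k T) : Dn S S' c := by
  induction hc using Algebra.adjoin_induction with
  | mem x hx => exact hT x hx
  | algebraMap c => exact Dn.of_mem (Subalgebra.algebraMap_mem _ c)
  | add x y _ _ hx hy => exact hx.add hy
  | mul x y _ _ hx hy => exact hx.mul hy

theorem Dn.div {S S' : RD k v D} {c e : Ω} (hc : Dn S S' c) (he : Dn S S' e)
    (he' : S'.Mono e) : Dn S S' (c / e) := by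
  obtain ⟨a, ha, b, hb, hbm, rfl⟩ := hc
  obtain ⟨a', ha', b', hb', hbm', rfl⟩ := he
  refine ⟨a * b', mul_mem ha hb', b * a', mul_mem hb ha', hbm.mul ?_, div_div_div_eq _ _ _ _⟩
  have h1 := he'.mul hbm'
  rwa [div_mul_cancel₀ _ hbm'.1] at h1

theorem dn_RR [IsAlgClosed Ω] (h : CtxR k v n r) (hr : 0 < r) (S S' : RD k v D)
    (hS : Algebra.trdeg k S.K = r + D) (hle : S.Le S') {f : Ω} (hf : f ∈ RR S S') :
    Dn S S' f := by
  have hS' : Algebra.trdeg k S'.K = r + D := by rw [hle.trdeg h.toCtx0, hS]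
  obtain ⟨θ, hθK, hθH, hint, h1, -, -⟩ := RD.icl_frame h hr S' hS' S.K hle.K_le (K_frac hle)
    (exists_gen_K h S)
  obtain ⟨Q, hQ, hQ0⟩ := hint
  obtain ⟨B, hB, hBm, hBθ⟩ := RD.den_of h S S' hS hle hθK (Q.map (algebraMap S'.P Ω))
    (hQ.map _) (fun i => by
      rw [coeff_map]
      exact le_locv _ (Q.coeff i).2) (by rw [eval_map]; exact hQ0)
  have hθ : Dn S S' θ := ⟨B * θ, hBθ, B, le_locv _ hB, hBm, by
    rw [mul_div_cancel_left₀ _ hBm.1]⟩
  have hP : ∀ g ∈ S'.P, Dn S S' g := fun g hg => by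
    obtain ⟨a, ha, b, hb, hbm, rfl⟩ := hle.den g hg
    exact ⟨a, le_locv _ ha, b, le_locv _ hb, hbm, rfl⟩
  have hA : ∀ c ∈ Algebra.adjoin k ((S'.P : Set Ω) ∪ {θ}), Dn S S' c := fun c hc =>
    Dn.adjoin (by
      rintro t (ht | ht)
      · exact hP t ht
      · rw [Set.mem_singleton_iff] at ht
        subst ht
        exact hθ) hc
  have hAH : Algebra.adjoin k ((S'.P : Set Ω) ∪ {θ}) ≤ S'.H := by
    refine Algebra.adjoin_le ?_
    rintro t (ht | ht)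
    · exact Trd.P_le_H S' ht
    · rw [Set.mem_singleton_iff] at ht
      subst ht
      exact hθH
  obtain ⟨a, ha, b, hb, hb0, hvb, rfl⟩ := h1 f hf.1 hf.2
  exact (hA a ha).div (hA b hb) (RD.Un.mono ⟨hAH hb, hb0, hvb⟩)

theorem P_sub_K {S : RD k v D} {a : Ω} (ha : a ∈ locv v S.P) : a ∈ S.K := by
  obtain ⟨b, hb, c, hc, -, -, rfl⟩ := ha
  exact S.K.div_mem (Trd.P_le_K S b hb) (Trd.P_le_K S c hc)

theorem mono_mkFR [IsAlgClosed Ω] (h : CtxR k v n r) (hr : 0 < r) (S S' : RD k v D)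
    (hS : Algebra.trdeg k S.K = r + D) (hle : S.Le S')
    (halg : ∀ g : Ω, IsAlgebraic (RR S S') g) {f : Ω} (hf : S'.Mono f) (hfK : f ∈ S.K) :
    (mkFR h hr S S' hS hle halg).Mono f := by
  obtain ⟨h0, h1, h2⟩ := hf
  have hχ : S'.χ (v f) ∈ S.K := hle.K_le (IntermediateField.subset_adjoin _ _ (Or.inl ⟨_, h1, rfl⟩))
  refine ⟨h0, h1, ⟨S.K.div_mem hfK hχ, h2⟩, div_ne_zero h0 (S'.χ_ne _ h1), ?_⟩
  change v (f / S'.χ (v f)) = 0
  rw [v.map_div h0 (S'.χ_ne _ h1), S'.χ_val _ h1, sub_self]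

/-- The new frame refines the rational frame `F`. -/
theorem le_mkFR [IsAlgClosed Ω] (h : CtxR k v n r) (hr : 0 < r) {F : FR k v D} (hrat : F.Rat)
    (S' : RD k v D) (hS : Algebra.trdeg k F.rd.K = r + D) (hle : F.rd.Le S')
    (halg : ∀ g : Ω, IsAlgebraic (RR F.rd S') g) : F.Le (mkFR h hr F.rd S' hS hle halg) where
  le := by
    have h1 : F.R = locv v F.rd.P := hrat
    rw [h1]
    exact locv_le (P_le_RR' hle) RR_inv
  Γ_le := hle.Γ_le
  χ_un := fun γ hγ => by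
    have hχ : F.χ γ ∈ F.rd.K := IntermediateField.subset_adjoin _ _ (Or.inl ⟨_, hγ, rfl⟩)
    have hγ' := hle.Γ_le γ hγ
    have hχ' : S'.χ γ ∈ F.rd.K :=
      hle.K_le (IntermediateField.subset_adjoin _ _ (Or.inl ⟨_, hγ', rfl⟩))
    refine ⟨⟨F.rd.K.div_mem hχ hχ', hle.χ_mono γ hγ⟩,
      div_ne_zero (F.χ_ne γ hγ) (S'.χ_ne γ hγ'), ?_⟩
    change v (F.χ γ / S'.χ γ) = 0
    rw [v.map_div (F.χ_ne γ hγ) (S'.χ_ne γ hγ'), F.χ_val γ hγ, S'.χ_val γ hγ', sub_self]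
  den := fun f hf => by
    obtain ⟨a, ha, b, hb, hbm, rfl⟩ := dn_RR h hr F.rd S' hS hle hf
    have h1 : F.R = locv v F.rd.P := hrat
    rw [h1]
    exact ⟨a, ha, b, hb, mono_mkFR h hr F.rd S' hS hle halg hbm (P_sub_K hb), rfl⟩

/-- A monomial in a field `N` is a monomial in the localised integral closure. -/
theorem monoIn_mkFR [IsAlgClosed Ω] (h : CtxR k v n r) (hr : 0 < r) (S S' : RD k v D)
    (hS : Algebra.trdeg k S.K = r + D) (hle : S.Le S')
    (halg : ∀ g : Ω, IsAlgebraic (RR S S') g) (N : IntermediateField k Ω) (hN : S.K ≤ N) {f : Ω}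
    (hfN : f ∈ N) (hf : S'.Mono f) :
    (mkFR h hr S S' hS hle halg).MonoIn (ICl v (RR S S') N) f := by
  classical
  obtain ⟨h0, h1, h2⟩ := hf
  refine ⟨h0, h1, ?_⟩
  change f / S'.χ (v f) ∈ ICl v (RR S S') N
  have hχ : S'.χ (v f) ∈ S.K := hle.K_le (IntermediateField.subset_adjoin _ _ (Or.inl ⟨_, h1, rfl⟩))
  set u : Ω := f / S'.χ (v f) with hu
  have huN : u ∈ N := N.div_mem hfN (hN hχ)
  have hS' : Algebra.trdeg k S'.K = r + D := by rw [hle.trdeg h.toCtx0, hS]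
  obtain ⟨T, hT⟩ := exists_gen_K h S
  set K : IntermediateField k Ω := IntermediateField.adjoin k ((insert u T : Finset Ω) : Set Ω)
    with hK
  have hSK : S.K ≤ K := by
    rw [← hT]
    exact IntermediateField.adjoin.mono _ _ _ (by
      rw [Finset.coe_insert]
      exact Set.subset_insert _ _)
  have huK : u ∈ K := IntermediateField.subset_adjoin _ _ (by simp)
  have hTK : ∀ t ∈ T, t ∈ S.K := fun t ht => by
    rw [← hT]
    exact IntermediateField.subset_adjoin _ _ ht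
  have hKN : K ≤ N := by
    rw [hK, IntermediateField.adjoin_le_iff, Finset.coe_insert, Set.insert_subset_iff]
    exact ⟨huN, fun t ht => hN (hTK t ht)⟩
  have hKfr : ∀ a ∈ K, InFr S'.H a := by
    have h3 : K ≤ IntermediateField.adjoin k (S'.H : Set Ω) := by
      rw [hK, IntermediateField.adjoin_le_iff, Finset.coe_insert, Set.insert_subset_iff]
      exact ⟨IntermediateField.subset_adjoin _ _ h2, fun t ht =>
        inFr_iff.1 (K_frac hle t (hTK t ht))⟩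
    exact fun a ha => inFr_iff.2 (h3 ha)
  obtain ⟨θ, -, -, -, -, h4, -⟩ := RD.icl_frame h hr S' hS' K (hle.K_le.trans hSK) hKfr
    ⟨insert u T, rfl⟩
  obtain ⟨b, c, hb, hc, hbi, hci, hc0, hvc, hubc⟩ := (h4 u huK).1 h2
  have hint : ∀ x : Ω, IsIntegral S'.P x → IsIntegral (RR S S') x := fun x hx => by
    let _ : Algebra S'.P (RR S S') := (Subalgebra.inclusion (P_le_RR hle)).toRingHom.toAlgebra
    have _ : IsScalarTower S'.P (RR S S') Ω := IsScalarTower.of_algebraMap_eq fun _ => rfl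
    exact hx.tower_top
  exact ⟨b, ⟨hKN hb, hint b hbi⟩, c, ⟨hKN hc, hint c hci⟩, hc0, hvc, hubc⟩

end W5

open W5

/-- The transcendence degree of the field of a rational frame. -/
theorem trdeg_rd (h : Ctx0 k v n) (F : FR k v D) (hrat : F.Rat) :
    Algebra.trdeg k F.rd.K = n := by
  have h1 : ∀ a ∈ F.R, a ∈ F.rd.K := fun a ha => by
    have h2 : F.R = locv v F.rd.P := hrat
    rw [h2] at ha
    exact P_sub_K ha
  have h3 := Trd.trdeg_eq (K := F.rd.K) (K' := (⊤ : IntermediateField k Ω)) le_top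
    fun a _ => Trd.isAlgebraic_of_sub h1 (F.alg a)
  rw [← h3, ← h.trdeg]
  exact (IntermediateField.topEquiv (F := k) (E := Ω)).trdeg_eq

/-- Block Y, any rank. -/
theorem yStmt_aux [IsAlgClosed Ω] [IsAlgClosed k] (p : ℕ) [Fact p.Prime] [CharP k p]
    (h : CtxR k v n r) (hr : 0 < r) (hn : n = r + D)
    (hE : ∀ d, D = d + 1 → EmbAll k 𝕂 (r + d)) (F F₁ : FR k v D) (hrat : F.Rat)
    (hs : F.Same F₁) (N : IntermediateField k Ω) (hN : ∀ f ∈ F₁.R, f ∈ N) (δ : Ω) (κ : 𝕂)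
    (M : ℕ) (hδ : F₁.Ord δ κ M) (hM : M < p) :
    ∃ F' : FR k v D, F.Le F' ∧ F'.MonoIn (ICl v F'.R N) δ := by
  have hS : Algebra.trdeg k F.rd.K = r + D := by
    rw [trdeg_rd h.toCtx0 F hrat, hn]
    push_cast
    rfl
  have hord := ord_of h.toCtx0 hrat hs hδ
  have hex : ∃ S' : RD k v D, F.rd.Le S' ∧ S'.Mono δ := by
    cases D with
    | zero => exact ⟨F.rd, RD.Le.refl _, ycore_zero h.toCtx0 F.rd hord⟩
    | succ d =>
      refine ycore p h hr (lusR_of_emb h hr (hE d rfl)) F.rd ?_ hord hM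
      rw [hS]
      push_cast
      rfl
  obtain ⟨S', hle, hm⟩ := hex
  have hP1 : F.rd.P ≤ F₁.R := by
    refine le_trans ?_ hs.le
    have h1 : F.R = locv v F.rd.P := hrat
    rw [h1]
    exact le_locv _
  have hKN : F.rd.K ≤ N := Trd.K_le (fun γ hγ h0 => hN _ (hP1 (Trd.chi_mem F.rd hγ h0)))
    fun i => hN _ (hP1 (Trd.y_mem F.rd i))
  have halg : ∀ g : Ω, IsAlgebraic (RR F.rd S') g := fun g => by
    have hFR : F.R ≤ RR F.rd S' := by
      have h1 : F.R = locv v F.rd.P := hrat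
      rw [h1]
      exact locv_le (P_le_RR' hle) RR_inv
    let _ : Algebra F.R (RR F.rd S') := (Subalgebra.inclusion hFR).toRingHom.toAlgebra
    have _ : IsScalarTower F.R (RR F.rd S') Ω := IsScalarTower.of_algebraMap_eq fun _ => rfl
    exact (F.alg g).extendScalars (Subalgebra.inclusion_injective hFR)
  have hδN : δ ∈ N := by
    obtain ⟨hκ, P, hP, hP0, e, he, γ, hγ, hγ0, a, ha, rfl⟩ := hδ
    have hκ' : κ ∈ F.Γ := by rw [← hs.Γ_eq]; exact hκ
    have h1 : F₁.χ κ ∈ N := by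
      rw [hs.χ_eq κ hκ']
      exact hKN (IntermediateField.subset_adjoin _ _ (Or.inl ⟨_, hκ', rfl⟩))
    refine N.mul_mem h1 (hN _ (add_mem (add_mem ?_ ?_) (mul_mem (F₁.χ_mem γ hγ hγ0.le) ha)))
    · rw [MvPolynomial.aeval_def, MvPolynomial.eval₂_eq']
      exact sum_mem fun m _ => mul_mem (Subalgebra.algebraMap_mem _ _)
        (prod_mem fun i _ => pow_mem (F₁.y_mem i) _)
    · have hspan : Submodule.span k (Set.range F₁.y) ≤ F₁.R.toSubmodule :=
        Submodule.span_le.2 (by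
          rintro _ ⟨i, rfl⟩
          exact F₁.y_mem i)
      have hpow : ∀ m, Submodule.span k (Set.range F₁.y) ^ m ≤ F₁.R.toSubmodule := fun m => by
        induction m with
        | zero =>
          rw [pow_zero, Submodule.one_le]
          exact F₁.R.one_mem
        | succ m ih =>
          rw [pow_succ]
          refine Submodule.mul_le.2 fun a ha b hb => ?_
          exact F₁.R.mul_mem (ih ha) (hspan hb)
      have h2 : F₁.YI (M + 1) ≤ F₁.R.toSubmodule :=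
        Submodule.mul_le.2 fun a ha b hb => F₁.R.mul_mem (hpow _ ha) hb
      exact h2 he
  exact ⟨mkFR h hr F.rd S' hS hle halg, le_mkFR h hr hrat S' hS hle halg,
    monoIn_mkFR h hr F.rd S' hS hle halg N hKN hδN hm⟩

/-- **Block Y, any rank.** -/
theorem yStmt (k : Type u) [Field k] [IsAlgClosed k] (𝕂 : Type w) [Field 𝕂] [LinearOrder 𝕂]
    [IsStrictOrderedRing 𝕂] (p : ℕ) [Fact p.Prime] [CharP k p] (n : ℕ)
    (hE : EmbAll k 𝕂 (n - 1)) : ALLO.YStmt k 𝕂 p n := by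
  intro Ω _ _ _ v r D h hr hn F F₁ hrat hs N hN δ κ M hδ hM
  refine yStmt_aux p h hr hn (fun d hd => ?_) F F₁ hrat hs N hN δ κ M hδ hM
  have h1 : n - 1 = r + d := by omega
  rwa [← h1]

end Pool.Agent.ALLY
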