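import Pool.Agent.Lib.ALLY.Defs

/-!
# PROJECT ALL, block Y, row H1: Hensel basics

* `exists_root`: a residue root which is simple lifts to a root in the algebraically closed `Ω`.
* `root_unique`: the lift is unique.
* `HCl.root'`: a subalgebra which is closed under simple roots of MONIC polynomials is closed under
  simple roots of all polynomials.
* `HCl.hensel`, `HCl.hensel'`: Hensel's lemma in `B`; `HCl.exists_pow_eq`: roots of units.
* `hz_nonneg`.
-/

set_option autoImplicit false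

open Polynomial

namespace Pool.Agent.ALLY

open Pool.Agent.TAO (OVal VPos Ctx0 CtxR)

universe u w

variable {k Ω : Type u} [Field k] [Field Ω] [Algebra k Ω] {𝕂 : Type w} [Field 𝕂] [LinearOrder 𝕂]
  [IsStrictOrderedRing 𝕂] {v : OVal 𝕂 Ω} {n D d : ℕ}

namespace Hb

/-! ### The valuation ring -/

/-- The valuation ring, as a subring. -/
def Ov (v : OVal 𝕂 Ω) : Subring Ω where
  carrier := {a | v.Ge 0 a}
  mul_mem' := fun ha hb => by simpa using ha.mul hb
  one_mem' := fun _ => v.map_one.ge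
  add_mem' := fun ha hb => ha.add hb
  zero_mem' := OVal.Ge.zero
  neg_mem' := fun ha => ha.neg

theorem mem_Ov {a : Ω} : a ∈ Ov v ↔ v.Ge 0 a := Iff.rfl

/-- The valuation ring, as a subalgebra. -/
def OvA (h : Ctx0 k v n) : Subalgebra k Ω where
  carrier := {a | v.Ge 0 a}
  mul_mem' := fun ha hb => by simpa using ha.mul hb
  add_mem' := fun ha hb => ha.add hb
  algebraMap_mem' := fun c h0 => (h.triv c (by rintro rfl; exact h0 (map_zero _))).ge

theorem mem_OvA (h : Ctx0 k v n) {a : Ω} : a ∈ OvA h ↔ v.Ge 0 a := Iff.rfl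

theorem hcl_OvA (h : Ctx0 k v n) : HCl v (OvA h) where
  inv := fun a _ h0 h1 _ => by rw [v.map_inv h0, h1, neg_zero]
  root := fun _ _ _ _ ha _ _ _ => ha

theorem vpos_congr {a b : Ω} (hab : VPos v (a - b)) (hb : b ≠ 0) (hvb : v b = 0) :
    a ≠ 0 ∧ v a = 0 := by
  have := TAO.val_add_vpos hb hvb hab
  rwa [add_sub_cancel] at this

theorem ge_of_vpos_sub {a b : Ω} (hab : VPos v (a - b)) (hb : v.Ge 0 b) : v.Ge 0 a := by
  have := hab.ge.add hb
  rwa [sub_add_cancel] at this

theorem vpos_sub_comm {a b : Ω} (hab : VPos v (a - b)) : VPos v (b - a) := by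
  have := hab.neg
  rwa [neg_sub] at this

theorem vpos_pow_sub_one {a : Ω} (ha : VPos v (a - 1)) (m : ℕ) : VPos v (a ^ m - 1) := by
  have hg : v.Ge 0 a := ge_of_vpos_sub ha (mem_Ov.1 (Ov v).one_mem)
  induction m with
  | zero => rw [pow_zero, sub_self]; exact VPos.zero
  | succ m ih =>
    have h1 : a ^ (m + 1) - 1 = (a ^ m - 1) * a + (a - 1) := by ring
    rw [h1]
    exact (ih.mul hg).add ha

theorem vpos_inv_sub_one {a : Ω} (ha : VPos v (a - 1)) : VPos v (a⁻¹ - 1) := by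
  obtain ⟨h0, h1⟩ := vpos_congr ha one_ne_zero v.map_one
  have h2 : a⁻¹ - 1 = -((a - 1) * a⁻¹) := by field_simp; ring
  rw [h2]
  refine (ha.mul fun _ => ?_).neg
  rw [v.map_inv h0, h1, neg_zero]

/-- Polynomials with coefficients in a subring come from it. -/
theorem exists_lift (S : Subring Ω) (P : Polynomial Ω) (hP : ∀ i, P.coeff i ∈ S) :
    ∃ Q : S[X], Q.map S.subtype = P := by
  have h1 : P ∈ Polynomial.lifts S.subtype := by
    rw [Polynomial.lifts_iff_coeff_lifts]
    intro i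
    exact ⟨⟨_, hP i⟩, rfl⟩
  rw [Polynomial.mem_lifts] at h1
  exact h1

/-- Taylor's formula with remainder of value `≥ 0`. -/
theorem taylor_two {P : Polynomial Ω} (hP : ∀ i, v.Ge 0 (P.coeff i)) {a b : Ω} (ha : v.Ge 0 a)
    (hb : v.Ge 0 b) : ∃ r : Ω, v.Ge 0 r ∧
      P.eval b = P.eval a + P.derivative.eval a * (b - a) + r * (b - a) ^ 2 := by
  obtain ⟨Q, rfl⟩ := exists_lift (Ov v) P hP
  have ha' : a ∈ Ov v := ha
  have hb' : b ∈ Ov v := hb
  obtain ⟨r, hr⟩ := Q.binomExpansion ⟨a, ha'⟩ (⟨b, hb'⟩ - ⟨a, ha'⟩)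
  refine ⟨r, r.2, ?_⟩
  have h1 := congrArg (Ov v).subtype hr
  rw [add_sub_cancel] at h1
  simp only [map_add, map_mul, map_pow, map_sub, ← Polynomial.eval₂_hom] at h1
  rw [Polynomial.eval_map, Polynomial.derivative_map, Polynomial.eval_map, Polynomial.eval_map]
  exact h1

theorem eval_sub_vpos {P : Polynomial Ω} (hP : ∀ i, v.Ge 0 (P.coeff i)) {a b : Ω} (ha : v.Ge 0 a)
    (hab : VPos v (b - a)) : VPos v (P.eval b - P.eval a) := by
  have hb : v.Ge 0 b := ge_of_vpos_sub hab ha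
  obtain ⟨Q, rfl⟩ := exists_lift (Ov v) P hP
  have ha' : a ∈ Ov v := ha
  have hb' : b ∈ Ov v := hb
  obtain ⟨r, hr⟩ := Q.sub_dvd_eval_sub ⟨b, hb'⟩ ⟨a, ha'⟩
  have h1 := congrArg (Ov v).subtype hr
  simp only [map_mul, map_sub, ← Polynomial.eval₂_hom] at h1
  rw [Polynomial.eval_map, Polynomial.eval_map]
  have h2 : (b - a) * (r : Ω) = eval₂ (Ov v).subtype b Q - eval₂ (Ov v).subtype a Q := h1.symm
  rw [← h2]
  exact hab.mul r.2

theorem derivative_ge {P : Polynomial Ω} (hP : ∀ i, v.Ge 0 (P.coeff i)) (i : ℕ) :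
    v.Ge 0 (P.derivative.coeff i) := by
  obtain ⟨Q, rfl⟩ := exists_lift (Ov v) P hP
  rw [Polynomial.derivative_map, Polynomial.coeff_map]
  exact (Q.derivative.coeff i).2

theorem eval_ge {P : Polynomial Ω} (hP : ∀ i, v.Ge 0 (P.coeff i)) {a : Ω} (ha : v.Ge 0 a) :
    v.Ge 0 (P.eval a) := by
  obtain ⟨Q, rfl⟩ := exists_lift (Ov v) P hP
  have ha' : a ∈ Ov v := ha
  have h1 : (Q.map (Ov v).subtype).eval a = ((Q.eval ⟨a, ha'⟩ : Ov v) : Ω) := by
    rw [Polynomial.eval_map]
    exact (Polynomial.eval₂_hom (Ov v).subtype (⟨a, ha'⟩ : Ov v))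
  rw [h1]
  exact (Q.eval ⟨a, ha'⟩).2

/-- The derivative is a unit near a point where it is one. -/
theorem derivative_unit {P : Polynomial Ω} (hP : ∀ i, v.Ge 0 (P.coeff i)) {a c : Ω} (hc : v.Ge 0 c)
    (hac : VPos v (a - c)) (h1 : P.derivative.eval c ≠ 0) (h2 : v (P.derivative.eval c) = 0) :
    P.derivative.eval a ≠ 0 ∧ v (P.derivative.eval a) = 0 :=
  vpos_congr (eval_sub_vpos (derivative_ge hP) hc hac) h1 h2

/-- Simple roots with the same residue are equal. -/
theorem root_unique {P : Polynomial Ω} (hP : ∀ i, v.Ge 0 (P.coeff i)) {a b : Ω} (ha : v.Ge 0 a)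
    (hab : VPos v (a - b)) (h0 : P.eval a = 0) (h0' : P.eval b = 0)
    (h1 : P.derivative.eval a ≠ 0) (h2 : v (P.derivative.eval a) = 0) : a = b := by
  have hba := vpos_sub_comm hab
  obtain ⟨r, hr, h3⟩ := taylor_two hP ha (ge_of_vpos_sub hba ha)
  rw [h0, h0', zero_add] at h3
  have h4 : (b - a) * (P.derivative.eval a + r * (b - a)) = 0 := by
    rw [h3]; ring
  have h5 := (TAO.val_add_vpos h1 h2 (hba.mul' hr)).1
  rcases mul_eq_zero.1 h4 with h6 | h6
  · exact (sub_eq_zero.1 h6).symm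
  · exact absurd h6 h5

/-! ### Roots in the algebraically closed field -/

/-- If `Q` has no root of positive value then its constant coefficient has the smallest value. -/
theorem coeff_ge_of_no_root [IsAlgClosed Ω] {Q : Polynomial Ω} (h0 : Q.coeff 0 ≠ 0)
    (hr : ∀ t : Ω, Q.eval t = 0 → v t ≤ 0) (i : ℕ) :
    v.Ge 0 (Q.coeff i / Q.coeff 0) := by
  have hQ : Q ≠ 0 := by rintro rfl; exact h0 (coeff_zero 0)
  have hsp := IsAlgClosed.splits Q
  have h1 : Q = C Q.leadingCoeff * (Q.roots.map fun t => X - C t).prod :=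
    hsp.eq_prod_roots
  have ht0 : ∀ t ∈ Q.roots, t ≠ 0 := by
    rintro t ht rfl
    rw [mem_roots hQ, IsRoot.def, ← coeff_zero_eq_eval_zero] at ht
    exact h0 ht
  -- factor the roots out
  have h2 : ∀ s : Multiset Ω, (∀ t ∈ s, t ≠ 0) →
      (s.map fun t => X - C t).prod =
        C ((s.map fun t => -t).prod) * (s.map fun t => 1 - C t⁻¹ * X).prod := by
    intro s hs
    induction s using Multiset.induction_on with
    | empty => simp
    | cons t s ih =>
      rw [Multiset.map_cons, Multiset.prod_cons, Multiset.map_cons, Multiset.prod_cons,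
        Multiset.map_cons, Multiset.prod_cons, ih fun t ht => hs t (Multiset.mem_cons_of_mem ht)]
      have ht := hs t (Multiset.mem_cons_self t s)
      have h3 : (X - C t : Polynomial Ω) = C (-t) * (1 - C t⁻¹ * X) := by
        rw [mul_sub, ← mul_assoc, ← C_mul, neg_mul, mul_inv_cancel₀ ht]
        simp only [mul_one, C_neg, C_1, neg_mul, one_mul]
        ring
      rw [h3, C_mul]
      ring
  rw [h2 Q.roots ht0, ← mul_assoc, ← C_mul] at h1
  set R : Polynomial Ω := (Q.roots.map fun t => 1 - C t⁻¹ * X).prod with hR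
  set c := Q.leadingCoeff * (Q.roots.map fun t => -t).prod with hc
  have h3 : R ∈ Polynomial.lifts (Ov v).subtype := by
    refine Subsemiring.multiset_prod_mem _ _ ?_
    intro q hq
    obtain ⟨t, ht, rfl⟩ := Multiset.mem_map.1 hq
    have h4 : t⁻¹ ∈ Ov v := by
      intro _
      rw [v.map_inv (ht0 t ht)]
      have := hr t (by
        have := (mem_roots hQ).1 ht
        exact this)
      linarith
    refine (Polynomial.mem_lifts _).2 ⟨1 - C ⟨t⁻¹, h4⟩ * X, ?_⟩
    simp
  have h4 : R.coeff 0 = 1 := by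
    rw [coeff_zero_eq_eval_zero, hR, Polynomial.eval_multiset_prod, Multiset.map_map]
    refine Multiset.prod_eq_one ?_
    intro q hq
    obtain ⟨t, -, rfl⟩ := Multiset.mem_map.1 hq
    simp
  have h5 : Q.coeff 0 = c := by
    rw [h1, coeff_C_mul, h4, mul_one]
  have h6 : Q.coeff i / Q.coeff 0 = R.coeff i := by
    rw [h5, h1, coeff_C_mul, mul_div_assoc, ← h5]
    rw [mul_div_cancel₀ _ h0]
  rw [h6]
  rw [Polynomial.lifts_iff_coeff_lifts] at h3
  obtain ⟨r, hr'⟩ := h3 i
  rw [← hr']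
  exact r.2

/-- Hensel's lemma in the algebraically closed field. -/
theorem exists_root [IsAlgClosed Ω] {P : Polynomial Ω} {c : Ω}
    (h0 : VPos v (P.eval c)) (h1 : P.derivative.eval c ≠ 0)
    (h2 : v (P.derivative.eval c) = 0) : ∃ a : Ω, P.eval a = 0 ∧ VPos v (a - c) := by
  by_cases h3 : P.eval c = 0
  · exact ⟨c, h3, by rw [sub_self]; exact VPos.zero⟩
  by_contra hcon
  push Not at hcon
  set Q := taylor c P with hQ
  have hq0 : Q.coeff 0 = P.eval c := by rw [hQ, taylor_coeff_zero]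
  have hq1 : Q.coeff 1 = P.derivative.eval c := by rw [hQ, taylor_coeff_one]
  have h4 := coeff_ge_of_no_root (v := v) (Q := Q) (by rw [hq0]; exact h3) (fun t ht => by
    have h5 : P.eval (t + c) = 0 := by
      rw [hQ, taylor_eval] at ht
      exact ht
    have h6 := hcon (t + c) h5
    rw [add_sub_cancel_right] at h6
    unfold VPos at h6
    push Not at h6
    exact h6.2) 1
  rw [hq0, hq1] at h4
  have h5 := h4 (div_ne_zero h1 h3)
  rw [v.map_div h1 h3, h2] at h5
  have := h0 h3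
  linarith

/-! ### Closure under simple roots of non-monic polynomials -/

theorem exists_residue (h : Ctx0 k v n) {a : Ω} (ha : v.Ge 0 a) :
    ∃ c : k, VPos v (a - algebraMap k Ω c) := by
  by_cases h0 : a = 0
  · exact ⟨0, by rw [h0, map_zero, sub_zero]; exact VPos.zero⟩
  rcases (ha h0).lt_or_eq with h1 | h1
  · exact ⟨0, by rw [map_zero, sub_zero]; exact fun _ => h1⟩
  · obtain ⟨c, -, hc⟩ := h.res a h0 h1.symm
    exact ⟨c, hc⟩

end Hb

open Hb

/-- Simple roots of positive value. -/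
theorem HCl.root_pos {B : Subalgebra k Ω} (hB : HCl v B) (hB0 : ∀ b ∈ B, v.Ge 0 b)
    (Q : Polynomial Ω) (hQ : ∀ i, Q.coeff i ∈ B) (a : Ω) (ha : VPos v a) (h0 : Q.eval a = 0)
    (h1 : Q.derivative.eval a ≠ 0) (h2 : v (Q.derivative.eval a) = 0) : a ∈ B := by
  have hQ0 : ∀ i, v.Ge 0 (Q.coeff i) := fun i => hB0 _ (hQ i)
  set q := Q.coeff with hq
  -- `Q = q 0 + X (q 1 + X R)`
  obtain ⟨R, hR, hQR⟩ : ∃ R : Polynomial Ω, (∀ i, v.Ge 0 (R.coeff i)) ∧
      Q = C (q 0) + X * (C (q 1) + X * R) := by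
    refine ⟨Q.divX.divX, fun i => ?_, ?_⟩
    · rw [coeff_divX, coeff_divX]
      exact hQ0 _
    · have e1 := Q.divX_mul_X_add
      have e2 := Q.divX.divX_mul_X_add
      rw [coeff_divX, zero_add] at e2
      conv_lhs => rw [← e1, ← e2]
      ring
  have hr0 : v.Ge 0 (R.eval a) := eval_ge hR ha.ge
  have hev : q 0 + a * (q 1 + a * R.eval a) = 0 := by
    have := h0
    rw [hQR] at this
    simpa using this
  have hdv : Q.derivative.eval a = q 1 + a * (2 * R.eval a + a * R.derivative.eval a) := by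
    rw [hQR]
    simp only [derivative_add, derivative_C, derivative_mul, derivative_X, eval_add, eval_mul,
      eval_X, eval_C, zero_add, one_mul]
    ring
  have h2Ge : v.Ge 0 (2 : Ω) := by
    have := (Ov v).add_mem (Ov v).one_mem (Ov v).one_mem
    rw [one_add_one_eq_two] at this
    exact this
  have hq1 : q 1 ≠ 0 ∧ v (q 1) = 0 := by
    refine vpos_congr ?_ h1 h2
    rw [hdv]
    have e : q 1 - (q 1 + a * (2 * R.eval a + a * R.derivative.eval a)) =
        -(a * (2 * R.eval a + a * R.derivative.eval a)) := by ring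
    rw [e]
    refine (ha.mul ?_).neg
    have e1 : v.Ge 0 (2 * R.eval a) := by simpa using h2Ge.mul hr0
    have e2 : v.Ge 0 (a * R.derivative.eval a) := by
      simpa using ha.ge.mul (eval_ge (derivative_ge hR) ha.ge)
    exact e1.add e2
  by_cases ha0 : a = 0
  · rw [ha0]; exact B.zero_mem
  -- `w = 1 + a R(a) / q 1`
  set w : Ω := 1 + a * R.eval a / q 1 with hw
  have hw1 : VPos v (w - 1) := by
    rw [hw, add_sub_cancel_left, mul_div_assoc]
    refine ha.mul fun h3 => ?_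
    have h4 : R.eval a ≠ 0 := fun h5 => h3 (by rw [h5, zero_div])
    rw [v.map_div h4 hq1.1, hq1.2, sub_zero]
    exact hr0 h4
  obtain ⟨hw0, hvw⟩ := vpos_congr hw1 one_ne_zero v.map_one
  have hq0w : q 0 = -(a * (q 1 * w)) := by
    have e : q 1 * w = q 1 + a * R.eval a := by
      rw [hw]; field_simp [hq1.1]
    rw [e]
    linear_combination hev
  have hq00 : q 0 ≠ 0 := by
    rw [hq0w]
    exact neg_ne_zero.2 (mul_ne_zero ha0 (mul_ne_zero hq1.1 hw0))
  have hq0p : VPos v (q 0) := by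
    rw [hq0w]
    refine (ha.mul ?_).neg
    intro _
    rw [v.map_mul hq1.1 hw0, hq1.2, hvw, add_zero]
  have haw : a = -(q 0 * (q 1)⁻¹ * w⁻¹) := by
    rw [hq0w]
    field_simp [hq1.1]
  have hinv : (q 1)⁻¹ ∈ B := hB.inv _ (hQ 1) hq1.1 hq1.2
  -- it is enough to show `w ∈ B`
  suffices hwB : w ∈ B by
    rw [haw]
    exact B.neg_mem (B.mul_mem (B.mul_mem (hQ 0) hinv) (hB.inv w hwB hw0 hvw))
  set N := Q.natDegree with hN
  have hN1 : 1 ≤ N := by
    by_contra hlt
    have h3 : N = 0 := by omega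
    have h4 : q 1 = 0 := by
      rw [hq]
      exact coeff_eq_zero_of_natDegree_lt (by omega)
    exact hq1.1 h4
  -- the coefficients
  set e : ℕ → Ω := fun i => q (i + 1) * q 0 ^ i * (-(q 1)⁻¹) ^ (i + 1) with he
  have heB : ∀ i, e i ∈ B := fun i =>
    B.mul_mem (B.mul_mem (hQ _) (B.pow_mem (hQ 0) _)) (B.pow_mem (B.neg_mem hinv) _)
  have he0 : e 0 = -1 := by
    rw [he]
    simp only [zero_add, pow_zero, mul_one, pow_one, mul_neg]
    rw [mul_inv_cancel₀ hq1.1]
  have hep : ∀ i, 1 ≤ i → VPos v (e i) := by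
    intro i hi
    obtain ⟨j, rfl⟩ := Nat.exists_eq_add_of_le' hi
    have e1 : e (j + 1) = q 0 * (q (j + 1 + 1) * q 0 ^ j * (-(q 1)⁻¹) ^ (j + 1 + 1)) := by
      rw [he]; ring
    rw [e1]
    exact hq0p.mul (hB0 _ (B.mul_mem (B.mul_mem (hQ _) (B.pow_mem (hQ 0) _))
      (B.pow_mem (B.neg_mem hinv) _)))
  set M : Polynomial Ω := X ^ N + ∑ i ∈ Finset.range N, C (e i) * X ^ (N - 1 - i) with hM
  have hMm : M.Monic := by
    refine monic_X_pow_add ?_
    refine (degree_sum_le _ _).trans_lt ?_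
    rw [Finset.sup_lt_iff (by exact_mod_cast WithBot.bot_lt_coe N)]
    intro i hi
    refine (degree_C_mul_X_pow_le _ _).trans_lt ?_
    rw [Finset.mem_range] at hi
    exact_mod_cast (show N - 1 - i < N by omega)
  have hMB : ∀ i, M.coeff i ∈ B := by
    intro i
    rw [hM, coeff_add, finsetSum_coeff, coeff_X_pow]
    refine B.add_mem ?_ (B.sum_mem fun j _ => ?_)
    · split_ifs
      · exact B.one_mem
      · exact B.zero_mem
    · rw [coeff_C_mul, coeff_X_pow]
      split_ifs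
      · rw [mul_one]; exact heB j
      · rw [mul_zero]; exact B.zero_mem
  have hM0 : M.eval w = 0 := by
    have e1 : M.eval w = w ^ N * (1 + ∑ i ∈ Finset.range N, e i * w⁻¹ ^ (i + 1)) := by
      rw [hM, eval_add, eval_finsetSum, mul_add, mul_one, Finset.mul_sum]
      congr 1
      · simp
      · refine Finset.sum_congr rfl fun i hi => ?_
        rw [Finset.mem_range] at hi
        rw [eval_mul, eval_C, eval_pow, eval_X]
        have e2 : w ^ N = w ^ (N - 1 - i) * w ^ (i + 1) := by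
          rw [← pow_add]; congr 1; omega
        rw [e2, inv_pow]
        field_simp
    have e2 : q 0 * (1 + ∑ i ∈ Finset.range N, e i * w⁻¹ ^ (i + 1)) = Q.eval a := by
      rw [eval_eq_sum_range, ← hN, Finset.sum_range_succ', mul_add, mul_one, Finset.mul_sum,
        add_comm]
      congr 1
      · refine Finset.sum_congr rfl fun i _ => ?_
        rw [haw, he]
        simp only
        change q 0 * (q (i + 1) * q 0 ^ i * (-(q 1)⁻¹) ^ (i + 1) * w⁻¹ ^ (i + 1)) =
          q (i + 1) * (-(q 0 * (q 1)⁻¹ * w⁻¹)) ^ (i + 1)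
        have e3 : -(q 0 * (q 1)⁻¹ * w⁻¹) = q 0 * (-(q 1)⁻¹) * w⁻¹ := by ring
        rw [e3, mul_pow, mul_pow, pow_succ (q 0)]
        ring
      · rw [pow_zero, mul_one]
    rw [h0] at e2
    rw [e1]
    rcases mul_eq_zero.1 e2 with h3 | h3
    · exact absurd h3 hq00
    · rw [h3, mul_zero]
  have hMd : VPos v (M.derivative.eval w - 1) := by
    have hnat : ∀ m : ℕ, v.Ge 0 (m : Ω) := fun m => natCast_mem (Ov v) m
    obtain ⟨N', hN'⟩ := Nat.exists_eq_add_of_le' hN1
    have e1 : M.derivative.eval w = (N : Ω) * w ^ (N - 1) +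
        ∑ i ∈ Finset.range N, e i * (((N - 1 - i : ℕ) : Ω) * w ^ (N - 1 - i - 1)) := by
      rw [hM, derivative_add, derivative_sum, eval_add, eval_finsetSum]
      congr 1
      · rw [derivative_X_pow, eval_mul, eval_C, eval_pow, eval_X]
      · refine Finset.sum_congr rfl fun i _ => ?_
        rw [derivative_C_mul_X_pow, eval_mul, eval_C, eval_pow, eval_X, mul_assoc]
    have e2 : M.derivative.eval w - 1 = (N : Ω) * (w ^ (N - 1) - 1) -
        (N' : Ω) * (w ^ (N - 1 - 1) - 1) +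
        ∑ i ∈ Finset.range N', e (i + 1) * (((N - 1 - (i + 1) : ℕ) : Ω) *
          w ^ (N - 1 - (i + 1) - 1)) := by
      rw [e1]
      conv_lhs => rw [hN', Finset.sum_range_succ']
      rw [he0]
      have e3 : ((N' + 1 - 1 - 0 : ℕ) : Ω) = N' := by simp
      rw [e3, hN']
      push_cast
      simp only [Nat.sub_zero]
      ring
    rw [e2]
    have hwg : v.Ge 0 w := ge_of_vpos_sub hw1 (Ov v).one_mem
    refine VPos.add (VPos.sub (VPos.mul' (hnat _) (vpos_pow_sub_one hw1 _))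
      (VPos.mul' (hnat _) (vpos_pow_sub_one hw1 _))) ?_
    have hsum : ∀ s : Finset ℕ, VPos v (∑ i ∈ s, e (i + 1) * (((N - 1 - (i + 1) : ℕ) : Ω) *
        w ^ (N - 1 - (i + 1) - 1))) := by
      intro s
      classical
      induction s using Finset.induction_on with
      | empty => rw [Finset.sum_empty]; exact VPos.zero
      | insert i s hi ih =>
        rw [Finset.sum_insert hi]
        exact ((hep _ (Nat.succ_le_succ (Nat.zero_le i))).mul
          ((Ov v).mul_mem (natCast_mem (Ov v) _) ((Ov v).pow_mem hwg _))).add ih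
    exact hsum _
  obtain ⟨h3, h4⟩ := vpos_congr hMd one_ne_zero v.map_one
  exact hB.root M hMm hMB w (ge_of_vpos_sub hw1 (Ov v).one_mem) hM0 h3 h4

/-- Simple roots of arbitrary polynomials. -/
theorem HCl.root' (h : Ctx0 k v n) {B : Subalgebra k Ω} (hB : HCl v B)
    (hB0 : ∀ b ∈ B, v.Ge 0 b) (P : Polynomial Ω) (hP : ∀ i, P.coeff i ∈ B) (a : Ω)
    (ha : v.Ge 0 a) (h0 : P.eval a = 0) (h1 : P.derivative.eval a ≠ 0)
    (h2 : v (P.derivative.eval a) = 0) : a ∈ B := by
  obtain ⟨c, hc⟩ := exists_residue h ha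
  have hcB : algebraMap k Ω c ∈ B := B.algebraMap_mem c
  obtain ⟨P', rfl⟩ := exists_lift B.toSubring P hP
  set c' : B.toSubring := ⟨algebraMap k Ω c, hcB⟩ with hc'
  have h3 : ∀ i, ((P'.map B.toSubring.subtype).comp (X + C (algebraMap k Ω c))).coeff i ∈ B := by
    intro i
    have e : (P'.map B.toSubring.subtype).comp (X + C (algebraMap k Ω c)) =
        (P'.comp (X + C c')).map B.toSubring.subtype := by
      rw [Polynomial.map_comp, Polynomial.map_add, Polynomial.map_X, Polynomial.map_C]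
      rfl
    rw [e, coeff_map]
    exact ((P'.comp (X + C c')).coeff i).2
  have h4 := hB.root_pos hB0 _ h3 (a - algebraMap k Ω c) hc (by
    rw [eval_comp]; simpa using h0) (by
    rw [derivative_comp]; simpa using h1) (by
    rw [derivative_comp]; simpa using h2)
  have := B.add_mem h4 hcB
  rwa [sub_add_cancel] at this

/-- A simple residue root lifts to a root in the algebraically closed field. -/
theorem exists_root [IsAlgClosed Ω] (_ : Ctx0 k v n) (P : Polynomial Ω)
    (hP : ∀ i, v.Ge 0 (P.coeff i)) (c : Ω) (hc : v.Ge 0 c) (h0 : VPos v (P.eval c))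
    (h1 : P.derivative.eval c ≠ 0) (h2 : v (P.derivative.eval c) = 0) :
    ∃ a : Ω, P.eval a = 0 ∧ VPos v (a - c) ∧ P.derivative.eval a ≠ 0 ∧
      v (P.derivative.eval a) = 0 := by
  obtain ⟨a, ha, hac⟩ := Hb.exists_root h0 h1 h2
  exact ⟨a, ha, hac, derivative_unit hP hc hac h1 h2⟩

/-- The lift is unique. -/
theorem root_unique (_ : Ctx0 k v n) (P : Polynomial Ω) (hP : ∀ i, v.Ge 0 (P.coeff i)) (a b : Ω)
    (ha : v.Ge 0 a) (h0 : P.eval a = 0) (h0' : P.eval b = 0) (hab : VPos v (a - b))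
    (h1 : P.derivative.eval a ≠ 0) (h2 : v (P.derivative.eval a) = 0) : a = b :=
  Hb.root_unique hP ha hab h0 h0' h1 h2

/-- Hensel's lemma in `B`. -/
theorem HCl.hensel' [IsAlgClosed Ω] (h : Ctx0 k v n) {B : Subalgebra k Ω} (hB : HCl v B)
    (hB0 : ∀ b ∈ B, v.Ge 0 b) (P : Polynomial Ω) (hP : ∀ i, P.coeff i ∈ B) (c : Ω)
    (hc : v.Ge 0 c) (h0 : VPos v (P.eval c)) (h1 : P.derivative.eval c ≠ 0)
    (h2 : v (P.derivative.eval c) = 0) : ∃ a ∈ B, P.eval a = 0 ∧ VPos v (a - c) ∧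
      P.derivative.eval a ≠ 0 ∧ v (P.derivative.eval a) = 0 := by
  obtain ⟨a, ha, hac, h3, h4⟩ := ALLY.exists_root h P (fun i => hB0 _ (hP i)) c hc h0 h1 h2
  exact ⟨a, hB.root' h hB0 P hP a (ge_of_vpos_sub hac hc) ha h3 h4, ha, hac, h3, h4⟩

/-- Hensel's lemma in `B`. -/
theorem HCl.hensel [IsAlgClosed Ω] (h : Ctx0 k v n) {B : Subalgebra k Ω} (hB : HCl v B)
    (hB0 : ∀ b ∈ B, v.Ge 0 b) (P : Polynomial Ω) (hP : ∀ i, P.coeff i ∈ B) (c : Ω) (hc : c ∈ B)
    (h0 : VPos v (P.eval c)) (h1 : P.derivative.eval c ≠ 0) (h2 : v (P.derivative.eval c) = 0) :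
    ∃ a ∈ B, P.eval a = 0 ∧ VPos v (a - c) := by
  obtain ⟨a, haB, ha, hac, -⟩ := hB.hensel' h hB0 P hP c (hB0 c hc) h0 h1 h2
  exact ⟨a, haB, ha, hac⟩

theorem hz_nonneg (h : Ctx0 k v n) {A : Subalgebra k Ω} (hA : ∀ a ∈ A, v.Ge 0 a) :
    ∀ a ∈ Hz v A, v.Ge 0 a := fun _ ha =>
  hz_le (B := OvA h) (fun a ha => hA a ha) (hcl_OvA h) ha

/-- Roots of units, of degree prime to the characteristic. -/
theorem HCl.exists_pow_eq [IsAlgClosed Ω] (h : Ctx0 k v n) {B : Subalgebra k Ω} (hB : HCl v B)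
    (hB0 : ∀ b ∈ B, v.Ge 0 b) {f : Ω} (hf : f ∈ B) {c : k} (hc : c ≠ 0) {m : ℕ}
    (hm : (m : k) ≠ 0) (hfc : VPos v (f - algebraMap k Ω c ^ m)) :
    ∃ g ∈ B, g ^ m = f ∧ VPos v (g - algebraMap k Ω c) := by
  have hc' : algebraMap k Ω c ≠ 0 := (_root_.map_ne_zero _).2 hc
  have hvc : v (algebraMap k Ω c) = 0 := h.triv c hc
  have hm' : (m : Ω) ≠ 0 := by
    rw [← map_natCast (algebraMap k Ω)]
    exact (_root_.map_ne_zero _).2 hm
  have hvm : v (m : Ω) = 0 := by
    rw [← map_natCast (algebraMap k Ω)]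
    exact h.triv _ hm
  have hder : (derivative (X ^ m - C f : Polynomial Ω)).eval (algebraMap k Ω c) =
      (m : Ω) * algebraMap k Ω c ^ (m - 1) := by
    rw [derivative_sub, derivative_C, sub_zero, derivative_X_pow, eval_mul, eval_C, eval_pow,
      eval_X]
  obtain ⟨g, hg, h0, h1⟩ := hB.hensel h hB0 (X ^ m - C f) (fun i => by
      rw [coeff_sub, coeff_X_pow, coeff_C]
      refine B.sub_mem ?_ ?_
      · split_ifs
        · exact B.one_mem
        · exact B.zero_mem
      · split_ifs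
        · exact hf
        · exact B.zero_mem) (algebraMap k Ω c) (B.algebraMap_mem c) (by
      rw [eval_sub, eval_pow, eval_X, eval_C]
      exact vpos_sub_comm hfc) (by
      rw [hder]
      exact mul_ne_zero hm' (pow_ne_zero _ hc')) (by
      rw [hder, v.map_mul hm' (pow_ne_zero _ hc'), v.map_pow hc', hvm, hvc, mul_zero, add_zero])
  refine ⟨g, hg, ?_, h1⟩
  rw [eval_sub, eval_pow, eval_X, eval_C, sub_eq_zero] at h0
  exact h0

end Pool.Agent.ALLY
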