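import Pool.Agent.Lib.ALLY.Defs
import Pool.Agent.Lib.ALLO.Defs

/-!
# PROJECT ALL, block Y, H11: the henselization inside `Ω` and the integral closure
-/

set_option autoImplicit false

open Polynomial

namespace Pool.Agent.ALLY

open Pool.Agent.TAO (OVal VPos Ctx0 CtxR)
open Pool.Agent.ALLO (locv icl)

universe u w

section

variable {k Ω : Type u} [Field k] [Field Ω] [Algebra k Ω] {𝕂 : Type w} [Field 𝕂] [LinearOrder 𝕂]
  [IsStrictOrderedRing 𝕂]

/-- A root of a monic polynomial with integral coefficients is integral. -/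
theorem isIntegral_of_root {A : Subalgebra k Ω} (P : Polynomial Ω) (hP : P.Monic)
    (hc : ∀ i, IsIntegral A (P.coeff i)) {a : Ω} (ha : P.eval a = 0) : IsIntegral A a := by
  have h1 : P ∈ Polynomial.lifts (algebraMap (integralClosure A Ω) Ω) := by
    rw [Polynomial.lifts_iff_coeff_lifts]
    intro i
    exact ⟨⟨P.coeff i, hc i⟩, rfl⟩
  obtain ⟨Q, hQ, -, hQm⟩ := Polynomial.lifts_and_natDegree_eq_and_monic h1 hP
  refine isIntegral_trans (A := integralClosure A Ω) a ⟨Q, hQm, ?_⟩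
  rw [← Polynomial.eval_map, hQ, ha]

/-- Common denominators of value `0`. -/
theorem exists_den (v : OVal 𝕂 Ω) (S : Subalgebra k Ω) (P : Polynomial Ω)
    (hc : ∀ i, P.coeff i ∈ locv v S) :
    ∃ s ∈ S, s ≠ 0 ∧ v s = 0 ∧ ∀ i, s * P.coeff i ∈ S := by
  classical
  have key : ∀ t : Finset ℕ, ∃ s ∈ S, s ≠ 0 ∧ v s = 0 ∧ ∀ i ∈ t, s * P.coeff i ∈ S := by
    intro t
    induction t using Finset.induction_on with
    | empty => exact ⟨1, S.one_mem, one_ne_zero, v.map_one, fun i hi => by simp at hi⟩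
    | insert j t hj ih =>
      obtain ⟨s, hs, hs0, hvs, hst⟩ := ih
      obtain ⟨a, ha, b, hb, hb0, hvb, hab⟩ := hc j
      refine ⟨s * b, S.mul_mem hs hb, mul_ne_zero hs0 hb0, by
        rw [v.map_mul hs0 hb0, hvs, hvb, add_zero], ?_⟩
      intro i hi
      rcases Finset.mem_insert.1 hi with rfl | hi
      · rw [hab, show s * b * (a / b) = s * a by field_simp]
        exact S.mul_mem hs ha
      · rw [show s * b * P.coeff i = b * (s * P.coeff i) by ring]
        exact S.mul_mem hb (hst i hi)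
  obtain ⟨s, hs, hs0, hvs, hst⟩ := key (Finset.range (P.natDegree + 1))
  refine ⟨s, hs, hs0, hvs, fun i => ?_⟩
  by_cases hi : i ∈ Finset.range (P.natDegree + 1)
  · exact hst i hi
  · rw [Finset.mem_range, not_lt] at hi
    rw [Polynomial.coeff_eq_zero_of_natDegree_lt (by omega), mul_zero]
    exact S.zero_mem

/-- The localisation at the centre of `v` of the integral closure of `A` in `Ω` is closed under
simple roots. -/
theorem hcl_locv_icl (v : OVal 𝕂 Ω) (A : Subalgebra k Ω) : HCl v (locv v (icl A ⊤)) where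
  inv := by
    rintro _ ⟨x, hx, s, hs, hs0, hvs, rfl⟩ h0 hv
    have hx0 : x ≠ 0 := by
      rintro rfl
      exact h0 (zero_div _)
    refine ⟨s, hs, x, hx, hx0, ?_, inv_div x s⟩
    have h1 : v x = v (x / s * s) := by rw [div_mul_cancel₀ _ hs0]
    rw [h1, v.map_mul h0 hs0, hv, hvs, add_zero]
  root := by
    intro P hP hc a _ h0 _ _
    obtain ⟨s, hs, hs0, hvs, hst⟩ := exists_den v (icl A ⊤) P hc
    refine ⟨s * a, ⟨trivial, ?_⟩, s, hs, hs0, hvs, by field_simp⟩
    refine isIntegral_of_root (P.scaleRoots s) ((Polynomial.monic_scaleRoots_iff s).2 hP) ?_ ?_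
    · intro i
      rw [Polynomial.coeff_scaleRoots]
      rcases lt_trichotomy i P.natDegree with hi | hi | hi
      · have h1 : P.coeff i * s ^ (P.natDegree - i) =
            s * P.coeff i * s ^ (P.natDegree - i - 1) := by
          have h2 : P.natDegree - i = (P.natDegree - i - 1) + 1 := by omega
          conv_lhs => rw [h2, pow_succ]
          ring
        rw [h1]
        exact (hst i).2.mul (hs.2.pow _)
      · rw [hi, Nat.sub_self, pow_zero, mul_one]
        have h1 : P.coeff P.natDegree = 1 := hP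
        rw [h1]
        exact isIntegral_one
      · rw [Polynomial.coeff_eq_zero_of_natDegree_lt hi, zero_mul]
        exact isIntegral_zero
    · have h1 := Polynomial.scaleRoots_eval₂_mul (p := P) (f := RingHom.id Ω) (r := a) (s := s)
      rw [RingHom.id_apply] at h1
      rw [← Polynomial.eval₂_id (p := P.scaleRoots s), h1, Polynomial.eval₂_id, h0, mul_zero]

/-- H11. -/
theorem hz_le_locv_icl (v : OVal 𝕂 Ω) (A : Subalgebra k Ω) : Hz v A ≤ locv v (icl A ⊤) := by
  refine hz_le (fun a ha => ?_) (hcl_locv_icl v A)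
  exact ⟨a, ⟨trivial, isIntegral_algebraMap (x := (⟨a, ha⟩ : A))⟩, 1, Subalgebra.one_mem _,
    one_ne_zero, v.map_one, (div_one a).symm⟩

theorem hz_le_icl' (v : OVal 𝕂 Ω) (A : Subalgebra k Ω) :
    ∀ a ∈ Hz v A, ∃ b c : Ω, IsIntegral A b ∧ IsIntegral A c ∧ c ≠ 0 ∧ v c = 0 ∧ a = b / c := by
  intro a ha
  obtain ⟨b, hb, c, hc, hc0, hvc, h⟩ := hz_le_locv_icl v A ha
  exact ⟨b, c, hb.2, hc.2, hc0, hvc, h⟩

/-- H11, in the form of the list of rows. -/
theorem hz_le_icl [IsAlgClosed Ω] {n : ℕ} {v : OVal 𝕂 Ω} (_ : Ctx0 k v n) (A : Subalgebra k Ω)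
    (_ : ∀ a ∈ A, v.Ge 0 a) : ∀ a ∈ Hz v A, ∃ b c : Ω, IsIntegral A b ∧ IsIntegral A c ∧
      c ≠ 0 ∧ v c = 0 ∧ a = b / c := hz_le_icl' v A

theorem hz_alg {v : OVal 𝕂 Ω} (A : Subalgebra k Ω) : ∀ a ∈ Hz v A, IsAlgebraic A a := by
  intro a ha
  obtain ⟨b, c, hb, hc, -, -, rfl⟩ := hz_le_icl' v A a ha
  rw [div_eq_mul_inv]
  exact hb.isAlgebraic.mul hc.isAlgebraic.inv

end

end Pool.Agent.ALLY
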