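import Pool.Agent.Lib.ALLY.Nf

/-!
# PROJECT ALL, block Y: iterated derivatives of `u z^M + I`
-/

set_option autoImplicit false

namespace Pool.Agent.ALLY

open Pool.Agent.TAO (OVal VPos Ctx0 CtxR)

universe u w

variable {k Ω : Type u} [Field k] [Field Ω] [Algebra k Ω] {𝕂 : Type w} [Field 𝕂] [LinearOrder 𝕂]
  [IsStrictOrderedRing 𝕂] {v : OVal 𝕂 Ω} {d : ℕ}

/-- A derivation which kills `S.low.H` and preserves `S.H` preserves `Lx`. -/
theorem der_lx (S : RD k v (d + 1)) (L : IntermediateField k Ω) (δ : Derivation k L L)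
    (hL : ∀ f ∈ S.H, f ∈ L) (h0 : ∀ e : L, (e : Ω) ∈ S.low.H → δ e = 0)
    (hH : ∀ e : L, (e : Ω) ∈ S.H → ((δ e : L) : Ω) ∈ S.H) (e : L) (he : S.Lx (e : Ω)) :
    S.Lx ((δ e : L) : Ω) := by
  classical
  obtain ⟨γ, hγ, hγ0, a, ha, b, hb, hf⟩ := he
  have hχ : S.χ γ ∈ S.low.H := S.low.χ_mem_H hγ hγ0.le
  have hy : ∀ i : Fin d, S.y i.castSucc ∈ S.low.H := fun i => S.low.y_mem_H i
  let χL : L := ⟨S.χ γ, hL _ (S.low_H_le hχ)⟩
  let yL : Fin d → L := fun i => ⟨S.y i.castSucc, hL _ (S.low_H_le (hy i))⟩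
  let aL : L := ⟨a, hL _ ha⟩
  let bL : Fin d → L := fun i => ⟨b i, hL _ (hb i)⟩
  have he : e = χL * aL + ∑ i : Fin d, yL i * bL i := by
    apply Subtype.ext
    rw [hf]
    push_cast
    rfl
  have hχ0 : δ χL = 0 := h0 χL hχ
  have hy0 : ∀ i, δ (yL i) = 0 := fun i => h0 (yL i) (hy i)
  have h1 : δ e = χL * δ aL + ∑ i : Fin d, yL i * δ (bL i) := by
    rw [he, map_add, map_sum, Derivation.leibniz, hχ0, smul_zero, add_zero, smul_eq_mul]
    congr 1
    refine Finset.sum_congr rfl fun i _ => ?_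
    rw [Derivation.leibniz, hy0, smul_zero, add_zero, smul_eq_mul]
  refine ⟨γ, hγ, hγ0, _, hH aL ha, fun i => ((δ (bL i) : L) : Ω), fun i => hH (bL i) (hb i), ?_⟩
  rw [h1]
  push_cast
  rfl

theorem iter_zform (S : RD k v (d + 1)) (L : IntermediateField k Ω) (δ : Derivation k L L)
    (hL : ∀ f ∈ S.H, f ∈ L) (hz : ∀ e : L, (e : Ω) = S.z → δ e = 1)
    (h0 : ∀ e : L, (e : Ω) ∈ S.low.H → δ e = 0)
    (hH : ∀ e : L, (e : Ω) ∈ S.H → ((δ e : L) : Ω) ∈ S.H) {u e : Ω} (hu : u ∈ S.H)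
    (he : S.Lx e) {M : ℕ} (f : L) (hf : (f : Ω) = u * S.z ^ M + e) (j : ℕ) (hj : j ≤ M) :
    ∃ g ∈ S.H, ∃ e', S.Lx e' ∧ ((δ^[j] f : L) : Ω) =
      (M.descFactorial j : Ω) * u * S.z ^ (M - j) + S.z ^ (M - j + 1) * g + e' := by
  induction j with
  | zero =>
    refine ⟨0, zero_mem _, e, he, ?_⟩
    simp [hf]
  | succ j ih =>
    obtain ⟨g, hg, e', he', hF⟩ := ih (by omega)
    obtain ⟨m, hm⟩ : ∃ m, M - j = m + 1 := ⟨M - j - 1, by omega⟩
    have hm' : M - (j + 1) = m := by omega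
    let zL : L := ⟨S.z, hL _ S.z_mem_H⟩
    let uL : L := ⟨u, hL _ hu⟩
    let gL : L := ⟨g, hL _ hg⟩
    have he'L : e' ∈ L := by
      have h1 : e' = ((δ^[j] f : L) : Ω) - ((M.descFactorial j : Ω) * u * S.z ^ (M - j) +
        S.z ^ (M - j + 1) * g) := by rw [hF]; ring
      rw [h1]
      refine sub_mem (δ^[j] f : L).2 (add_mem (mul_mem (mul_mem ?_ uL.2) (pow_mem zL.2 _))
        (mul_mem (pow_mem zL.2 _) gL.2))
      exact natCast_mem L _
    let eL : L := ⟨e', he'L⟩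
    have hFL : (δ^[j] f : L) = (M.descFactorial j : L) * uL * zL ^ (m + 1) +
        zL ^ (m + 2) * gL + eL := by
      apply Subtype.ext
      rw [hF, hm]
      push_cast
      rfl
    have hz1 : δ zL = 1 := hz zL rfl
    have hzp : ∀ q : ℕ, δ (zL ^ (q + 1)) = ((q + 1 : ℕ) : L) * zL ^ q := fun q => by
      rw [Derivation.leibniz_pow, hz1]
      simp [nsmul_eq_mul]
    have hc : δ (M.descFactorial j : L) = 0 := Derivation.map_natCast δ _
    have h2 : δ (δ^[j] f : L) = ((M - j : ℕ) : L) * (M.descFactorial j : L) * uL * zL ^ m +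
        zL ^ (m + 1) * ((M.descFactorial j : L) * δ uL + ((m + 2 : ℕ) : L) * gL + zL * δ gL) +
        δ eL := by
      rw [hFL, map_add, map_add]
      simp only [Derivation.leibniz, hzp, hc, smul_eq_mul, hm]
      ring
    refine ⟨(M.descFactorial j : Ω) * ((δ uL : L) : Ω) + ((m + 2 : ℕ) : Ω) * g +
      S.z * ((δ gL : L) : Ω), ?_, ((δ eL : L) : Ω), der_lx S L δ hL h0 hH eL he', ?_⟩
    · exact add_mem (add_mem (mul_mem (natCast_mem _ _) (hH uL hu))
        (mul_mem (natCast_mem _ _) hg)) (mul_mem S.z_mem_H (hH gL hg))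
    · rw [Function.iterate_succ_apply', h2, hm', Nat.descFactorial_succ]
      push_cast
      rfl

end Pool.Agent.ALLY
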