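import Pool.Agent.Lib.ALLY.Gen
import Mathlib

/-!
# Block Y any rank: derivatives of an expansion in powers of `X`
-/

set_option autoImplicit false

open Polynomial

namespace Pool.Agent.ALLY

open Pool.Agent.TAO (OVal VPos Ctx0 CtxR)

universe u w

variable {k Ω : Type u} [Field k] [Field Ω] [Algebra k Ω] {𝕂 : Type w} [Field 𝕂] [LinearOrder 𝕂]
  [IsStrictOrderedRing 𝕂] {v : OVal 𝕂 Ω} {d : ℕ}

theorem It2.step (S : RD k v (d + 1)) (L : IntermediateField k Ω) (δ : Derivation k L L)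
    (hL : ∀ f ∈ S.H, f ∈ L) (h0 : ∀ e : L, (e : Ω) ∈ S.low.H → δ e = 0)
    (hH : ∀ e : L, (e : Ω) ∈ S.H → ((δ e : L) : Ω) ∈ S.H) (X : L) (hX : (X : Ω) ∈ S.H)
    (hX1 : δ X = 1) {m : ℕ} (c : ℕ → Ω) (hc : ∀ j, c j ∈ S.low.H) {g : Ω} (hg : g ∈ S.H)
    (f : L) (hf : (f : Ω) = (∑ j ∈ Finset.range (m + 1), c j * (X : Ω) ^ j) +
      (X : Ω) ^ (m + 1) * g) :
    ∃ g' ∈ S.H, ((δ f : L) : Ω) = (∑ j ∈ Finset.range m, ((j + 1 : ℕ) : Ω) * c (j + 1) *
      (X : Ω) ^ j) + (X : Ω) ^ m * g' := by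
  have hcL : ∀ j, c j ∈ L := fun j => hL _ (S.low_H_le (hc j))
  let C : ℕ → L := fun j => ⟨c j, hcL j⟩
  let G : L := ⟨g, hL _ hg⟩
  have hfL : f = (∑ j ∈ Finset.range (m + 1), C j * X ^ j) + X ^ (m + 1) * G := by
    apply Subtype.ext
    rw [hf]
    push_cast
    rfl
  have hC : ∀ j, δ (C j) = 0 := fun j => h0 _ (hc j)
  have h1 : δ f = (∑ j ∈ Finset.range m, ((j + 1 : ℕ) : L) * C (j + 1) * X ^ j) +
      X ^ m * (((m + 1 : ℕ) : L) * G + X * δ G) := by
    rw [hfL, map_add, map_sum, Finset.sum_range_succ']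
    have h2 : ∀ j, δ (C j * X ^ j) = ((j : ℕ) : L) * C j * X ^ (j - 1) := by
      intro j
      rw [Derivation.leibniz, Derivation.leibniz_pow, hC, hX1, smul_zero, add_zero, smul_eq_mul,
        nsmul_eq_mul, smul_eq_mul, mul_one]
      ring
    have h3 : δ (X ^ (m + 1) * G) = X ^ m * (((m + 1 : ℕ) : L) * G + X * δ G) := by
      rw [Derivation.leibniz, Derivation.leibniz_pow, hX1, smul_eq_mul, smul_eq_mul, nsmul_eq_mul,
        smul_eq_mul, mul_one, Nat.add_sub_cancel]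
      ring
    rw [h3]
    simp only [h2]
    rw [Nat.cast_zero, zero_mul, zero_mul, add_zero]
    simp only [Nat.add_sub_cancel]
  refine ⟨((m + 1 : ℕ) : Ω) * g + X * ((δ G : L) : Ω), ?_, ?_⟩
  · exact add_mem (mul_mem (natCast_mem _ _) hg) (mul_mem hX (hH G hg))
  · rw [h1]
    push_cast
    rfl

theorem iter_exp (S : RD k v (d + 1)) (L : IntermediateField k Ω) (δ : Derivation k L L)
    (hL : ∀ f ∈ S.H, f ∈ L) (_hz : ∀ e : L, (e : Ω) = S.z → δ e = 1)
    (h0 : ∀ e : L, (e : Ω) ∈ S.low.H → δ e = 0)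
    (hH : ∀ e : L, (e : Ω) ∈ S.H → ((δ e : L) : Ω) ∈ S.H) (X : L) (hX : (X : Ω) ∈ S.H)
    (hX1 : δ X = 1) {M : ℕ} (a : ℕ → Ω) (ha : ∀ j, a j ∈ S.low.H) {g : Ω} (hg : g ∈ S.H)
    (f : L) (hf : (f : Ω) = (∑ j ∈ Finset.range (M + 1), a j * (X : Ω) ^ j) +
      (X : Ω) ^ (M + 1) * g) (j : ℕ) (hj : j ≤ M) :
    ∃ w ∈ S.H, ((δ^[j] f : L) : Ω) = (j.factorial : Ω) * a j + (X : Ω) * w := by
  have key : ∀ j, j ≤ M → ∃ g' ∈ S.H, ((δ^[j] f : L) : Ω) =
      (∑ i ∈ Finset.range (M - j + 1), (((i + j).descFactorial j : ℕ) : Ω) * a (i + j) *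
        (X : Ω) ^ i) + (X : Ω) ^ (M - j + 1) * g' := by
    intro j
    induction j with
    | zero =>
      intro _
      refine ⟨g, hg, ?_⟩
      rw [Function.iterate_zero, id, hf]
      simp
    | succ j ih =>
      intro hj
      obtain ⟨g', hg', h1⟩ := ih (by omega)
      obtain ⟨m, hm⟩ : ∃ m, M - j = m + 1 := ⟨M - j - 1, by omega⟩
      have hm' : M - (j + 1) + 1 = m + 1 := by omega
      rw [hm] at h1
      obtain ⟨g'', hg'', h2⟩ := It2.step S L δ hL h0 hH X hX hX1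
        (fun i => (((i + j).descFactorial j : ℕ) : Ω) * a (i + j))
        (fun i => mul_mem (natCast_mem _ _) (ha _)) hg' _ h1
      refine ⟨g'', hg'', ?_⟩
      rw [Function.iterate_succ_apply', h2, hm']
      congr 1
      refine Finset.sum_congr rfl fun i _ => ?_
      have h3 : i + 1 + j = i + (j + 1) := by ring
      have h4 : (i + (j + 1)).descFactorial (j + 1) = (i + 1) * (i + (j + 1)).descFactorial j := by
        rw [Nat.descFactorial_succ]
        congr 1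
        omega
      rw [h3, h4]
      push_cast
      ring
  obtain ⟨g', hg', h1⟩ := key j hj
  refine ⟨(∑ i ∈ Finset.range (M - j), (((i + 1 + j).descFactorial j : ℕ) : Ω) * a (i + 1 + j) *
    (X : Ω) ^ i) + (X : Ω) ^ (M - j) * g', ?_, ?_⟩
  · refine add_mem (sum_mem fun i _ => mul_mem (mul_mem (natCast_mem _ _) (S.low_H_le (ha _)))
      (pow_mem hX i)) (mul_mem (pow_mem hX _) hg')
  · rw [h1, Finset.sum_range_succ', mul_add, Finset.mul_sum]
    have h2 : ((0 + j).descFactorial j : ℕ) = j.factorial := by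
      rw [zero_add, Nat.descFactorial_self]
    rw [h2, zero_add, pow_zero, mul_one]
    have h3 : ∀ i, (((i + 1 + j).descFactorial j : ℕ) : Ω) * a (i + 1 + j) * (X : Ω) ^ (i + 1) =
        (X : Ω) * ((((i + 1 + j).descFactorial j : ℕ) : Ω) * a (i + 1 + j) * (X : Ω) ^ i) := by
      intro i
      ring
    simp only [h3]
    ring

end Pool.Agent.ALLY
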