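import Pool.Agent.Lib.ALLY.Gen
import Pool.Agent.Lib.ALL_h7.SplitO

/-!
# Rows H5 and H6: key polynomials and monomialization of elements of the henselization

Every element of `Hz v P` lies in a finite separable extension of `L` (`P ≤ L`) with an isolating
element. Hence `exists_key` (one root lemma) and `lus_plus`.
-/

set_option autoImplicit false

open Polynomial

namespace Pool.Agent.ALLY

open Pool.Agent.TAO (OVal VPos Ctx0 CtxR)
open Pool.Agent.ALL7 (toVal Gd Cm Iso)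

universe u w

variable {k Ω : Type u} [Field k] [Field Ω] [Algebra k Ω] {𝕂 : Type w} [Field 𝕂] [LinearOrder 𝕂]
  [IsStrictOrderedRing 𝕂] {v : OVal 𝕂 Ω} {n : ℕ}

namespace Key

/-- The subring `P` of `L`. -/
def Ar (P : Subalgebra k Ω) (L : IntermediateField k Ω) : Subring L :=
  P.toSubring.comap (algebraMap L Ω)

/-- `a` is in a split extension of `L`. -/
def Go (v : OVal 𝕂 Ω) (P : Subalgebra k Ω) (L : IntermediateField k Ω) (a : Ω) : Prop :=
  Gd (toVal v) (Ar P L) (Hz v P).toSubring a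

theorem hz_ge (h : Ctx0 k v n) {P : Subalgebra k Ω} (hP0 : ∀ a ∈ P, v.Ge 0 a) :
    ∀ a ∈ Hz v P, v.Ge 0 a := by
  intro a ha
  have h1 : Hz v P ≤ Gen.geA h := hz_le (fun x hx => (Gen.mem_geA h).mpr (hP0 x hx))
    (Gen.geA_hcl h)
  exact (Gen.mem_geA h).mp (h1 ha)

theorem Go.mem {P : Subalgebra k Ω} {L : IntermediateField k Ω} {a : Ω} (ha : Go v P L a) :
    a ∈ Hz v P := by
  obtain ⟨E, h1, h2, η, s, hc, a1, a2, a3⟩ := ha
  exact a2

theorem Go.of_mem {P : Subalgebra k Ω} {L : IntermediateField k Ω} {a : Ω} (haL : a ∈ L)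
    (ha : a ∈ P) : Go v P L a := by
  have h1 : (⟨a, haL⟩ : L) ∈ Ar P L := ha
  have h2 : algebraMap L Ω (⟨a, haL⟩ : L) ∈ (Hz v P).toSubring := le_hz v P ha
  exact Gd.of_mem h1 h2

theorem Go.inv {P : Subalgebra k Ω} {L : IntermediateField k Ω} {a : Ω} (ha : Go v P L a)
    (h0 : a ≠ 0) (h1 : v a = 0) : Go v P L a⁻¹ := by
  refine Gd.inv (fun x hx h2 => ?_) ha (Pool.Agent.ALL7.toVal_eq_one v h0 h1)
  obtain ⟨h3, h4⟩ := (Pool.Agent.ALL7.toVal_eq_one_iff v).mp h2
  exact (hz_hcl v P).inv x hx h3 h4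

/-- The good elements. -/
def G (v : OVal 𝕂 Ω) (P : Subalgebra k Ω) (L : IntermediateField k Ω) :
    Subalgebra k Ω where
  carrier := {a | Go v P L a}
  mul_mem' := fun ha hb => Gd.mul ha hb
  add_mem' := fun ha hb => Gd.add ha hb
  algebraMap_mem' := fun c => Go.of_mem (L.algebraMap_mem c) (P.algebraMap_mem c)

theorem mem_G {P : Subalgebra k Ω} {L : IntermediateField k Ω} {a : Ω} :
    a ∈ G v P L ↔ Go v P L a := Iff.rfl

theorem G_hcl (h : Ctx0 k v n) {P : Subalgebra k Ω} (hP0 : ∀ a ∈ P, v.Ge 0 a)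
    (L : IntermediateField k Ω) : HCl v (G v P L) where
  inv := fun a ha h0 h1 => Go.inv ha h0 h1
  root := by
    classical
    intro Q hQ hQc a ha h0 h1 h2
    obtain ⟨c, hc⟩ := Gen.exists_res h ha
    -- translate by the residue
    obtain ⟨Q', hQ'⟩ : ∃ Q' : Polynomial Ω, Q' = Q.comp (X + C (algebraMap k Ω c)) := ⟨_, rfl⟩
    have hcG : algebraMap k Ω c ∈ G v P L := (G v P L).algebraMap_mem c
    have hQ'c : ∀ i, Q'.coeff i ∈ G v P L := by
      obtain ⟨R, rfl⟩ : ∃ R : Polynomial (G v P L), R.map (algebraMap (G v P L) Ω) = Q := by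
        have h3 : Q ∈ Polynomial.lifts (algebraMap (G v P L) Ω) := by
          rw [Polynomial.lifts_iff_coeff_lifts]
          exact fun i => ⟨⟨Q.coeff i, hQc i⟩, rfl⟩
        exact (Polynomial.mem_lifts _).1 h3
      intro i
      have h4 : Q' = (R.comp (X + C (⟨algebraMap k Ω c, hcG⟩ : G v P L))).map
          (algebraMap (G v P L) Ω) := by
        rw [hQ', Polynomial.map_comp, Polynomial.map_add, Polynomial.map_X, Polynomial.map_C]
        rfl
      rw [h4, Polynomial.coeff_map]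
      exact Subtype.property _
    have hQ'm : Q'.Monic := by
      rw [hQ']
      exact hQ.comp_X_add_C _
    have hQ'0 : Q'.eval (a - algebraMap k Ω c) = 0 := by
      rw [hQ', eval_comp, eval_add, eval_X, eval_C, sub_add_cancel, h0]
    have hQ'd : (derivative Q').eval (a - algebraMap k Ω c) = (derivative Q).eval a := by
      rw [hQ', derivative_comp, eval_mul, eval_comp, eval_add, eval_X, eval_C, sub_add_cancel]
      simp
    have haH : a ∈ Hz v P := (hz_hcl v P).root Q hQ (fun i => Go.mem (hQc i)) a ha h0 h1 h2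
    have hac : a - algebraMap k Ω c ∈ Hz v P := sub_mem haH ((Hz v P).algebraMap_mem c)
    obtain ⟨E, hE1, hE2, η, s, hcm, hF⟩ := Gd.common (v := toVal v) (A := Ar P L)
      (B := (Hz v P).toSubring) ((Finset.range (Q'.natDegree + 1)).image Q'.coeff)
      (fun x hx => by
        obtain ⟨i, -, rfl⟩ := Finset.mem_image.mp hx
        exact hQ'c i)
    have hco : ∀ i, Q'.coeff i ∈ E ∧ Q'.coeff i ∈ (Hz v P).toSubring ∧
        IsIntegral (Ar P L) (s * Q'.coeff i) := by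
      intro i
      by_cases hi : i < Q'.natDegree + 1
      · exact hF _ (Finset.mem_image.mpr ⟨i, Finset.mem_range.mpr hi, rfl⟩)
      · rw [coeff_eq_zero_of_natDegree_lt (by omega), mul_zero]
        exact ⟨zero_mem _, zero_mem _, isIntegral_zero⟩
    have hgo : Go v P L (a - algebraMap k Ω c) := by
      refine Gd.root_aux (A := Ar P L) (B := (Hz v P).toSubring) (fun x hx => ?_) (fun x hx => ?_)
        hcm hQ'm hco ?_ hQ'0 ?_ hac
      · exact (Pool.Agent.ALL7.toVal_le_one v).mpr (hP0 _ hx)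
      · exact (Pool.Agent.ALL7.toVal_le_one v).mpr (hz_ge h hP0 _ hx)
      · exact (Pool.Agent.ALL7.toVal_lt_one v).mpr hc
      · rw [hQ'd]
        exact Pool.Agent.ALL7.toVal_eq_one v h1 h2
    have e1 : a = (a - algebraMap k Ω c) + algebraMap k Ω c := by ring
    rw [e1]
    exact add_mem (S := Subalgebra k Ω) (s := G v P L) hgo hcG

/-- **Elements of the henselization are in split extensions.** -/
theorem go_of_mem (h : Ctx0 k v n) {P : Subalgebra k Ω} (hP0 : ∀ a ∈ P, v.Ge 0 a)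
    {L : IntermediateField k Ω} (hPL : ∀ a ∈ P, a ∈ L) {a : Ω} (ha : a ∈ Hz v P) :
    Go v P L a := by
  have h1 : Hz v P ≤ G v P L := hz_le (fun x hx => Go.of_mem (hPL x hx) hx) (G_hcl h hP0 L)
  exact h1 ha

/-- Simple roots of polynomials which are not monic. -/
theorem root_nm (h : Ctx0 k v n) {B : Subalgebra k Ω} (hB : HCl v B)
    (hB0 : ∀ b ∈ B, v.Ge 0 b) (P : Polynomial Ω) (hP : ∀ i, P.coeff i ∈ B) (a : Ω)
    (ha : v.Ge 0 a) (h0 : P.eval a = 0) (h1 : P.derivative.eval a ≠ 0)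
    (h2 : v (P.derivative.eval a) = 0) : a ∈ B := by
  classical
  obtain ⟨c, hc⟩ := Gen.exists_res h ha
  obtain ⟨R, hR⟩ : ∃ R : Polynomial Ω, R = P.comp (X + C (algebraMap k Ω c)) := ⟨_, rfl⟩
  have hcB : algebraMap k Ω c ∈ B := B.algebraMap_mem c
  have hRc : ∀ i, R.coeff i ∈ B := by
    obtain ⟨P1, rfl⟩ : ∃ P1 : Polynomial B, P1.map (algebraMap B Ω) = P := by
      have h3 : P ∈ Polynomial.lifts (algebraMap B Ω) := by
        rw [Polynomial.lifts_iff_coeff_lifts]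
        exact fun i => ⟨⟨P.coeff i, hP i⟩, rfl⟩
      exact (Polynomial.mem_lifts _).1 h3
    intro i
    have h4 : R = (P1.comp (X + C (⟨algebraMap k Ω c, hcB⟩ : B))).map (algebraMap B Ω) := by
      rw [hR, Polynomial.map_comp, Polynomial.map_add, Polynomial.map_X, Polynomial.map_C]
      rfl
    rw [h4, Polynomial.coeff_map]
    exact Subtype.property _
  obtain ⟨x, hx⟩ : ∃ x, x = a - algebraMap k Ω c := ⟨_, rfl⟩
  have hax : a = x + algebraMap k Ω c := by rw [hx]; ring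
  have hR0 : R.eval x = 0 := by
    rw [hR, eval_comp, eval_add, eval_X, eval_C, ← hax, h0]
  have hRd : (derivative R).eval x = (derivative P).eval a := by
    rw [hR, derivative_comp, eval_mul, eval_comp, eval_add, eval_X, eval_C, ← hax]
    simp
  rw [← hx] at hc
  suffices hxB : x ∈ B by rw [hax]; exact add_mem hxB hcB
  by_cases hx0 : x = 0
  · rw [hx0]; exact zero_mem _
  -- `R(0) = x u`
  obtain ⟨q, hq, hq'⟩ := Gen.exists_binom (B := Gen.geA h) R
    (fun i => (Gen.mem_geA h).mpr (hB0 _ (hRc i))) (a := x) (c := 0)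
    ((Gen.mem_geA h).mpr hc.ge) (zero_mem _)
  obtain ⟨u, hu⟩ : ∃ u, u = -((derivative R).eval x) + q * x := ⟨_, rfl⟩
  have hb0 : R.coeff 0 = x * u := by
    rw [coeff_zero_eq_eval_zero, hq', hR0, hu]; ring
  have hD0 : -((derivative R).eval x) ≠ 0 := by rw [hRd]; exact neg_ne_zero.mpr h1
  have hD1 : v (-((derivative R).eval x)) = 0 := by
    rw [v.map_neg _ (by rw [hRd]; exact h1), hRd, h2]
  obtain ⟨hu0, hu1⟩ := TAO.val_add_vpos hD0 hD1 (VPos.mul' ((Gen.mem_geA h).mp hq) hc)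
  rw [← hu] at hu0 hu1
  obtain ⟨b, hb⟩ : ∃ b, b = R.coeff 0 := ⟨_, rfl⟩
  have hbx : b = x * u := by rw [hb, hb0]
  have hbne : b ≠ 0 := by rw [hbx]; exact mul_ne_zero hx0 hu0
  obtain ⟨m, hm⟩ : ∃ m, m = R.natDegree := ⟨_, rfl⟩
  -- the reversed polynomial
  obtain ⟨f, hf⟩ : ∃ f : ℕ → Ω, ∀ i, f i = if i = 0 then 1 else R.coeff i * b ^ (i - 1) :=
    ⟨_, fun _ => rfl⟩
  have hbf : ∀ i, b * f i = R.coeff i * b ^ i := by
    intro i
    rw [hf]
    split_ifs with hi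
    · rw [hi, pow_zero, mul_one, mul_one, hb]
    · obtain ⟨j, rfl⟩ : ∃ j, i = j + 1 := ⟨i - 1, by omega⟩
      rw [Nat.add_sub_cancel, pow_succ]; ring
  have hfB : ∀ i, f i ∈ B := by
    intro i
    rw [hf]
    split_ifs with hi
    · exact one_mem _
    · exact mul_mem (hRc i) (pow_mem (by rw [hb]; exact hRc 0) _)
  obtain ⟨Q, hQ⟩ : ∃ Q : Polynomial Ω, Q = ∑ i ∈ Finset.range (m + 1), C (f i) * X ^ (m - i) :=
    ⟨_, rfl⟩
  have hQdeg : Q.natDegree ≤ m := by
    rw [hQ]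
    refine natDegree_sum_le_of_forall_le _ _ fun i _ => ?_
    exact (natDegree_C_mul_X_pow_le _ _).trans (Nat.sub_le _ _)
  have hQcB : ∀ j, Q.coeff j ∈ B := by
    intro j
    rw [hQ, finsetSum_coeff]
    refine sum_mem fun i _ => ?_
    rw [coeff_C_mul, coeff_X_pow]
    split_ifs
    · rw [mul_one]; exact hfB i
    · rw [mul_zero]; exact zero_mem _
  have hQm : Q.Monic := by
    refine monic_of_natDegree_le_of_coeff_eq_one m hQdeg ?_
    rw [hQ, finsetSum_coeff, Finset.sum_eq_single 0]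
    · rw [coeff_C_mul, coeff_X_pow, Nat.sub_zero, if_pos rfl, mul_one, hf, if_pos rfl]
    · intro i hi hi0
      rw [coeff_C_mul, coeff_X_pow, if_neg, mul_zero]
      have := Finset.mem_range.mp hi
      omega
    · intro hi
      exact absurd (Finset.mem_range.mpr (Nat.succ_pos m)) hi
  have hRs : ∑ i ∈ Finset.range (m + 1), R.coeff i * x ^ i = 0 := by
    rw [hm, ← eval_eq_sum_range, hR0]
  have hRds : ∑ i ∈ Finset.range (m + 1), (i : Ω) * (R.coeff i * x ^ i)
      = x * (derivative R).eval x := by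
    rw [derivative_eval, sum_over_range R (fun i => by simp), Finset.mul_sum, ← hm]
    refine Finset.sum_congr rfl fun i _ => ?_
    rcases i with _ | i
    · simp
    · rw [Nat.add_sub_cancel, pow_succ]; ring
  have hQ0 : Q.eval u = 0 := by
    have e1 : b * Q.eval u = 0 := by
      rw [hQ, eval_finsetSum, Finset.mul_sum]
      have e2 : ∀ i ∈ Finset.range (m + 1), b * (C (f i) * X ^ (m - i)).eval u
          = u ^ m * (R.coeff i * x ^ i) := by
        intro i hi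
        have hi' : i ≤ m := Nat.lt_succ_iff.mp (Finset.mem_range.mp hi)
        rw [eval_mul, eval_C, eval_pow, eval_X, ← mul_assoc, hbf, hbx]
        have e3 : u ^ m = u ^ i * u ^ (m - i) := by rw [← pow_add]; congr 1; omega
        rw [e3, mul_pow]; ring
      rw [Finset.sum_congr rfl e2, ← Finset.mul_sum, hRs, mul_zero]
    exact (mul_eq_zero.mp e1).resolve_left hbne
  have hQd : u * (b * (derivative Q).eval u) = -(u ^ m * (x * (derivative R).eval x)) := by
    rw [hQ, derivative_sum, eval_finsetSum, Finset.mul_sum, Finset.mul_sum]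
    have e2 : ∀ i ∈ Finset.range (m + 1),
        u * (b * (derivative (C (f i) * X ^ (m - i))).eval u)
          = (m : Ω) * u ^ m * (R.coeff i * x ^ i)
            - u ^ m * ((i : Ω) * (R.coeff i * x ^ i)) := by
      intro i hi
      have hi' : i ≤ m := Nat.lt_succ_iff.mp (Finset.mem_range.mp hi)
      rw [derivative_C_mul_X_pow, eval_mul, eval_C, eval_pow, eval_X]
      have e3 : u ^ m = u ^ i * u ^ (m - i) := by rw [← pow_add]; congr 1; omega
      have e4 : ((m - i : ℕ) : Ω) = (m : Ω) - i := by rw [Nat.cast_sub hi']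
      have e5 : ((m - i : ℕ) : Ω) * (u * u ^ (m - i - 1)) = ((m - i : ℕ) : Ω) * u ^ (m - i) := by
        by_cases h5 : m - i = 0
        · rw [h5]; simp
        · obtain ⟨j, hj⟩ : ∃ j, m - i = j + 1 := ⟨m - i - 1, by omega⟩
          rw [hj, Nat.add_sub_cancel, pow_succ]; ring
      calc u * (b * (f i * ((m - i : ℕ) : Ω) * u ^ (m - i - 1)))
          = (b * f i) * (((m - i : ℕ) : Ω) * (u * u ^ (m - i - 1))) := by ring
        _ = (R.coeff i * (x * u) ^ i) * (((m - i : ℕ) : Ω) * u ^ (m - i)) := by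
            rw [hbf, e5, hbx]
        _ = _ := by rw [e4, e3, mul_pow]; ring
    rw [Finset.sum_congr rfl e2, Finset.sum_sub_distrib, ← Finset.mul_sum, ← Finset.mul_sum,
      hRs, hRds]
    ring
  have hDR0 : (derivative R).eval x ≠ 0 := by rw [hRd]; exact h1
  have hDR1 : v ((derivative R).eval x) = 0 := by rw [hRd, h2]
  have hQd0 : (derivative Q).eval u ≠ 0 := by
    intro h3
    rw [h3, mul_zero, mul_zero] at hQd
    have h4 := neg_eq_zero.mp hQd.symm
    exact mul_ne_zero (pow_ne_zero _ hu0) (mul_ne_zero hx0 hDR0) h4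
  have hQd1 : v ((derivative Q).eval u) = 0 := by
    have e1 := congrArg v.toFun hQd
    change v _ = v _ at e1
    rw [v.map_mul hu0 (mul_ne_zero hbne hQd0), v.map_mul hbne hQd0, hbx, v.map_mul hx0 hu0,
      v.map_neg _ (mul_ne_zero (pow_ne_zero _ hu0) (mul_ne_zero hx0 hDR0)),
      v.map_mul (pow_ne_zero _ hu0) (mul_ne_zero hx0 hDR0), v.map_mul hx0 hDR0, v.map_pow hu0,
      hu1, hDR1] at e1
    linarith
  have huB : u ∈ B := hB.root Q hQm hQcB u (fun _ => hu1.ge) hQ0 hQd0 hQd1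
  have e2 : x = b * u⁻¹ := by rw [hbx]; field_simp
  rw [e2]
  exact mul_mem (by rw [hb]; exact hRc 0) (hB.inv u huB hu0 hu1)

/-- Quotients of elements of `B`. -/
def frF (B : Subalgebra k Ω) : IntermediateField k Ω where
  carrier := {a | InFr B a}
  mul_mem' := by
    rintro a b ⟨a1, ha1, a2, ha2, ha0, rfl⟩ ⟨b1, hb1, b2, hb2, hb0, rfl⟩
    exact ⟨a1 * b1, mul_mem ha1 hb1, a2 * b2, mul_mem ha2 hb2, mul_ne_zero ha0 hb0,
      div_mul_div_comm _ _ _ _⟩
  add_mem' := by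
    rintro a b ⟨a1, ha1, a2, ha2, ha0, rfl⟩ ⟨b1, hb1, b2, hb2, hb0, rfl⟩
    exact ⟨a1 * b2 + a2 * b1, add_mem (mul_mem ha1 hb2) (mul_mem ha2 hb1), a2 * b2,
      mul_mem ha2 hb2, mul_ne_zero ha0 hb0, div_add_div _ _ ha0 hb0⟩
  algebraMap_mem' := fun c => ⟨algebraMap k Ω c, B.algebraMap_mem c, 1, one_mem _, one_ne_zero,
    by rw [div_one]⟩
  inv_mem' := by
    rintro a ⟨a1, ha1, a2, ha2, ha0, rfl⟩
    by_cases h1 : a1 = 0
    · exact ⟨0, zero_mem _, 1, one_mem _, one_ne_zero, by rw [h1]; simp⟩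
    · exact ⟨a2, ha2, a1, ha1, h1, by rw [inv_div]⟩

theorem mem_frF {B : Subalgebra k Ω} {a : Ω} : a ∈ frF B ↔ InFr B a := Iff.rfl

variable {d : ℕ}

theorem inFr_of_K (S : RD k v d) {a : Ω} (ha : a ∈ S.K) : InFr S.P a := by
  have h1 : S.K ≤ frF S.P := by
    rw [RD.K, IntermediateField.adjoin_le_iff]
    rintro x (⟨γ, hγ, rfl⟩ | ⟨i, rfl⟩)
    · rcases le_total 0 γ with h0 | h0
      · exact ⟨S.χ γ, RD.χ_mem S hγ h0, 1, one_mem _, one_ne_zero, by rw [div_one]⟩
      · refine ⟨1, one_mem _, S.χ (-γ), RD.χ_mem S (S.Γ.neg_mem hγ) (by linarith),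
          S.χ_ne _ (S.Γ.neg_mem hγ), ?_⟩
        rw [RD.χ_neg S hγ]
        simp
    · exact ⟨S.y i, RD.y_mem S i, 1, one_mem _, one_ne_zero, by rw [div_one]⟩
  exact h1 ha

theorem P_le_K (S : RD k v d) {a : Ω} (ha : a ∈ S.P) : a ∈ S.K := by
  have h1 : S.P ≤ S.K.toSubalgebra := by
    rw [RD.P, Algebra.adjoin_le_iff]
    rintro x (⟨γ, ⟨hγ, h0⟩, rfl⟩ | ⟨i, rfl⟩)
    · exact IntermediateField.subset_adjoin _ _ (Or.inl ⟨γ, hγ, rfl⟩)
    · exact IntermediateField.subset_adjoin _ _ (Or.inr ⟨i, rfl⟩)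
  exact h1 ha

theorem P_ge (h : Ctx0 k v n) (S : RD k v d) : ∀ a ∈ S.P, v.Ge 0 a := fun a ha =>
  RD.nonneg h S a (RD.P_le_H S ha)

theorem H_le {S S' : RD k v d} (h : S.Le S') : S.H ≤ S'.H := by
  refine hz_le_hz ?_
  rw [RD.P, Algebra.adjoin_le_iff]
  rintro x (⟨γ, ⟨hγ, h0⟩, rfl⟩ | ⟨i, rfl⟩)
  · have h1 := h.χ_mono γ hγ
    have h2 := RD.χ_mem_H S' (h.Γ_le γ hγ) h0
    have h3 : S.χ γ = (S.χ γ / S'.χ γ) * S'.χ γ :=
      (div_mul_cancel₀ _ (S'.χ_ne γ (h.Γ_le γ hγ))).symm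
    rw [h3]
    exact mul_mem h1 h2
  · exact h.y_mem i

/-- A common denominator. -/
theorem exists_denom (S : RD k v d) (N : Polynomial S.K) :
    ∃ D ∈ S.P, D ≠ 0 ∧ ∀ i, D * algebraMap S.K Ω (N.coeff i) ∈ S.P := by
  classical
  have h1 : ∀ F : Finset Ω, (∀ a ∈ F, a ∈ S.K) →
      ∃ D ∈ S.P, D ≠ 0 ∧ ∀ a ∈ F, D * a ∈ S.P := by
    intro F
    induction F using Finset.induction_on with
    | empty => exact fun _ => ⟨1, one_mem _, one_ne_zero, fun a ha => absurd ha (by simp)⟩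
    | insert x F hx ih =>
      intro hF
      obtain ⟨D, hD, hD0, h2⟩ := ih fun a ha => hF a (Finset.mem_insert_of_mem ha)
      obtain ⟨b, hb, c, hc, hc0, hx'⟩ := inFr_of_K S (hF x (Finset.mem_insert_self _ _))
      refine ⟨D * c, mul_mem hD hc, mul_ne_zero hD0 hc0, fun a ha => ?_⟩
      rcases Finset.mem_insert.mp ha with rfl | ha
      · have e1 : D * c * a = D * b := by rw [hx']; field_simp
        rw [e1]
        exact mul_mem hD hb
      · have e1 : D * c * a = D * a * c := by ring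
        rw [e1]
        exact mul_mem (h2 a ha) hc
  obtain ⟨D, hD, hD0, h2⟩ := h1
    ((Finset.range (N.natDegree + 1)).image fun i => algebraMap S.K Ω (N.coeff i))
    (fun a ha => by
      obtain ⟨i, -, rfl⟩ := Finset.mem_image.mp ha
      exact (N.coeff i).2)
  refine ⟨D, hD, hD0, fun i => ?_⟩
  by_cases hi : i < N.natDegree + 1
  · exact h2 _ (Finset.mem_image.mpr ⟨i, Finset.mem_range.mpr hi, rfl⟩)
  · rw [coeff_eq_zero_of_natDegree_lt (by omega), map_zero, mul_zero]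
    exact zero_mem _

end Key

section One

variable {d : ℕ}

/-- **Row H5** (the one root lemma): for `ψ` in the henselization and every `β` there is a
polynomial over `S.P` whose linear Taylor coefficient at `ψ` strictly dominates at radius `β`. -/
theorem exists_key [IsAlgClosed Ω] [IsAlgClosed k] (h : Ctx0 k v n) (S : RD k v d) {ψ : Ω}
    (hψ : ψ ∈ S.H) (β : 𝕂) :
    ∃ N : Polynomial Ω, (∀ i, N.coeff i ∈ S.P) ∧ (taylor ψ N).coeff 1 ≠ 0 ∧
      ((taylor ψ N).coeff 0 ≠ 0 → v ((taylor ψ N).coeff 1) + β < v ((taylor ψ N).coeff 0)) ∧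
      ∀ j : ℕ, 2 ≤ j → (taylor ψ N).coeff j ≠ 0 →
        v ((taylor ψ N).coeff 1) + β < v ((taylor ψ N).coeff j) + j * β := by
  have hinf : Infinite k := IsAlgClosed.instInfinite
  have hinfL : Infinite S.K := Infinite.of_injective (algebraMap k S.K)
    (algebraMap k S.K).injective
  obtain ⟨E, hE1, hE2, η, s, hcm, ha, -, -⟩ := Key.go_of_mem (L := S.K) h (Key.P_ge h S)
    (fun a ha => Key.P_le_K S ha) hψ
  obtain ⟨N, hN1, hN0, hNj⟩ := Pool.Agent.ALL7.one_root_isoO v E η hcm.iso ha β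
  obtain ⟨D, hD, hD0, hDN⟩ := Key.exists_denom S N
  have hco : ∀ i, (taylor ψ (C D * N.map (algebraMap S.K Ω))).coeff i
      = D * (taylor ψ (N.map (algebraMap S.K Ω))).coeff i := by
    intro i
    rw [taylor_mul, taylor_C, coeff_C_mul]
  have hval : ∀ i, (taylor ψ (N.map (algebraMap S.K Ω))).coeff i ≠ 0 →
      v ((taylor ψ (C D * N.map (algebraMap S.K Ω))).coeff i)
        = v D + v ((taylor ψ (N.map (algebraMap S.K Ω))).coeff i) := by
    intro i hi
    rw [hco, v.map_mul hD0 hi]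
  have hne : ∀ i, (taylor ψ (C D * N.map (algebraMap S.K Ω))).coeff i ≠ 0 →
      (taylor ψ (N.map (algebraMap S.K Ω))).coeff i ≠ 0 := by
    intro i hi h0
    rw [hco, h0, mul_zero] at hi
    exact hi rfl
  refine ⟨C D * N.map (algebraMap S.K Ω), fun i => ?_, ?_, fun h0 => ?_, fun j hj h0 => ?_⟩
  · rw [coeff_C_mul, coeff_map]
    exact hDN i
  · rw [hco]
    exact mul_ne_zero hD0 hN1
  · rw [hval 1 hN1, hval 0 (hne 0 h0)]
    have h3 := hN0 (hne 0 h0)
    linarith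
  · rw [hval 1 hN1, hval j (hne j h0)]
    have h3 := hNj j hj (hne j h0)
    linarith

/-- **Row H6**: nonzero elements of the field of fractions of the henselization become
monomials. -/
theorem lus_plus [IsAlgClosed Ω] [IsAlgClosed k] (h : Ctx0 k v n) {m : ℕ} (hL : LUsR k v d m)
    (S : RD k v d) (hS : Algebra.trdeg k S.K = m) (Z : Finset Ω)
    (hZ : ∀ z ∈ Z, z ≠ 0 ∧ InFr S.H z) : ∃ S' : RD k v d, S.Le S' ∧ ∀ z ∈ Z, S'.Mono z := by
  classical
  have hinf : Infinite k := IsAlgClosed.instInfinite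
  have hinfL : Infinite S.K := Infinite.of_injective (algebraMap k S.K)
    (algebraMap k S.K).injective
  -- the list of each element
  have key : ∀ z : Ω, z ≠ 0 → InFr S.H z → ∃ (η : Ω) (Y : Finset S.K), η ∈ S.H ∧
      (∀ y ∈ Y, y ≠ 0) ∧ ∀ (R : Subring Ω) (Γ : AddSubgroup 𝕂) (χ : 𝕂 → Ω),
      Pool.Agent.ALL7.HClO v R → (∀ γ ∈ Γ, χ γ ≠ 0) →
      (∀ γ ∈ Γ, ∀ δ ∈ Γ, χ (γ + δ) = χ γ * χ δ) →
      (∀ γ ∈ Γ, v (χ γ) = γ) → (∀ γ ∈ Γ, 0 ≤ γ → χ γ ∈ R) → η ∈ R →
      (∀ y ∈ Y, v (algebraMap S.K Ω y) ∈ Γ ∧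
        algebraMap S.K Ω y / χ (v (algebraMap S.K Ω y)) ∈ R) →
      v z ∈ Γ ∧ z / χ (v z) ∈ R := by
    rintro z hz0 ⟨b, hb, c, hc, hc0, hz⟩
    have hb' := Key.go_of_mem (L := S.K) h (Key.P_ge h S) (fun a ha => Key.P_le_K S ha) hb
    have hc' := Key.go_of_mem (L := S.K) h (Key.P_ge h S) (fun a ha => Key.P_le_K S ha) hc
    obtain ⟨E, hE1, hE2, η, s, hcm, ⟨hbE, -, -⟩, hcE, -, -⟩ := Gd.two hb' hc'
    have hzE : z ∈ E := by rw [hz]; exact div_mem hbE hcE
    obtain ⟨Y, hY0, hY⟩ := Pool.Agent.ALL7.mono_of_list_isoO v E η hcm.iso hzE hz0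
    exact ⟨(η : Ω), Y, hcm.ηB, hY0, hY⟩
  choose! η Y hη hY0 hY using fun z (hz : z ∈ Z) => key z (hZ z hz).1 (hZ z hz).2
  obtain ⟨S', hle, hmono⟩ := hL S hS (Z.biUnion fun z => (Y z).image (algebraMap S.K Ω))
    (fun y hy => by
      obtain ⟨z, hz, hy⟩ := Finset.mem_biUnion.mp hy
      obtain ⟨y', hy', rfl⟩ := Finset.mem_image.mp hy
      refine ⟨y'.2, ?_⟩
      rw [Ne, map_eq_zero]
      exact hY0 z hz y' hy')
  refine ⟨S', hle, fun z hz => ?_⟩
  have hHC : Pool.Agent.ALL7.HClO v S'.H.toSubring :=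
    { ge := fun x hx => RD.nonneg h S' x hx
      inv := fun x hx h0 h1 => (RD.hcl S').inv x hx h0 h1
      root := fun P hP x hx h0 h1 h2 =>
        Key.root_nm h (RD.hcl S') (RD.nonneg h S') P hP x hx h0 h1 h2 }
  obtain ⟨h1, h2⟩ := hY z hz S'.H.toSubring S'.Γ S'.χ hHC S'.χ_ne S'.χ_add S'.χ_val
    (fun γ hγ h0 => RD.χ_mem_H S' hγ h0) (Key.H_le hle (hη z hz))
    (fun y hy => by
      have h3 := hmono (algebraMap S.K Ω y) (Finset.mem_biUnion.mpr
        ⟨z, hz, Finset.mem_image.mpr ⟨y, hy, rfl⟩⟩)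
      exact ⟨h3.2.1, h3.2.2⟩)
  exact ⟨(hZ z hz).1, h1, h2⟩

end One

end Pool.Agent.ALLY
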