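import Pool.Agent.Lib.ALLY.Defs

/-!
# PROJECT ALL, block Y, row H10, first part: the linear change of the parameters

If `f` has content `κ` and order `M` with respect to the data `S`, there are data `S'` with the same
monomials, the same henselization and the same field, whose parameters are obtained from those of
`S` by a linear change, such that `f = χ(κ) (u z^M + (χ(> 0), y'_1, .., y'_d))`, `u` a unit.
-/

set_option autoImplicit false

namespace Pool.Agent.ALLY

open Pool.Agent.TAO (OVal VPos Ctx0 CtxR val_add_vpos)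

universe u w

section Hom

variable {k A : Type*} [Field k] [CommRing A] [Algebra k A] {σ : Type*} [Fintype σ]

/-- Homogeneous polynomials. -/
theorem hom_aevalL {P : MvPolynomial σ k} {M : ℕ} (hP : P.IsHomogeneous M) (t : A) (x : σ → A) :
    MvPolynomial.aeval (fun i => t * x i) P = t ^ M * MvPolynomial.aeval x P := by
  classical
  rw [MvPolynomial.aeval_def, MvPolynomial.aeval_def, MvPolynomial.eval₂_eq',
    MvPolynomial.eval₂_eq', Finset.mul_sum]
  refine Finset.sum_congr rfl fun e he => ?_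
  have h1 : ∑ i, e i = M := by
    have h2 := hP (MvPolynomial.mem_support_iff.1 he)
    rw [Finsupp.weight_apply] at h2
    rw [← h2, Finsupp.sum_fintype]
    · simp
    · intro i; simp
  have h3 : ∏ i, (t * x i) ^ e i = t ^ M * ∏ i, x i ^ e i := by
    rw [← h1, ← Finset.prod_pow_eq_pow_sum, ← Finset.prod_mul_distrib]
    exact Finset.prod_congr rfl fun i _ => mul_pow _ _ _
  rw [h3]
  ring

/-- A non-zero form does not vanish at a point with last coordinate `1` outside finitely many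
values of the other coordinates. -/
theorem exists_pointL [Infinite k] {d M : ℕ} {P : MvPolynomial (Fin (d + 1)) k}
    (hP : P.IsHomogeneous M) (hP0 : P ≠ 0) (c : Fin d → k) :
    ∃ l : Fin (d + 1) → k, l (Fin.last d) = 1 ∧ (∀ i : Fin d, l i.castSucc ≠ c i) ∧
      MvPolynomial.aeval l P ≠ 0 := by
  classical
  set Q : MvPolynomial (Fin (d + 1)) k := P * (MvPolynomial.X (Fin.last d) *
    ∏ i : Fin d, (MvPolynomial.X i.castSucc -
      MvPolynomial.C (c i) * MvPolynomial.X (Fin.last d))) with hQ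
  have hQ0 : Q ≠ 0 := by
    refine mul_ne_zero hP0 (mul_ne_zero (MvPolynomial.X_ne_zero _)
      (Finset.prod_ne_zero_iff.2 fun i _ h0 => ?_))
    have h1 := congrArg (MvPolynomial.eval (Pi.single i.castSucc (1 : k))) h0
    rw [map_sub, map_mul, MvPolynomial.eval_X, MvPolynomial.eval_X, MvPolynomial.eval_C, map_zero,
      Pi.single_eq_same, Pi.single_eq_of_ne (Fin.castSucc_ne_last i).symm, mul_zero,
      sub_zero] at h1
    exact one_ne_zero h1
  obtain ⟨x, hx⟩ : ∃ x : Fin (d + 1) → k, MvPolynomial.eval x Q ≠ 0 := by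
    by_contra hcon
    push Not at hcon
    exact hQ0 (MvPolynomial.funext fun x => by rw [hcon x, map_zero])
  rw [hQ, map_mul, map_mul, map_prod, MvPolynomial.eval_X] at hx
  have h1 := left_ne_zero_of_mul hx
  have h2 := right_ne_zero_of_mul hx
  have h3 := left_ne_zero_of_mul h2
  have h4 := Finset.prod_ne_zero_iff.1 (right_ne_zero_of_mul h2)
  refine ⟨fun i => (x (Fin.last d))⁻¹ * x i, inv_mul_cancel₀ h3, fun i hi => ?_, ?_⟩
  · apply h4 i (Finset.mem_univ _)
    rw [map_sub, map_mul, MvPolynomial.eval_X, MvPolynomial.eval_X, MvPolynomial.eval_C, ← hi]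
    field_simp
    ring
  · rw [hom_aevalL hP]
    refine mul_ne_zero (pow_ne_zero _ (inv_ne_zero h3)) ?_
    rw [MvPolynomial.aeval_eq_eval]
    exact h1

end Hom

section Frames

variable {k Ω : Type u} [Field k] [Field Ω] [Algebra k Ω] {𝕂 : Type w} [Field 𝕂] [LinearOrder 𝕂]
  [IsStrictOrderedRing 𝕂] {v : OVal 𝕂 Ω} {D d : ℕ}

theorem RD.χ_zeroL (S : RD k v D) : S.χ 0 = 1 := by
  have h1 := S.χ_add 0 S.Γ.zero_mem 0 S.Γ.zero_mem
  rw [add_zero] at h1
  exact (mul_right_cancel₀ (S.χ_ne 0 S.Γ.zero_mem) (by rw [one_mul]; exact h1)).symm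

theorem RD.P_le_HL (S : RD k v D) : S.P ≤ S.H := le_hz v S.P

theorem RD.χ_mem_PL (S : RD k v D) {γ : 𝕂} (hγ : γ ∈ S.Γ) (h0 : 0 ≤ γ) : S.χ γ ∈ S.P :=
  Algebra.subset_adjoin (Or.inl ⟨γ, ⟨hγ, h0⟩, rfl⟩)

theorem RD.y_mem_PL (S : RD k v D) (i : Fin D) : S.y i ∈ S.P :=
  Algebra.subset_adjoin (Or.inr ⟨i, rfl⟩)

/-- The elements of `S.H` have values `≥ 0`. -/
theorem RD.ge_of_mem_HL (htriv : ∀ c : k, c ≠ 0 → v (algebraMap k Ω c) = 0) (S : RD k v D)
    {f : Ω} (hf : f ∈ S.H) : v.Ge 0 f := by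
  let B : Subalgebra k Ω :=
    { carrier := {f | v.Ge 0 f}
      mul_mem' := fun {a b} ha hb => by
        have := OVal.Ge.mul ha hb
        rwa [add_zero] at this
      add_mem' := fun {a b} ha hb => OVal.Ge.add ha hb
      algebraMap_mem' := fun c hc => by
        rw [htriv c fun h0 => hc (by rw [h0, map_zero])] }
  have h1 : S.P ≤ B := by
    unfold RD.P
    rw [Algebra.adjoin_le_iff]
    rintro g (⟨γ, ⟨hγ, h0⟩, rfl⟩ | ⟨i, rfl⟩)
    · intro _
      rw [S.χ_val γ hγ]
      exact h0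
    · intro _
      exact (S.y_pos i).le
  have h2 : HCl v B :=
    { inv := fun a _ h0 h1 _ => by rw [v.map_inv h0, h1, neg_zero]
      root := fun P _ _ a ha _ _ _ => ha }
  exact hz_le h1 h2 hf

/-- The data with the parameters `y_i - l_i z`, `z`. -/
noncomputable def RD.lin (S : RD k v (d + 1))
    (htriv : ∀ c : k, c ≠ 0 → v (algebraMap k Ω c) = 0) (l : Fin d → k)
    (hl : ∀ i : Fin d, S.y i.castSucc - algebraMap k Ω (l i) * S.z ≠ 0) : RD k v (d + 1) where
  Γ := S.Γ
  fg := S.fg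
  full := S.full
  χ := S.χ
  χ_ne := S.χ_ne
  χ_add := S.χ_add
  χ_val := S.χ_val
  y := Fin.lastCases (motive := fun _ => Ω) S.z
    (fun i => S.y i.castSucc - algebraMap k Ω (l i) * S.z)
  y_ne := fun i => by
    refine Fin.lastCases ?_ (fun i => ?_) i
    · rw [Fin.lastCases_last]; exact S.y_ne _
    · rw [Fin.lastCases_castSucc]; exact hl i
  y_pos := fun i => by
    refine Fin.lastCases ?_ (fun i => ?_) i
    · rw [Fin.lastCases_last]; exact S.y_pos _
    · rw [Fin.lastCases_castSucc]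
      have h1 : VPos v (S.y i.castSucc) := fun _ => S.y_pos _
      have h2 : VPos v (algebraMap k Ω (l i) * S.z) := by
        refine VPos.mul' (fun h0 => ?_) (fun _ => S.y_pos _)
        rw [htriv _ fun h1 => h0 (by rw [h1, map_zero])]
      exact (h1.sub h2) (hl i)

variable (S : RD k v (d + 1)) (htriv : ∀ c : k, c ≠ 0 → v (algebraMap k Ω c) = 0) (l : Fin d → k)
  (hl : ∀ i : Fin d, S.y i.castSucc - algebraMap k Ω (l i) * S.z ≠ 0)

theorem RD.lin_z : (S.lin htriv l hl).z = S.z := by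
  show Fin.lastCases (motive := fun _ => Ω) S.z _ (Fin.last d) = _
  rw [Fin.lastCases_last]

theorem RD.lin_y (i : Fin d) : (S.lin htriv l hl).y i.castSucc =
    S.y i.castSucc - algebraMap k Ω (l i) * S.z := by
  show Fin.lastCases (motive := fun _ => Ω) S.z _ i.castSucc = _
  rw [Fin.lastCases_castSucc]

theorem RD.lin_P : (S.lin htriv l hl).P = S.P := by
  have hz : (S.lin htriv l hl).y (Fin.last d) = S.z := S.lin_z htriv l hl
  apply le_antisymm
  · refine Algebra.adjoin_le ?_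
    rintro g (⟨γ, ⟨hγ, h0⟩, rfl⟩ | ⟨i, rfl⟩)
    · exact S.χ_mem_PL hγ h0
    · refine Fin.lastCases ?_ (fun i => ?_) i
      · rw [hz]; exact S.y_mem_PL _
      · rw [S.lin_y htriv l hl]
        exact sub_mem (S.y_mem_PL _) (mul_mem (S.P.algebraMap_mem _) (S.y_mem_PL _))
  · refine Algebra.adjoin_le ?_
    rintro g (⟨γ, ⟨hγ, h0⟩, rfl⟩ | ⟨i, rfl⟩)
    · exact (S.lin htriv l hl).χ_mem_PL hγ h0
    · refine Fin.lastCases ?_ (fun i => ?_) i
      · have := (S.lin htriv l hl).y_mem_PL (Fin.last d)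
        rw [hz] at this
        exact this
      · have h1 := (S.lin htriv l hl).y_mem_PL i.castSucc
        have h2 := (S.lin htriv l hl).y_mem_PL (Fin.last d)
        rw [S.lin_y htriv l hl] at h1
        rw [hz] at h2
        have h3 := add_mem h1 (mul_mem ((S.lin htriv l hl).P.algebraMap_mem (l i)) h2)
        rwa [sub_add_cancel] at h3

theorem RD.lin_H : (S.lin htriv l hl).H = S.H := by
  unfold RD.H
  rw [S.lin_P htriv l hl]

theorem RD.lin_K : (S.lin htriv l hl).K = S.K := by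
  have hz : (S.lin htriv l hl).y (Fin.last d) = S.z := S.lin_z htriv l hl
  apply le_antisymm
  · unfold RD.K
    rw [IntermediateField.adjoin_le_iff]
    rintro g (⟨γ, hγ, rfl⟩ | ⟨i, rfl⟩)
    · exact IntermediateField.subset_adjoin _ _ (Or.inl ⟨γ, hγ, rfl⟩)
    · refine Fin.lastCases ?_ (fun i => ?_) i
      · rw [hz]; exact IntermediateField.subset_adjoin _ _ (Or.inr ⟨Fin.last d, rfl⟩)
      · rw [S.lin_y htriv l hl]
        exact sub_mem (IntermediateField.subset_adjoin _ _ (Or.inr ⟨_, rfl⟩))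
          (mul_mem (IntermediateField.algebraMap_mem _ _)
            (IntermediateField.subset_adjoin _ _ (Or.inr ⟨Fin.last d, rfl⟩)))
  · have hmem : ∀ i, (S.lin htriv l hl).y i ∈ (S.lin htriv l hl).K := fun i =>
      IntermediateField.subset_adjoin _ _ (Or.inr ⟨i, rfl⟩)
    have h2 := hmem (Fin.last d)
    rw [hz] at h2
    show IntermediateField.adjoin k (S.χ '' {γ | γ ∈ S.Γ} ∪ Set.range S.y) ≤ _
    rw [IntermediateField.adjoin_le_iff]
    rintro g (⟨γ, hγ, rfl⟩ | ⟨i, rfl⟩)
    · exact IntermediateField.subset_adjoin _ _ (Or.inl ⟨γ, hγ, rfl⟩)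
    · refine Fin.lastCases ?_ (fun i => ?_) i
      · exact h2
      · have h1 := hmem i.castSucc
        rw [S.lin_y htriv l hl] at h1
        have h3 := add_mem h1 (mul_mem ((S.lin htriv l hl).K.algebraMap_mem (l i)) h2)
        rwa [sub_add_cancel] at h3

theorem RD.mono_oneL (S : RD k v D) : S.Mono 1 := by
  refine ⟨one_ne_zero, ?_, ?_⟩
  · rw [v.map_one]; exact S.Γ.zero_mem
  · rw [v.map_one, S.χ_zeroL, div_one]; exact S.H.one_mem

theorem RD.lin_le : S.Le (S.lin htriv l hl) where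
  Γ_le := fun _ h => h
  χ_mono := fun γ hγ => by
    have : S.χ γ / (S.lin htriv l hl).χ γ = 1 := div_self (S.χ_ne γ hγ)
    rw [this]
    exact (S.lin htriv l hl).H.one_mem
  y_mem := fun i => by
    rw [S.lin_H htriv l hl]
    exact S.P_le_HL (S.y_mem_PL i)
  den := fun g hg => by
    rw [S.lin_P htriv l hl] at hg
    exact ⟨g, hg, 1, S.P.one_mem, (S.lin htriv l hl).mono_oneL, by rw [div_one]⟩

/-- The ideal `(y_1, .., y_d) H` in the form in which it is used. -/
private def Jx (S : RD k v (d + 1)) (f : Ω) : Prop :=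
  ∃ b : Fin d → Ω, (∀ i, b i ∈ S.H) ∧ f = ∑ i : Fin d, S.y i.castSucc * b i

private theorem Jx.add {S : RD k v (d + 1)} {f g : Ω} (hf : Jx S f) (hg : Jx S g) :
    Jx S (f + g) := by
  obtain ⟨b, hb, rfl⟩ := hf
  obtain ⟨c, hc, rfl⟩ := hg
  refine ⟨fun i => b i + c i, fun i => S.H.add_mem (hb i) (hc i), ?_⟩
  rw [← Finset.sum_add_distrib]
  exact Finset.sum_congr rfl fun i _ => by ring

private theorem Jx.mul {S : RD k v (d + 1)} {f g : Ω} (hf : Jx S f) (hg : g ∈ S.H) :
    Jx S (g * f) := by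
  obtain ⟨b, hb, rfl⟩ := hf
  refine ⟨fun i => g * b i, fun i => S.H.mul_mem hg (hb i), ?_⟩
  rw [Finset.mul_sum]
  exact Finset.sum_congr rfl fun i _ => by ring

private theorem Jx.zero {S : RD k v (d + 1)} : Jx S 0 :=
  ⟨fun _ => 0, fun _ => S.H.zero_mem, by simp⟩

private theorem Jx.y {S : RD k v (d + 1)} (i : Fin d) : Jx S (S.y i.castSucc) := by
  classical
  refine ⟨Pi.single i 1, fun j => ?_, ?_⟩
  · by_cases h : j = i
    · subst h; rw [Pi.single_eq_same]; exact S.H.one_mem
    · rw [Pi.single_eq_of_ne h]; exact S.H.zero_mem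
  · rw [Finset.sum_eq_single i]
    · rw [Pi.single_eq_same, mul_one]
    · intro j _ hj
      rw [Pi.single_eq_of_ne hj, mul_zero]
    · intro h; exact absurd (Finset.mem_univ i) h

/-- **The linear change.** -/
theorem exists_zformL [Infinite k] (htriv : ∀ c : k, c ≠ 0 → v (algebraMap k Ω c) = 0)
    (S : RD k v (d + 1)) {f : Ω} {κ : 𝕂} {M : ℕ} (h : S.Ord f κ M) :
    ∃ S' : RD k v (d + 1), S.Le S' ∧ S'.H = S.H ∧ S'.P = S.P ∧ S'.K = S.K ∧ S'.Γ = S.Γ ∧
      S'.χ = S.χ ∧ S'.z = S.z ∧ S'.ZForm f κ M := by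
  classical
  obtain ⟨hκ, P, hP, hP0, e, he, γ, hγ, hγ0, a, ha, rfl⟩ := h
  -- the coefficients of the linear change
  have hbad : ∀ i : Fin d, ∃ c : k, ∀ l : k, l ≠ c →
      S.y i.castSucc - algebraMap k Ω l * S.z ≠ 0 := by
    intro i
    by_cases hex : ∃ c : k, S.y i.castSucc - algebraMap k Ω c * S.z = 0
    · obtain ⟨c, hc⟩ := hex
      refine ⟨c, fun l hl h0 => hl ?_⟩
      have h1 : algebraMap k Ω l * S.z = algebraMap k Ω c * S.z := by
        rw [← sub_eq_zero.1 hc, ← sub_eq_zero.1 h0]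
      exact (algebraMap k Ω).injective (mul_right_cancel₀ (S.y_ne _) h1)
    · push Not at hex
      exact ⟨0, fun l _ => hex l⟩
  choose c hc using hbad
  obtain ⟨l', hl1, hlc, hlP⟩ := exists_pointL hP hP0 c
  have hl : ∀ i : Fin d, S.y i.castSucc - algebraMap k Ω (l' i.castSucc) * S.z ≠ 0 :=
    fun i => hc i _ (hlc i)
  set l : Fin d → k := fun i => l' i.castSucc with hldef
  set S' := S.lin htriv l hl with hS'
  have hz : S'.z = S.z := S.lin_z htriv l hl
  have hy : ∀ i : Fin d, S'.y i.castSucc = S.y i.castSucc - algebraMap k Ω (l i) * S.z :=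
    S.lin_y htriv l hl
  have hH : S'.H = S.H := S.lin_H htriv l hl
  have hzH : S.z ∈ S.H := S.P_le_HL (S.y_mem_PL _)
  have hyH : ∀ i, S.y i ∈ S.H := fun i => S.P_le_HL (S.y_mem_PL i)
  refine ⟨S', S.lin_le htriv l hl, hH, S.lin_P htriv l hl, S.lin_K htriv l hl, rfl, rfl, hz, hκ, ?_⟩
  -- the old parameters in terms of the new ones
  have hdiff : ∀ i, Jx S' (S.y i - algebraMap k Ω (l' i) * S.z) := by
    intro i
    refine Fin.lastCases ?_ (fun i => ?_) i
    · have : S.y (Fin.last d) - algebraMap k Ω (l' (Fin.last d)) * S.z = 0 := by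
        rw [hl1, map_one, one_mul]
        exact sub_self _
      rw [this]
      exact Jx.zero
    · have := Jx.y (S := S') i
      rw [hy i] at this
      exact this
  -- the form
  have hPdiff : ∀ Q : MvPolynomial (Fin (d + 1)) k, Jx S' (MvPolynomial.aeval S.y Q -
      MvPolynomial.aeval (fun i => S.z * algebraMap k Ω (l' i)) Q) ∧
      MvPolynomial.aeval S.y Q ∈ S.H ∧
      MvPolynomial.aeval (fun i => S.z * algebraMap k Ω (l' i)) Q ∈ S.H := by
    intro Q
    induction Q using MvPolynomial.induction_on with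
    | C a =>
      rw [MvPolynomial.aeval_C, MvPolynomial.aeval_C, sub_self]
      exact ⟨Jx.zero, S.H.algebraMap_mem a, S.H.algebraMap_mem a⟩
    | add Q R hQ hR =>
      rw [map_add, map_add]
      refine ⟨?_, S.H.add_mem hQ.2.1 hR.2.1, S.H.add_mem hQ.2.2 hR.2.2⟩
      have h1 := hQ.1.add hR.1
      rw [add_sub_add_comm]
      exact h1
    | mul_X Q i hQ =>
      rw [map_mul, map_mul, MvPolynomial.aeval_X, MvPolynomial.aeval_X]
      refine ⟨?_, S.H.mul_mem hQ.2.1 (hyH i),
        S.H.mul_mem hQ.2.2 (S.H.mul_mem hzH (S.H.algebraMap_mem _))⟩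
      have e1 : MvPolynomial.aeval S.y Q * S.y i -
          MvPolynomial.aeval (fun i => S.z * algebraMap k Ω (l' i)) Q *
            (S.z * algebraMap k Ω (l' i)) =
          S.y i * (MvPolynomial.aeval S.y Q -
            MvPolynomial.aeval (fun i => S.z * algebraMap k Ω (l' i)) Q) +
          MvPolynomial.aeval (fun i => S.z * algebraMap k Ω (l' i)) Q *
            (S.y i - algebraMap k Ω (l' i) * S.z) := by ring
      rw [e1]
      exact (hQ.1.mul (hH ▸ hyH i)).add ((hdiff i).mul (hH ▸ hQ.2.2))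
  have hform : MvPolynomial.aeval (fun i => S.z * algebraMap k Ω (l' i)) P =
      S.z ^ M * algebraMap k Ω (MvPolynomial.aeval l' P) := by
    rw [hom_aevalL hP]
    congr 1
    exact MvPolynomial.aeval_algebraMap_apply Ω l' P
  -- the error
  have hpow : ∀ n : ℕ, ∀ g ∈ Submodule.span k (Set.range S.y) ^ n * S.H.toSubmodule,
      ∃ h ∈ S.H, Jx S' (g - S.z ^ n * h) ∧ g ∈ S.H := by
    intro n
    induction n with
    | zero =>
      intro g hg
      rw [pow_zero, one_mul] at hg
      exact ⟨g, hg, by rw [pow_zero, one_mul, sub_self]; exact Jx.zero, hg⟩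
    | succ n ih =>
      intro g hg
      rw [pow_succ', mul_assoc] at hg
      induction hg using Submodule.mul_induction_on' with
      | mem_mul_mem x hx y hy' =>
        obtain ⟨h, hh, hJ, hyH'⟩ := ih y hy'
        -- `x = c z + w`
        have hx' : ∃ c : k, Jx S' (x - algebraMap k Ω c * S.z) ∧ x ∈ S.H := by
          induction hx using Submodule.span_induction with
          | mem x hx =>
            obtain ⟨i, rfl⟩ := hx
            exact ⟨l' i, hdiff i, hyH i⟩
          | zero => exact ⟨0, by rw [map_zero, zero_mul, sub_zero]; exact Jx.zero, S.H.zero_mem⟩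
          | add x x' _ _ hx hx' =>
            obtain ⟨c, h1, h1'⟩ := hx
            obtain ⟨c', h2, h2'⟩ := hx'
            refine ⟨c + c', ?_, S.H.add_mem h1' h2'⟩
            have e1 : x + x' - algebraMap k Ω (c + c') * S.z =
                (x - algebraMap k Ω c * S.z) + (x' - algebraMap k Ω c' * S.z) := by
              rw [map_add]; ring
            rw [e1]
            exact h1.add h2
          | smul b x _ hx =>
            obtain ⟨c, h1, h1'⟩ := hx
            refine ⟨b * c, ?_, S.H.smul_mem h1' b⟩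
            have e1 : b • x - algebraMap k Ω (b * c) * S.z =
                algebraMap k Ω b * (x - algebraMap k Ω c * S.z) := by
              rw [map_mul, Algebra.smul_def]; ring
            rw [e1]
            exact h1.mul (S'.H.algebraMap_mem b)
        obtain ⟨c, hcx, hxH⟩ := hx'
        refine ⟨algebraMap k Ω c * h, S.H.mul_mem (S.H.algebraMap_mem c) hh, ?_,
          S.H.mul_mem hxH hyH'⟩
        have e1 : x * y - S.z ^ (n + 1) * (algebraMap k Ω c * h) =
            y * (x - algebraMap k Ω c * S.z) +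
            (algebraMap k Ω c * S.z) * (y - S.z ^ n * h) := by ring
        rw [e1]
        exact (hcx.mul (hH ▸ hyH')).add (hJ.mul (hH ▸ S.H.mul_mem (S.H.algebraMap_mem c) hzH))
      | add x _ y _ hx hy' =>
        obtain ⟨h1, hh1, hJ1, hx1⟩ := hx
        obtain ⟨h2, hh2, hJ2, hx2⟩ := hy'
        refine ⟨h1 + h2, S.H.add_mem hh1 hh2, ?_, S.H.add_mem hx1 hx2⟩
        have e1 : x + y - S.z ^ (n + 1) * (h1 + h2) =
            (x - S.z ^ (n + 1) * h1) + (y - S.z ^ (n + 1) * h2) := by ring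
        rw [e1]
        exact hJ1.add hJ2
  obtain ⟨h, hh, hJe, -⟩ := hpow (M + 1) e he
  obtain ⟨b1, hb1, e1⟩ := (hPdiff P).1
  obtain ⟨b2, hb2, e2⟩ := hJe
  set c₀ : k := MvPolynomial.aeval l' P with hc₀
  refine ⟨algebraMap k Ω c₀ + S.z * h, ⟨?_, ?_⟩, ∑ i : Fin d, S'.y i.castSucc * (b1 i + b2 i) +
    S.χ γ * a, ⟨γ, hγ, hγ0, a, hH ▸ ha, fun i => b1 i + b2 i,
      fun i => S'.H.add_mem (hb1 i) (hb2 i), ?_⟩, ?_⟩
  · rw [hH]
    exact S.H.add_mem (S.H.algebraMap_mem _) (S.H.mul_mem hzH hh)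
  · refine val_add_vpos ((map_ne_zero _).2 hlP) (htriv _ hlP) ?_
    exact VPos.mul (fun _ => S.y_pos _) (S.ge_of_mem_HL htriv hh)
  · show _ = S.χ γ * a + _
    ring
  · show S.χ κ * _ = S.χ κ * _
    rw [hz]
    congr 1
    have e3 : ∑ i : Fin d, S'.y i.castSucc * (b1 i + b2 i) =
        ∑ i : Fin d, S'.y i.castSucc * b1 i + ∑ i : Fin d, S'.y i.castSucc * b2 i := by
      rw [← Finset.sum_add_distrib]
      exact Finset.sum_congr rfl fun i _ => by ring
    rw [e3, ← e1, ← e2, hform]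
    ring

/-- the elements of `(χ(> 0), y_1, .., y_d) H` have positive values -/
theorem RD.Lx.vposL {S : RD k v (d + 1)} (htriv : ∀ c : k, c ≠ 0 → v (algebraMap k Ω c) = 0)
    {e : Ω} (he : S.Lx e) : VPos v e := by
  obtain ⟨γ, hγ, hγ0, a, ha, b, hb, rfl⟩ := he
  refine VPos.add ?_ ?_
  · refine VPos.mul (fun _ => ?_) (S.ge_of_mem_HL htriv ha)
    rw [S.χ_val γ hγ]
    exact hγ0
  · have h1 : ∀ s : Finset (Fin d), VPos v (∑ i ∈ s, S.y i.castSucc * b i) := by
      classical
      intro s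
      induction s using Finset.induction with
      | empty => rw [Finset.sum_empty]; exact VPos.zero
      | insert i s hi ih =>
        rw [Finset.sum_insert hi]
        exact VPos.add (VPos.mul (fun _ => S.y_pos _) (S.ge_of_mem_HL htriv (hb i))) ih
    exact h1 Finset.univ

theorem RD.Lx.memL {S : RD k v (d + 1)} {e : Ω} (he : S.Lx e) : e ∈ S.H := by
  obtain ⟨γ, hγ, hγ0, a, ha, b, hb, rfl⟩ := he
  exact S.H.add_mem (S.H.mul_mem (S.P_le_HL (S.χ_mem_PL hγ hγ0.le)) ha)
    (S.H.sum_mem fun i _ => S.H.mul_mem (S.P_le_HL (S.y_mem_PL _)) (hb i))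

/-- Order `0`: a monomial times a unit. -/
theorem mono_of_zform_zero {S : RD k v (d + 1)}
    (htriv : ∀ c : k, c ≠ 0 → v (algebraMap k Ω c) = 0) {f : Ω} {κ : 𝕂} (h : S.ZForm f κ 0) :
    S.Mono f := by
  obtain ⟨hκ, u, ⟨hu, hu0, hvu⟩, e, he, rfl⟩ := h
  rw [pow_zero, mul_one]
  obtain ⟨h1, h2⟩ := val_add_vpos hu0 hvu (he.vposL htriv)
  have h3 : v (S.χ κ * (u + e)) = κ := by
    rw [v.map_mul (S.χ_ne κ hκ) h1, S.χ_val κ hκ, h2, add_zero]
  refine ⟨mul_ne_zero (S.χ_ne κ hκ) h1, by rw [h3]; exact hκ, ?_⟩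
  rw [h3, mul_div_cancel_left₀ _ (S.χ_ne κ hκ)]
  exact S.H.add_mem hu he.memL

end Frames

end Pool.Agent.ALLY
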