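import Pool.Agent.Lib.ALLY.Defs
import Pool.Agent.Lib.ALL_h43.Order

/-!
# Block Y, any rank: one step (rows H7, H8, H9)
-/

set_option autoImplicit false

open Polynomial

namespace Pool.Agent.ALLY

open Pool.Agent.TAO (OVal VPos Ctx0 CtxR val_add_vpos)
open Pool.Agent.ALLh43 (Mon MF JJ MonIn ext le_ext mem_ext mem_ext_iff ext_fg exists_chi Dom NewF)

universe u w

variable {k Ω : Type u} [Field k] [Field Ω] [Algebra k Ω] {𝕂 : Type w} [Field 𝕂] [LinearOrder 𝕂]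
  [IsStrictOrderedRing 𝕂] {v : OVal 𝕂 Ω} {D d : ℕ}

theorem RD.mon (S : RD k v D) : Mon v S.Γ S.χ := ⟨S.χ_ne, S.χ_add, S.χ_val⟩

theorem RD.P_le (S : RD k v D) : S.P ≤ S.H := le_hz v S.P

theorem RD.χ_memP (S : RD k v D) {γ : 𝕂} (h : γ ∈ S.Γ) (h0 : 0 ≤ γ) : S.χ γ ∈ S.P :=
  Algebra.subset_adjoin (Or.inl ⟨γ, ⟨h, h0⟩, rfl⟩)

theorem RD.y_memP (S : RD k v D) (i : Fin D) : S.y i ∈ S.P :=
  Algebra.subset_adjoin (Or.inr ⟨i, rfl⟩)

theorem RD.P_le_iff (S : RD k v D) {B : Subalgebra k Ω} :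
    S.P ≤ B ↔ (∀ γ ∈ S.Γ, 0 ≤ γ → S.χ γ ∈ B) ∧ ∀ i, S.y i ∈ B := by
  constructor
  · intro h
    exact ⟨fun γ hγ h0 => h (S.χ_memP hγ h0), fun i => h (S.y_memP i)⟩
  · rintro ⟨h1, h2⟩
    refine Algebra.adjoin_le ?_
    rintro g (⟨γ, ⟨hγ, h0⟩, rfl⟩ | ⟨i, rfl⟩)
    · exact h1 γ hγ h0
    · exact h2 i

theorem RD.P_mem_KS (S : RD k v D) : ∀ g ∈ S.P, g ∈ S.K := by
  intro g hg
  have h : S.P ≤ S.K.toSubalgebra := by
    refine S.P_le_iff.mpr ⟨fun γ hγ _ => ?_, fun i => ?_⟩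
    · exact IntermediateField.subset_adjoin _ _ (Or.inl ⟨γ, hγ, rfl⟩)
    · exact IntermediateField.subset_adjoin _ _ (Or.inr ⟨i, rfl⟩)
  exact h hg

/-- The monomials of a refinement are in the same field. -/
theorem RD.Le.χ_mem_K {S T : RD k v D} (h : S.Le T) {γ : 𝕂} (hγ : γ ∈ T.Γ) : T.χ γ ∈ S.K := by
  have key : ∀ {γ : 𝕂}, γ ∈ T.Γ → 0 ≤ γ → T.χ γ ∈ S.K := by
    intro γ hγ h0
    obtain ⟨a, ha, b, hb, -, e⟩ := h.den _ (T.χ_memP hγ h0)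
    rw [e]
    exact S.K.div_mem (S.P_mem_KS a ha) (S.P_mem_KS b hb)
  rcases le_total 0 γ with h0 | h0
  · exact key hγ h0
  · have h1 := S.K.inv_mem (key (T.Γ.neg_mem hγ) (neg_nonneg.mpr h0))
    rwa [T.mon.neg hγ, inv_inv] at h1

/-- The local ring data of a rational frame. -/
theorem RD.mf (S : RD k v D) (hpos : ∃ γ ∈ S.Γ, 0 < γ) (hnn : ∀ f ∈ S.H, v.Ge 0 f) :
    MF v S.Γ S.χ S.y S.H where
  toMon := S.mon
  pos := hpos
  mem := fun _ hγ h0 => S.P_le (S.χ_memP hγ h0)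
  y_mem := fun i => S.P_le (S.y_memP i)
  y_pos := fun i _ => S.y_pos i
  nonneg := hnn
  inv := fun f hf h0 h1 => (hz_hcl v S.P).inv f hf h0 h1

/-- The elements which are quotients of elements of `A` with monomial denominators. -/
def Dn (A : Subalgebra k Ω) (Γ : AddSubgroup 𝕂) (χ : 𝕂 → Ω) (H : Subalgebra k Ω)
    (v : OVal 𝕂 Ω) (g : Ω) : Prop :=
  ∃ a ∈ A, ∃ b ∈ A, MonIn v Γ χ H b ∧ g = a / b

section MonIn

variable {Γ : AddSubgroup 𝕂} {χ : 𝕂 → Ω} {y : Fin d → Ω} {H : Subalgebra k Ω}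

theorem monIn_one (h : MF v Γ χ y H) : MonIn v Γ χ H (1 : Ω) := by
  refine ⟨one_ne_zero, ?_, ?_⟩
  · rw [v.map_one]; exact Γ.zero_mem
  · rw [v.map_one, h.toMon.zero, div_one]; exact H.one_mem

theorem monIn_mul (h : MF v Γ χ y H) {f g : Ω} (hf : MonIn v Γ χ H f) (hg : MonIn v Γ χ H g) :
    MonIn v Γ χ H (f * g) := by
  refine ⟨mul_ne_zero hf.1 hg.1, ?_, ?_⟩
  · rw [v.map_mul hf.1 hg.1]; exact Γ.add_mem hf.2.1 hg.2.1
  · rw [v.map_mul hf.1 hg.1, h.add _ hf.2.1 _ hg.2.1, mul_div_mul_comm]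
    exact H.mul_mem hf.2.2 hg.2.2

theorem monIn_inv (h : MF v Γ χ y H) {f : Ω} (hf : MonIn v Γ χ H f) : MonIn v Γ χ H f⁻¹ := by
  have h0 := h.ne _ hf.2.1
  refine ⟨inv_ne_zero hf.1, ?_, ?_⟩
  · rw [v.map_inv hf.1]; exact Γ.neg_mem hf.2.1
  · rw [v.map_inv hf.1, h.toMon.neg hf.2.1]
    have : f⁻¹ / (χ (v f))⁻¹ = (f / χ (v f))⁻¹ := by rw [inv_div, div_inv_eq_mul, div_eq_mul_inv,
      mul_comm]
    rw [this]
    exact h.inv _ hf.2.2 (div_ne_zero hf.1 h0) (by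
      rw [v.map_div hf.1 h0, h.val _ hf.2.1, sub_self])

theorem monIn_div (h : MF v Γ χ y H) {f g : Ω} (hf : MonIn v Γ χ H f) (hg : MonIn v Γ χ H g) :
    MonIn v Γ χ H (f / g) := by
  rw [div_eq_mul_inv]
  exact monIn_mul h hf (monIn_inv h hg)

variable {A : Subalgebra k Ω}

theorem dn_of_mem (h : MF v Γ χ y H) {g : Ω} (hg : g ∈ A) : Dn A Γ χ H v g :=
  ⟨g, hg, 1, A.one_mem, monIn_one h, (div_one g).symm⟩

/-- The subalgebra of the elements which are quotients with monomial denominators. -/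
def dnAlg (A : Subalgebra k Ω) (h : MF v Γ χ y H) : Subalgebra k Ω where
  carrier := {g | Dn A Γ χ H v g}
  mul_mem' := by
    rintro _ _ ⟨a, ha, b, hb, hm, rfl⟩ ⟨a', ha', b', hb', hm', rfl⟩
    exact ⟨a * a', A.mul_mem ha ha', b * b', A.mul_mem hb hb', monIn_mul h hm hm',
      div_mul_div_comm _ _ _ _⟩
  add_mem' := by
    rintro _ _ ⟨a, ha, b, hb, hm, rfl⟩ ⟨a', ha', b', hb', hm', rfl⟩
    exact ⟨a * b' + b * a', A.add_mem (A.mul_mem ha hb') (A.mul_mem hb ha'), b * b',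
      A.mul_mem hb hb', monIn_mul h hm hm', div_add_div _ _ hm.1 hm'.1⟩
  algebraMap_mem' := fun c => dn_of_mem h (A.algebraMap_mem c)

theorem dn_inv (h : MF v Γ χ y H) {g : Ω} (hg : Dn A Γ χ H v g) (hm : MonIn v Γ χ H g) :
    Dn A Γ χ H v g⁻¹ := by
  obtain ⟨a, ha, b, hb, hmb, rfl⟩ := hg
  refine ⟨b, hb, a, ha, ?_, by rw [inv_div]⟩
  have := monIn_mul h hm hmb
  rwa [div_mul_cancel₀ _ hmb.1] at this

theorem dn_mul (h : MF v Γ χ y H) {f g : Ω} (hf : Dn A Γ χ H v f) (hg : Dn A Γ χ H v g) :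
    Dn A Γ χ H v (f * g) := (dnAlg A h).mul_mem hf hg

theorem dn_pow (h : MF v Γ χ y H) {f : Ω} (hf : Dn A Γ χ H v f) (m : ℕ) :
    Dn A Γ χ H v (f ^ m) := (dnAlg A h).pow_mem hf m

theorem dn_zpow (h : MF v Γ χ y H) {g : Ω} (hg : Dn A Γ χ H v g) (hm : MonIn v Γ χ H g)
    (m : ℤ) : Dn A Γ χ H v (g ^ m) := by
  obtain ⟨m, rfl | rfl⟩ := m.eq_nat_or_neg
  · rw [zpow_natCast]; exact dn_pow h hg m
  · rw [zpow_neg, zpow_natCast, ← inv_pow]; exact dn_pow h (dn_inv h hg hm) m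

end MonIn

/-- One step. `T` is a refinement of `S.low`; `u` is a polynomial in `S.z` over `S.low.P` whose
expansion `∑ Q_j (z - ψ) ^ j` is dominated by the term of degree one; `f` is, up to a monomial,
`∑ b_j (z - ψ) ^ j` with `b_M` a unit and `b_(M-1)` negligible. Then `f` has order less than `M` in
the last parameter in a refinement of `S`. -/
theorem step_core (hnm : ∀ B : Subalgebra k Ω, HCl v B → (∀ f ∈ B, v.Ge 0 f) → ∀ G : Polynomial Ω,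
      (∀ j, G.coeff j ∈ B) → ∀ a : Ω, v.Ge 0 a → G.eval a = 0 →
      G.derivative.eval a ≠ 0 → v (G.derivative.eval a) = 0 → a ∈ B)
    (hnn : ∀ {D' : ℕ} (S' : RD k v D'), ∀ f ∈ S'.H, v.Ge 0 f)
    (hmx : ∀ (T' : RD k v d), ∀ f ∈ T'.H, VPos v f → T'.Mx f)
    (triv : ∀ c : k, c ≠ 0 → v (algebraMap k Ω c) = 0)
    (res : ∀ g : Ω, g ≠ 0 → v g = 0 → ∃ c : k, c ≠ 0 ∧ VPos v (g - algebraMap k Ω c))
    {S : RD k v (d + 1)} {T : RD k v d} (hT : S.low.Le T) {u : Ω} (hu : u ∈ S.P)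
    (hut : Transcendental S.low.K u) {ψ : Ω} (hψ : ψ ∈ T.H) (hX0 : S.z - ψ ≠ 0)
    (hX : 0 < v (S.z - ψ)) {N : ℕ} {Q : ℕ → Ω} (hd : Dom v N Q (S.z - ψ))
    (huQ : u = ∑ j ∈ Finset.range (N + 1), Q j * (S.z - ψ) ^ j)
    (hQ : ∀ j ≤ N, Q j = 0 ∨ T.Mono (Q j)) {M : ℕ} (hM : 0 < M) (hMk : (M : k) ≠ 0) {b : ℕ → Ω}
    (hb : ∀ j ≤ M, b j = 0 ∨ T.Mono (b j)) (hbM : b M ≠ 0) (hbMv : v (b M) = 0)
    (hb1 : b (M - 1) ≠ 0 → v (S.z - ψ) < v (b (M - 1))) {g : Ω} (hg : g ∈ S.H) {κ₀ : 𝕂}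
    (hκ₀ : κ₀ ∈ S.Γ) {f : Ω}
    (hf : f = S.χ κ₀ * (∑ j ∈ Finset.range (M + 1), b j * (S.z - ψ) ^ j +
      (S.z - ψ) ^ (M + 1) * g)) :
    ∃ S' : RD k v (d + 1), S.Le S' ∧ ∃ μ, ∃ M' < M, S'.ZForm f μ M' := by
  classical
  -- the value of `u` and its order modulo `T.Γ`
  set X : Ω := S.z - ψ with hXdef
  obtain ⟨κ, hκ⟩ : ∃ κ, κ = v (Q 1) + v X := ⟨_, rfl⟩
  have huv : u ≠ 0 ∧ v u = κ := by rw [huQ, hκ]; exact hd.val
  have hu0 := huv.1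
  have hexq : ∃ m : ℕ, 0 < m ∧ (m : 𝕂) * κ ∈ T.Γ := by
    have := T.full u hu0
    rwa [huv.2] at this
  let q := Nat.find hexq
  have hq : 0 < q := (Nat.find_spec hexq).1
  have hqκ : (q : 𝕂) * κ ∈ T.Γ := (Nat.find_spec hexq).2
  have hqmin : ∀ m : ℤ, (m : 𝕂) * κ ∈ T.Γ → (q : ℤ) ∣ m := by
    intro m hm
    have hq' : (0 : ℤ) < q := by exact_mod_cast hq
    have h1 : ((m % q : ℤ) : 𝕂) * κ ∈ T.Γ := by
      have e : ((m % q : ℤ) : 𝕂) * κ = (m : 𝕂) * κ - ((m / q : ℤ) : 𝕂) * ((q : 𝕂) * κ) := by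
        have h2 := Int.emod_add_mul_ediv m q
        have h3 : (m : 𝕂) = ((m % q : ℤ) : 𝕂) + (q : 𝕂) * ((m / q : ℤ) : 𝕂) := by
          exact_mod_cast congrArg (Int.cast : ℤ → 𝕂) h2.symm
        rw [h3]
        ring
      rw [e]
      exact T.Γ.sub_mem hm (ALLh43.int_mul_mem hqκ _)
    have h2 := Int.emod_nonneg m hq'.ne'
    have h3 := Int.emod_lt_of_pos m hq'
    obtain ⟨t, ht⟩ := Int.eq_ofNat_of_zero_le h2
    rw [ht] at h1 h3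
    rw [Int.cast_natCast] at h1
    rcases Nat.eq_zero_or_pos t with h0 | h0
    · rw [h0] at ht
      exact Int.dvd_of_emod_eq_zero (by simpa using ht)
    · exact absurd ⟨h0, h1⟩ (Nat.find_min hexq (by exact_mod_cast h3))
  obtain ⟨χ', hχ', n, hn1, hn2⟩ := exists_chi T.fg T.mon hu0 huv.2 hq hqκ hqmin
  have hχq := T.χ_ne _ hqκ
  set W : Ω := u ^ q / T.χ ((q : 𝕂) * κ) with hW
  have hW0 : W ≠ 0 := div_ne_zero (pow_ne_zero _ hu0) hχq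
  have hWv : v W = 0 := by
    rw [hW, v.map_div (pow_ne_zero _ hu0) hχq, v.map_pow hu0, huv.2, T.χ_val _ hqκ, sub_self]
  obtain ⟨c, hc0, hc⟩ := res W hW0 hWv
  have hWc : W - algebraMap k Ω c ≠ 0 := by
    intro h0
    have h1 : u ^ q = algebraMap k Ω c * T.χ ((q : 𝕂) * κ) := by
      rw [← sub_eq_zero.mp h0, hW, div_mul_cancel₀ _ hχq]
    have h2 : u ^ q ∈ S.low.K := by
      rw [h1]
      exact S.low.K.mul_mem (S.low.K.algebraMap_mem c) (hT.χ_mem_K hqκ)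
    refine hut ⟨Polynomial.X ^ q - Polynomial.C ⟨u ^ q, h2⟩, ?_, ?_⟩
    · exact (Polynomial.monic_X_pow_sub_C _ hq.ne').ne_zero
    · rw [map_sub, map_pow, Polynomial.aeval_X, Polynomial.aeval_C]
      exact sub_self _
  -- the new frame
  let S' : RD k v (d + 1) :=
    { Γ := ext T.Γ κ
      fg := ext_fg T.fg κ
      full := fun g hg => by
        obtain ⟨m, hm, h1⟩ := T.full g hg
        exact ⟨m, hm, le_ext _ _ h1⟩
      χ := χ'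
      χ_ne := hχ'.ne
      χ_add := hχ'.add
      χ_val := hχ'.val
      y := Fin.snoc T.y (W - algebraMap k Ω c)
      y_ne := fun i => by
        refine Fin.lastCases ?_ (fun i => ?_) i
        · rw [Fin.snoc_last]; exact hWc
        · rw [Fin.snoc_castSucc]; exact T.y_ne i
      y_pos := fun i => by
        refine Fin.lastCases ?_ (fun i => ?_) i
        · rw [Fin.snoc_last]; exact hc hWc
        · rw [Fin.snoc_castSucc]; exact T.y_pos i }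
  have hSΓ : S'.Γ = ext T.Γ κ := rfl
  have hSχ : S'.χ = χ' := rfl
  have hSy : ∀ i : Fin d, S'.y i.castSucc = T.y i := fun i => by
    change (Fin.snoc T.y (W - algebraMap k Ω c) : Fin (d + 1) → Ω) i.castSucc = _
    rw [Fin.snoc_castSucc]
  have hSz : S'.z = W - algebraMap k Ω c := by
    change (Fin.snoc T.y (W - algebraMap k Ω c) : Fin (d + 1) → Ω) (Fin.last d) = _
    rw [Fin.snoc_last]
  have hWH : W ∈ S'.H := by
    have h1 : S'.z ∈ S'.H := S'.P_le (S'.y_memP _)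
    rw [hSz] at h1
    have h2 := S'.H.add_mem h1 (S'.H.algebraMap_mem c)
    rwa [sub_add_cancel] at h2
  obtain ⟨γ₁, hγ₁, hγ₁0⟩ : ∃ γ ∈ T.Γ, 0 < γ := by
    obtain ⟨m, hm, h1⟩ := T.full S.z (S.y_ne _)
    exact ⟨_, h1, mul_pos (by exact_mod_cast hm) (S.y_pos _)⟩
  have hTmf : MF v T.Γ T.χ T.y T.H := T.mf ⟨γ₁, hγ₁, hγ₁0⟩ (hnn T)
  have hTgen : ∀ f ∈ T.H, VPos v f → JJ T.Γ T.χ T.y T.H f := fun f hf hv => hmx T f hf hv
  have hSmf : MF v (ext T.Γ κ) χ' T.y S'.H :=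
    { toMon := hχ'
      pos := ⟨γ₁, le_ext _ _ hγ₁, hγ₁0⟩
      mem := fun γ hγ h0 => S'.P_le (S'.χ_memP hγ h0)
      y_mem := fun i => by
        rw [← hSy i]
        exact S'.P_le (S'.y_memP _)
      y_pos := fun i _ => T.y_pos i
      nonneg := hnn S'
      inv := fun f hf h0 h1 => (hz_hcl v S'.P).inv f hf h0 h1 }
  have hWz : ∀ m : ℤ, W ^ m ∈ S'.H := by
    intro m
    obtain ⟨m, rfl | rfl⟩ := m.eq_nat_or_neg
    · rw [zpow_natCast]; exact S'.H.pow_mem hWH m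
    · rw [zpow_neg, zpow_natCast, ← inv_pow]
      exact S'.H.pow_mem (hSmf.inv _ hWH hW0 hWv) m
  have hχT : ∀ γ ∈ T.Γ, T.χ γ = χ' γ * W ^ n γ 0 := by
    intro γ hγ
    have h1 := hn1 γ hγ 0
    rw [zpow_zero, mul_one, Int.cast_zero, zero_mul, add_zero] at h1
    exact h1
  have hTS : T.H ≤ S'.H := by
    refine hz_le_hz (T.P_le_iff.mpr ⟨fun γ hγ h0 => ?_, fun i => ?_⟩)
    · rw [hχT γ hγ]
      exact S'.H.mul_mem (S'.P_le (S'.χ_memP (le_ext _ _ hγ) h0)) (hWz _)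
    · rw [← hSy i]
      exact S'.P_le (S'.y_memP _)
  have hnew : NewF v T.Γ T.χ T.y T.H u κ q χ' n S'.H :=
    { old := hTmf
      gen := hTgen
      new := hSmf
      le := hTS
      u_ne := hu0
      u_val := huv.2
      q_pos := hq
      qκ := hqκ
      W_mem := hWH
      eq := hn1
      dif := hn2
      root := hnm S'.H (hz_hcl v S'.P) (hnn S') }
  have hQ' : ∀ j ≤ N, Q j = 0 ∨ MonIn v T.Γ T.χ T.H (Q j) := hQ
  -- `z` lies in the new ring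
  obtain ⟨θ, hθH, e₀, he₀, hθ0, hθv, hθJ, hXθ⟩ := hnew.theta res hd huQ hQ'
  have hQ1 : MonIn v T.Γ T.χ T.H (Q 1) := (hQ' 1 hd.one_le).resolve_left hd.P1
  have hXH : X ∈ S'.H := by
    have h1 := hn1 (-v (Q 1)) (T.Γ.neg_mem hQ1.2.1) 1
    rw [zpow_one] at h1
    rw [hXθ, h1]
    have h2 : -v (Q 1) + ((1 : ℤ) : 𝕂) * κ = v X := by rw [hκ]; push_cast; ring
    rw [h2]
    refine S'.H.mul_mem (S'.H.mul_mem (hSmf.mem _ ?_ hX.le) (hWz _)) hθH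
    rw [← h2]
    exact ALLh43.add_mul_mem_ext κ (T.Γ.neg_mem hQ1.2.1) 1
  have hzH : S.z ∈ S'.H := by
    have := S'.H.add_mem hXH (hTS hψ)
    rwa [hXdef, sub_add_cancel] at this
  -- refinement
  have hlowP : S.low.P ≤ S.P := by
    refine S.low.P_le_iff.mpr ⟨fun γ hγ h0 => S.χ_memP hγ h0, fun i => S.y_memP _⟩
  have hMonT : ∀ {a : Ω}, T.Mono a → MonIn v (ext T.Γ κ) χ' S'.H a := by
    intro a ha
    refine ⟨ha.1, le_ext _ _ ha.2.1, ?_⟩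
    have h1 : a / χ' (v a) = a / T.χ (v a) * W ^ n (v a) 0 := by
      have h2 := hχT _ ha.2.1
      have h3 := hχ'.ne _ (le_ext _ κ ha.2.1)
      rw [h2]
      have h4 : W ^ n (v a) 0 ≠ 0 := zpow_ne_zero _ hW0
      field_simp
    rw [h1]
    exact S'.H.mul_mem (hTS ha.2.2) (hWz _)
  have hDT : ∀ a ∈ T.P, Dn S.P (ext T.Γ κ) χ' S'.H v a := by
    intro a ha
    obtain ⟨a₁, ha₁, b₁, hb₁, hm, rfl⟩ := hT.den a ha
    exact ⟨a₁, hlowP ha₁, b₁, hlowP hb₁, hMonT hm, rfl⟩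
  have hTχmon : ∀ γ ∈ T.Γ, T.Mono (T.χ γ) := by
    intro γ hγ
    refine ⟨T.χ_ne _ hγ, ?_, ?_⟩
    · rw [T.χ_val _ hγ]; exact hγ
    · rw [T.χ_val _ hγ, div_self (T.χ_ne _ hγ)]; exact T.H.one_mem
  have hDχ : ∀ γ ∈ T.Γ, Dn S.P (ext T.Γ κ) χ' S'.H v (T.χ γ) := by
    intro γ hγ
    rcases le_total 0 γ with h0 | h0
    · exact hDT _ (T.χ_memP hγ h0)
    · have h1 := hDT _ (T.χ_memP (T.Γ.neg_mem hγ) (neg_nonneg.mpr h0))
      have h2 := dn_inv hSmf h1 (hMonT (hTχmon _ (T.Γ.neg_mem hγ)))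
      rwa [T.mon.neg hγ, inv_inv] at h2
  have huD : Dn S.P (ext T.Γ κ) χ' S'.H v u := dn_of_mem hSmf hu
  have humon : MonIn v (ext T.Γ κ) χ' S'.H u := by
    have h1 := hn1 0 T.Γ.zero_mem 1
    rw [T.mon.zero, one_mul, zpow_one, zero_add, Int.cast_one, one_mul] at h1
    refine ⟨hu0, ?_, ?_⟩
    · rw [huv.2]; exact mem_ext _ _
    · rw [huv.2]
      have h3 := hχ'.ne _ (mem_ext T.Γ κ)
      have : u / χ' κ = W ^ n 0 1 := by
        rw [div_eq_iff h3, mul_comm]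
        exact h1
      rw [this]
      exact hWz _
  have hWmon : MonIn v (ext T.Γ κ) χ' S'.H W := by
    refine ⟨hW0, ?_, ?_⟩
    · rw [hWv]; exact (ext T.Γ κ).zero_mem
    · rw [hWv, hχ'.zero, div_one]; exact hWH
  have hWD : Dn S.P (ext T.Γ κ) χ' S'.H v W := by
    rw [hW, div_eq_mul_inv]
    exact dn_mul hSmf (dn_pow hSmf huD q) (dn_inv hSmf (hDχ _ hqκ) (hMonT (hTχmon _ hqκ)))
  have hle : S.Le S' := by
    refine ⟨fun γ hγ => le_ext _ _ (hT.Γ_le γ hγ), fun γ hγ => ?_, fun i => ?_, fun g hg => ?_⟩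
    · have h1 : S.χ γ / χ' γ = S.low.χ γ / T.χ γ * W ^ n γ 0 := by
        have h2 := hχT _ (hT.Γ_le γ hγ)
        have h3 := hχ'.ne _ (le_ext _ κ (hT.Γ_le γ hγ))
        rw [h2]
        have h4 : W ^ n γ 0 ≠ 0 := zpow_ne_zero _ hW0
        change S.χ γ / χ' γ = S.χ γ / (χ' γ * W ^ n γ 0) * W ^ n γ 0
        field_simp
      rw [hSχ, h1]
      exact S'.H.mul_mem (hTS (hT.χ_mono γ hγ)) (hWz _)
    · refine Fin.lastCases ?_ (fun i => ?_) i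
      · exact hzH
      · exact hTS (hT.y_mem i)
    · have h1 : S'.P ≤ dnAlg S.P hSmf := by
        refine S'.P_le_iff.mpr ⟨fun γ hγ h0 => ?_, fun i => ?_⟩
        · obtain ⟨δ, hδ, m, rfl⟩ := mem_ext_iff.mp hγ
          have h2 : χ' (δ + m * κ) = T.χ δ * u ^ m * W ^ (-n δ m) := by
            rw [hn1 δ hδ m, zpow_neg, mul_assoc, mul_inv_cancel₀ (zpow_ne_zero _ hW0), mul_one]
          change Dn S.P (ext T.Γ κ) χ' S'.H v (χ' (δ + m * κ))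
          rw [h2]
          exact dn_mul hSmf (dn_mul hSmf (hDχ δ hδ) (dn_zpow hSmf huD humon m))
            (dn_zpow hSmf hWD hWmon _)
        · refine Fin.lastCases ?_ (fun i => ?_) i
          · change Dn S.P (ext T.Γ κ) χ' S'.H v S'.z
            rw [hSz]
            exact (dnAlg S.P hSmf).sub_mem hWD ((dnAlg S.P hSmf).algebraMap_mem c)
          · rw [hSy i]
            exact hDT _ (T.y_memP i)
      exact h1 hg
  refine ⟨S', hle, ?_⟩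
  -- the order
  have hSS : S.H ≤ S'.H := by
    refine hz_le_hz (S.P_le_iff.mpr ⟨fun γ hγ h0 => ?_, fun i => hle.y_mem i⟩)
    have h1 := hle.χ_mono γ hγ
    have h2 := S'.H.mul_mem h1 (S'.P_le (S'.χ_memP (hle.Γ_le γ hγ) h0))
    rwa [div_mul_cancel₀ _ (S'.χ_ne _ (hle.Γ_le γ hγ))] at h2
  obtain ⟨μ, hμ, M', hM', U, hU, hU0, hUv, hJ⟩ := hnew.order triv res hd huQ hQ' hX hM hMk hb hbM
    hbMv hb1 (hSS hg) rfl hc0 hc
  have hκ₀' := hle.Γ_le κ₀ hκ₀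
  set e₁ : Ω := S.χ κ₀ / S'.χ κ₀ with he₁
  have he₁H : e₁ ∈ S'.H := hle.χ_mono κ₀ hκ₀
  have he₁0 : e₁ ≠ 0 := div_ne_zero (S.χ_ne _ hκ₀) (S'.χ_ne _ hκ₀')
  have he₁v : v e₁ = 0 := by
    rw [he₁, v.map_div (S.χ_ne _ hκ₀) (S'.χ_ne _ hκ₀'), S.χ_val _ hκ₀, S'.χ_val _ hκ₀', sub_self]
  refine ⟨κ₀ + μ, M', hM', ⟨S'.Γ.add_mem hκ₀' hμ, e₁ * U, ⟨S'.H.mul_mem he₁H hU,
    mul_ne_zero he₁0 hU0, by rw [v.map_mul he₁0 hU0, he₁v, hUv, add_zero]⟩,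
    e₁ * ((∑ j ∈ Finset.range (M + 1), b j * X ^ j + X ^ (M + 1) * g) / χ' μ -
      U * (W - algebraMap k Ω c) ^ M'), ?_, ?_⟩⟩
  · have h5 := hJ.mul he₁H
    obtain ⟨γ, hγ, h0, a, ha, b', hb', he⟩ := h5
    refine ⟨γ, hγ, h0, a, ha, b', hb', ?_⟩
    rw [he]
    simp only [hSy]
    rfl
  · rw [S'.χ_add _ hκ₀' _ hμ, hSz, hf, he₁, hSχ]
    have h3 := S'.χ_ne _ hκ₀'
    have h4 := hχ'.ne _ hμ
    rw [hSχ] at h3
    field_simp
    ring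

end Pool.Agent.ALLY
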