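import Pool.Agent.Lib.ALLY.Basic
import Pool.Agent.Lib.ALLY.Gen
import Pool.Agent.Lib.ALLY.StepCore

/-!
# Block Y, any rank: one step (rows H7, H8, H9), final form
-/

set_option autoImplicit false

open Polynomial

namespace Pool.Agent.ALLY

open Pool.Agent.TAO (OVal VPos Ctx0 CtxR val_add_vpos)
open Pool.Agent.ALLh43 (Mon MF JJ MonIn ext le_ext mem_ext mem_ext_iff ext_fg exists_chi Dom NewF)

universe u w

variable {k Ω : Type u} [Field k] [Field Ω] [Algebra k Ω] {𝕂 : Type w} [Field 𝕂] [LinearOrder 𝕂]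
  [IsStrictOrderedRing 𝕂] {v : OVal 𝕂 Ω} {n d : ℕ}

/-- A polynomial over `A` with a nonzero Taylor coefficient of degree one, evaluated at an element
transcendental over `K ⊇ A`, is transcendental over `K`. -/
theorem transcendental_eval {K : IntermediateField k Ω} {A : Subalgebra k Ω}
    (hA : ∀ a ∈ A, a ∈ K) {z ψ : Ω} (hz : Transcendental K z) {N : Polynomial Ω}
    (hN : ∀ i, N.coeff i ∈ A) (hN1 : (taylor ψ N).coeff 1 ≠ 0) :
    Transcendental K (N.eval z) := by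
  classical
  have hl : N ∈ Polynomial.lifts (algebraMap K Ω) := by
    rw [Polynomial.lifts_iff_coeff_lifts]
    exact fun i => ⟨⟨N.coeff i, hA _ (hN i)⟩, rfl⟩
  obtain ⟨N', hN'⟩ := hl
  have hN'' : N'.map (algebraMap K Ω) = N := hN'
  have e : N.eval z = aeval z N' := by
    rw [← hN'', eval_map_algebraMap]
  have hdeg : N'.natDegree ≠ 0 := by
    intro h0
    obtain ⟨c, hc⟩ := natDegree_eq_zero.mp h0
    rw [← hN'', ← hc, map_C, taylor_C, coeff_C] at hN1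
    simp at hN1
  rw [e]
  intro halg
  refine hz ?_
  obtain ⟨p, hp, hp0⟩ := halg
  refine ⟨p.comp N', ?_, ?_⟩
  · intro h0
    have h1 := natDegree_comp (p := p) (q := N')
    rw [h0, natDegree_zero] at h1
    have h2 : p.natDegree = 0 := by
      rcases Nat.mul_eq_zero.mp h1.symm with h | h
      · exact h
      · exact absurd h hdeg
    obtain ⟨c, hc⟩ := natDegree_eq_zero.mp h2
    rw [← hc, C_comp] at h0
    rw [← hc, h0] at hp
    exact hp rfl
  · rw [aeval_comp]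
    exact hp0

theorem step [IsAlgClosed Ω] [IsAlgClosed k] (p : ℕ) [Fact p.Prime] [CharP k p]
    (h : Ctx0 k v n) (S : RD k v (d + 1)) (hpos : ∃ γ ∈ S.Γ, 0 < γ)
    (htr : Transcendental S.low.K S.z) (T : RD k v d)
    (hT : S.low.Le T) {ψ : Ω} (hψ : ψ ∈ T.H) (hψ0 : VPos v ψ) (hz : S.z - ψ ≠ 0)
    (N : Polynomial Ω) (hN : ∀ i, N.coeff i ∈ S.low.P)
    (hNm : ∀ j, (taylor ψ N).coeff j ≠ 0 → T.Mono ((taylor ψ N).coeff j))
    (hN1 : (taylor ψ N).coeff 1 ≠ 0)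
    (hN0 : (taylor ψ N).coeff 0 ≠ 0 →
      v ((taylor ψ N).coeff 1) + v (S.z - ψ) < v ((taylor ψ N).coeff 0))
    (hNj : ∀ j : ℕ, 2 ≤ j → (taylor ψ N).coeff j ≠ 0 →
      v ((taylor ψ N).coeff 1) + v (S.z - ψ) < v ((taylor ψ N).coeff j) + j * v (S.z - ψ))
    {f : Ω} {κ : 𝕂} (hκ : κ ∈ S.Γ) {M : ℕ} (hM : 0 < M) (hMp : M < p) (a : ℕ → Ω)
    (ha : ∀ j, a j ∈ T.H) (ham : ∀ j, j ≤ M → a j ≠ 0 → T.Mono (a j)) {g : Ω} (hg : g ∈ S.H)
    (hf : f = S.χ κ * (∑ j ∈ Finset.range (M + 1), a j * (S.z - ψ) ^ j +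
      (S.z - ψ) ^ (M + 1) * g))
    (haM : a M ≠ 0) (haM' : v (a M) = 0)
    (haM1 : a (M - 1) ≠ 0 → 2 * v (S.z - ψ) ≤ v (a (M - 1))) :
    ∃ S' : RD k v (d + 1), S.Le S' ∧ ∃ (κ' : 𝕂) (M' : ℕ), M' < M ∧ S'.ZForm f κ' M' := by
  have hlowP : S.low.P ≤ S.P :=
    S.low.P_le_iff.mpr ⟨fun γ hγ h0 => S.χ_memP hγ h0, fun i => S.y_memP _⟩
  have hX : 0 < v (S.z - ψ) := by
    have h1 : VPos v S.z := fun _ => S.y_pos _
    exact (h1.sub hψ0) hz
  have hzP : S.z ∈ S.P := S.y_memP _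
  have hev : N.eval S.z = ∑ j ∈ Finset.range (N.natDegree + 1 + 1),
      (taylor ψ N).coeff j * (S.z - ψ) ^ j := by
    have h1 : N.eval S.z = (taylor ψ N).eval (S.z - ψ) := by
      rw [taylor_eval, sub_add_cancel]
    rw [h1, eval_eq_sum_range' (n := N.natDegree + 1 + 1)]
    rw [natDegree_taylor]
    omega
  have huP : N.eval S.z ∈ S.P := by
    rw [eval_eq_sum_range]
    exact S.P.sum_mem fun i _ => S.P.mul_mem (hlowP (hN i)) (S.P.pow_mem hzP i)
  have hut : Transcendental S.low.K (N.eval S.z) :=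
    transcendental_eval S.low.P_mem_KS htr hN hN1
  have hd : Dom v (N.natDegree + 1) (fun j => (taylor ψ N).coeff j) (S.z - ψ) := by
    refine ⟨hz, by omega, hN1, fun j hj hj1 h0 => ?_⟩
    rcases Nat.eq_zero_or_pos j with rfl | hj0
    · rw [Nat.cast_zero, zero_mul, add_zero]
      exact hN0 h0
    · exact hNj j (by omega) h0
  have hMk : (M : k) ≠ 0 := by
    intro h0
    rw [CharP.cast_eq_zero_iff k p] at h0
    exact absurd (Nat.le_of_dvd hM h0) (by omega)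
  have hTpos : ∀ T' : RD k v d, ∃ γ ∈ T'.Γ, 0 < γ := by
    intro T'
    obtain ⟨m, hm, h1⟩ := T'.full S.z (S.y_ne _)
    exact ⟨_, h1, mul_pos (by exact_mod_cast hm) (S.y_pos _)⟩
  obtain ⟨S', hle, μ, M', hM', hZ⟩ := step_core (S := S) (T := T)
    (fun B hB hB0 G hG a ha h0 h1 h2 => HCl.root' h hB hB0 G hG a ha h0 h1 h2)
    (fun S' => RD.nonneg h S') (fun T' f hf h0 => RD.mx_of_vpos h T' (hTpos T') hf h0)
    h.triv h.res hT huP hut hψ hz hX hd hev
    (fun j _ => by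
      by_cases h0 : (taylor ψ N).coeff j = 0
      · exact Or.inl h0
      · exact Or.inr (hNm j h0))
    hM hMk (b := a) (fun j hj => by
      by_cases h0 : a j = 0
      · exact Or.inl h0
      · exact Or.inr (ham j hj h0)) haM haM' (fun h0 => by
        have := haM1 h0
        linarith) hg hκ hf
  exact ⟨S', hle, μ, M', hM', hZ⟩

end Pool.Agent.ALLY
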