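import Pool.Agent.Lib.ALLY.Lin
import Pool.Agent.Lib.ALLY.Trd
import Pool.Agent.Lib.ALLY.Key
import Pool.Agent.Lib.ALLY.Step
import Pool.Agent.Lib.ALLY_h22.Tsch

/-!
# PROJECT ALL, block Y in any rank, row H10: the loop

* `exists_zform`: after a linear change of the parameters, `f = χ(κ) (u z^M + I)`;
* `zcore`: induction on `M` with `tschirnhaus`, `exists_key`, `lus_plus` and `step`;
* `ycore`: elements of content `κ` and order `M < p` become monomials times units.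
-/

set_option autoImplicit false

open Polynomial

namespace Pool.Agent.ALLY

open Pool.Agent.TAO (OVal VPos Ctx0 CtxR val_add_vpos)

universe u w

variable {k Ω : Type u} [Field k] [Field Ω] [Algebra k Ω] {𝕂 : Type w} [Field 𝕂] [LinearOrder 𝕂]
  [IsStrictOrderedRing 𝕂] {v : OVal 𝕂 Ω} {n d r : ℕ}

/-- The Taylor coefficients are in the ring of the coefficients and of the point. -/
theorem taylor_coeff_mem {B : Subalgebra k Ω} {N : Polynomial Ω} (hN : ∀ i, N.coeff i ∈ B) {ψ : Ω}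
    (hψ : ψ ∈ B) (j : ℕ) : (taylor ψ N).coeff j ∈ B := by
  rw [taylor_coeff, eval_eq_sum_range]
  refine B.sum_mem fun i _ => B.mul_mem ?_ (B.pow_mem hψ i)
  rw [hasseDeriv_coeff]
  exact B.mul_mem (B.natCast_mem _) (hN _)

/-- a linear change of the parameters -/
theorem exists_zform [Infinite k] (h : CtxR k v n r) (S : RD k v (d + 1)) {f : Ω}
    {κ : 𝕂} {M : ℕ} (hf : S.Ord f κ M) : ∃ S' : RD k v (d + 1), S.Le S' ∧ S'.ZForm f κ M := by
  obtain ⟨S', h1, -, -, -, -, -, -, h2⟩ := exists_zformL h.triv S hf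
  exact ⟨S', h1, h2⟩

/-- The induction on the order with respect to the last parameter. -/
theorem zcore [IsAlgClosed Ω] [IsAlgClosed k] (p : ℕ) [Fact p.Prime] [CharP k p]
    (h : CtxR k v n r) (hr : 0 < r) (hL : LUsR k v d (r + d)) (M : ℕ) (hM : M < p) :
    ∀ (S : RD k v (d + 1)), Algebra.trdeg k S.K = r + (d + 1) → ∀ {f : Ω} {κ : 𝕂},
      S.ZForm f κ M → ∃ S' : RD k v (d + 1), S.Le S' ∧ S'.Mono f := by
  classical
  induction M using Nat.strong_induction_on with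
  | _ M ih =>
  intro S hS f κ hf
  rcases Nat.eq_zero_or_pos M with rfl | hM0
  · exact ⟨S, RD.Le.refl S, mono_of_zform_zero h.triv hf⟩
  have hpos := S.exists_pos h hr
  obtain ⟨htr, hlow⟩ := S.transc h hS
  obtain ⟨ψ, hψ, hψ0, hz, a, ha, g, hg, hfe, haM, haM', haM1⟩ :=
    tschirnhaus p h.toCtx0 S hpos htr hf hM0 hM
  obtain ⟨N, hN, hN1, hN0, hNj⟩ := exists_key h.toCtx0 S.low hψ (v (S.z - ψ))
  have hNH : ∀ i, N.coeff i ∈ S.low.H := fun i => le_hz v _ (hN i)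
  -- the finite set
  set Z : Finset Ω := ((Finset.range (N.natDegree + 1)).image fun j => (taylor ψ N).coeff j) ∪
    (Finset.range (M + 1)).image a with hZdef
  obtain ⟨T, hT, hTm⟩ := lus_plus h.toCtx0 hL S.low (by rw [hlow, Nat.cast_add]) (Z.erase 0) (fun z hz => by
    rw [Finset.mem_erase] at hz
    refine ⟨hz.1, z, ?_, 1, S.low.H.one_mem, one_ne_zero, by rw [div_one]⟩
    rcases Finset.mem_union.1 hz.2 with h1 | h1
    · obtain ⟨j, -, rfl⟩ := Finset.mem_image.1 h1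
      exact taylor_coeff_mem hNH hψ j
    · obtain ⟨j, -, rfl⟩ := Finset.mem_image.1 h1
      exact ha j)
  obtain ⟨S', hle, κ', M', hM', hf'⟩ := step p h.toCtx0 S hpos htr T hT (hT.H_le hψ) hψ0 hz N hN
    (fun j hj => hTm _ (Finset.mem_erase.2 ⟨hj, Finset.mem_union_left _
      (Finset.mem_image.2 ⟨j, Finset.mem_range.2 (by
        by_contra hlt
        apply hj
        apply coeff_eq_zero_of_natDegree_lt
        rw [natDegree_taylor]
        omega), rfl⟩)⟩)) hN1 (fun h0 => hN0 h0) (fun j hj h0 => hNj j hj h0) hf.1 hM0 hM a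
    (fun j => hT.H_le (ha j))
    (fun j hj h0 => hTm _ (Finset.mem_erase.2 ⟨h0, Finset.mem_union_right _
      (Finset.mem_image.2 ⟨j, Finset.mem_range.2 (by omega), rfl⟩)⟩)) hg hfe haM haM' haM1
  obtain ⟨S'', hle', hm⟩ := ih M' hM' (hM'.trans hM) S' ((hle.trdeg h.toCtx0).trans hS) hf'
  exact ⟨S'', hle.trans hle', hm⟩

/-- **The core of block Y.** -/
theorem ycore [IsAlgClosed Ω] [IsAlgClosed k] (p : ℕ) [Fact p.Prime] [CharP k p]
    (h : CtxR k v n r) (hr : 0 < r) (hL : LUsR k v d (r + d)) (S : RD k v (d + 1))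
    (hS : Algebra.trdeg k S.K = r + (d + 1)) {f : Ω} {κ : 𝕂} {M : ℕ} (hf : S.Ord f κ M)
    (hM : M < p) : ∃ S' : RD k v (d + 1), S.Le S' ∧ S'.Mono f := by
  obtain ⟨S₁, h1, h2⟩ := exists_zform h S hf
  obtain ⟨S₂, h3, h4⟩ := zcore p h hr hL M hM S₁ ((h1.trdeg h.toCtx0).trans hS) h2
  exact ⟨S₂, h1.trans h3, h4⟩

/-- `D = 0`. -/
theorem ycore_zero (h : Ctx0 k v n) (S : RD k v 0) {f : Ω} {κ : 𝕂} {M : ℕ} (hf : S.Ord f κ M) :
    S.Mono f := by
  obtain ⟨hκ, P, hP, hP0, e, he, γ, hγ, hγ0, a, ha, rfl⟩ := hf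
  -- `P` is a constant
  obtain ⟨c, rfl⟩ : ∃ c : k, P = MvPolynomial.C c :=
    ⟨MvPolynomial.coeff 0 P, by
      rw [← MvPolynomial.totalDegree_eq_zero_iff_eq_C]
      rw [MvPolynomial.totalDegree_eq_zero_iff]
      exact fun m _ i => i.elim0⟩
  have hc : c ≠ 0 := fun h0 => hP0 (by rw [h0, map_zero])
  -- `e = 0`
  have he0 : e = 0 := by
    have h1 : S.YI (M + 1) = ⊥ := by
      unfold RD.YI
      rw [Set.range_eq_empty, Submodule.span_empty, Submodule.bot_pow (Nat.succ_ne_zero M),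
        Submodule.bot_mul]
    rw [h1] at he
    exact (Submodule.mem_bot k).1 he
  subst he0
  rw [MvPolynomial.aeval_C, add_zero]
  have hχ : VPos v (S.χ γ * a) := by
    refine VPos.mul (fun _ => ?_) (S.ge_of_mem_HL h.triv ha)
    rw [S.χ_val γ hγ]
    exact hγ0
  obtain ⟨h1, h2⟩ := val_add_vpos ((_root_.map_ne_zero _).2 hc) (h.triv c hc) hχ
  have h3 : v (S.χ κ * (algebraMap k Ω c + S.χ γ * a)) = κ := by
    rw [v.map_mul (S.χ_ne κ hκ) h1, S.χ_val κ hκ, h2, add_zero]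
  refine ⟨mul_ne_zero (S.χ_ne κ hκ) h1, by rw [h3]; exact hκ, ?_⟩
  rw [h3, mul_div_cancel_left₀ _ (S.χ_ne κ hκ)]
  exact S.H.add_mem (S.H.algebraMap_mem c)
    (S.H.mul_mem (S.P_le_HL (S.χ_mem_PL hγ hγ0.le)) ha)

end Pool.Agent.ALLY
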