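import Pool.Agent.Lib.ALLY.Gen

/-!
# PROJECT ALL, block Y: `S.H` as the henselization of `S.low.H[z]`

* `RD.H_eq_adjoin_z`: `S.H = Hz (S.low.H[z])`.
* `RD.H_eq_adjoin`: if `z₁ ∈ S.H` and `z ∈ Hz (S.low.H[z₁])` then `S.H = Hz (S.low.H[z₁])`.
-/

set_option autoImplicit false

namespace Pool.Agent.ALLY

open Pool.Agent.TAO (OVal VPos Ctx0 CtxR)

universe u w

variable {k Ω : Type u} [Field k] [Field Ω] [Algebra k Ω] {𝕂 : Type w} [Field 𝕂] [LinearOrder 𝕂]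
  [IsStrictOrderedRing 𝕂] {v : OVal 𝕂 Ω} {d : ℕ}

/-- `S.P ≤ S.low.H[z]`. -/
theorem RD.P_le_adjoin_z (S : RD k v (d + 1)) :
    S.P ≤ Algebra.adjoin k ((S.low.H : Set Ω) ∪ {S.z}) := by
  refine Algebra.adjoin_le ?_
  rintro f (⟨γ, ⟨hγ, h0⟩, rfl⟩ | ⟨i, rfl⟩)
  · exact Algebra.subset_adjoin (Or.inl (S.low.χ_mem_H hγ h0))
  · refine Fin.lastCases ?_ (fun j => ?_) i
    · exact Algebra.subset_adjoin (Or.inr rfl)
    · exact Algebra.subset_adjoin (Or.inl (S.low.y_mem_H j))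

/-- `S.low.H[z₁] ≤ S.H` for `z₁ ∈ S.H`. -/
theorem RD.adjoin_le_H (S : RD k v (d + 1)) {z₁ : Ω} (h1 : z₁ ∈ S.H) :
    Algebra.adjoin k ((S.low.H : Set Ω) ∪ {z₁}) ≤ S.H := by
  refine Algebra.adjoin_le ?_
  rintro f (hf | hf)
  · exact S.low_H_le hf
  · rw [Set.mem_singleton_iff] at hf
    rw [hf]
    exact h1

theorem RD.z_mem_H (S : RD k v (d + 1)) : S.z ∈ S.H := S.y_mem_H _

theorem RD.H_eq_adjoin_z (S : RD k v (d + 1)) :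
    S.H = Hz v (Algebra.adjoin k ((S.low.H : Set Ω) ∪ {S.z})) :=
  le_antisymm (hz_mono S.P_le_adjoin_z) (hz_le_hz (S.adjoin_le_H S.z_mem_H))

theorem RD.H_eq_adjoin (S : RD k v (d + 1)) {z₁ : Ω} (h1 : z₁ ∈ S.H)
    (hz : S.z ∈ Hz v (Algebra.adjoin k ((S.low.H : Set Ω) ∪ {z₁}))) :
    S.H = Hz v (Algebra.adjoin k ((S.low.H : Set Ω) ∪ {z₁})) := by
  refine le_antisymm ?_ (hz_le_hz (S.adjoin_le_H h1))
  rw [S.H_eq_adjoin_z]
  refine hz_le_hz (Algebra.adjoin_le ?_)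
  rintro f (hf | hf)
  · exact le_hz v _ (Algebra.subset_adjoin (Or.inl hf))
  · rw [Set.mem_singleton_iff] at hf
    rw [hf]
    exact hz

end Pool.Agent.ALLY
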